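import Mathlib

/-!
# Elementary power sums
-/

set_option autoImplicit false

namespace Pool.Agent.R978.DG

/-- `x^(-b) ≥ (x+1)^(-b) (1 + b/(x+1))`. -/
lemma rpow_step {x b : ℝ} (hx : 0 < x) (hb : 0 ≤ b) :
    (x + 1) ^ (-b) * (1 + b / (x + 1)) ≤ x ^ (-b) := by
  have hx1 : 0 < x + 1 := by linarith
  have h1 : x = (x + 1) * (x / (x + 1)) := by field_simp
  have h2 : 0 < x / (x + 1) := by positivity
  have h3 : x ^ (-b) = (x + 1) ^ (-b) * (x / (x + 1)) ^ (-b) := by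
    rw [← Real.mul_rpow hx1.le h2.le, ← h1]
  rw [h3]
  refine mul_le_mul_of_nonneg_left ?_ (Real.rpow_nonneg hx1.le _)
  rw [Real.rpow_def_of_pos h2]
  have h4 : Real.log (x / (x + 1)) ≤ -(1 / (x + 1)) := by
    have := Real.log_le_sub_one_of_pos h2
    have h5 : x / (x + 1) - 1 = -(1 / (x + 1)) := by field_simp; ring
    linarith
  have h6 : b / (x + 1) ≤ Real.log (x / (x + 1)) * -b := by
    have := mul_le_mul_of_nonneg_right h4 hb
    have h7 : b / (x + 1) = 1 / (x + 1) * b := by ring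
    rw [h7]; linarith
  have := Real.add_one_le_exp (Real.log (x / (x + 1)) * -b)
  linarith

/-- Sum of a decreasing power. -/
lemma sum_rpow_le {a : ℝ} (ha : 1 < a) {s : ℝ} (hs : 1 ≤ s) (n : ℕ) :
    ∑ j ∈ Finset.range n, (s + j) ^ (-a) ≤ a / (a - 1) * s ^ (1 - a) := by
  have ha1 : 0 < a - 1 := by linarith
  have key : ∀ n : ℕ, ∑ j ∈ Finset.range n, (s + ((j + 1 : ℕ) : ℝ)) ^ (-a) ≤
      (1 / (a - 1)) * (s ^ (1 - a) - (s + n) ^ (1 - a)) := by
    intro n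
    induction n with
    | zero => simp
    | succ n ih =>
      rw [Finset.sum_range_succ]
      have hx : 0 < s + n := by positivity
      have h1 := rpow_step hx ha1.le
      have h2 : (s + n + 1) ^ (-(a - 1)) * ((a - 1) / (s + n + 1)) = (a - 1) * (s + n + 1) ^ (-a) := by
        have hx1 : 0 < s + n + 1 := by linarith
        rw [show -(a - 1) = -a + 1 by ring, Real.rpow_add_one hx1.ne']
        field_simp
      have h3 : (s + n) ^ (-(a - 1)) = (s + n) ^ (1 - a) := by congr 1; ring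
      have h4 : (s + n + 1) ^ (-(a - 1)) = (s + ((n + 1 : ℕ) : ℝ)) ^ (1 - a) := by
        push_cast; rw [add_assoc]; congr 1; ring
      have h5 : (s + ((n + 1 : ℕ) : ℝ)) ^ (-a) ≤
          (1 / (a - 1)) * ((s + n) ^ (1 - a) - (s + ((n + 1 : ℕ) : ℝ)) ^ (1 - a)) := by
        rw [mul_add, mul_one, h2, h3, h4] at h1
        rw [one_div, inv_mul_eq_div, le_div_iff₀ ha1]
        have h6 : (s + n + 1) ^ (-a) = (s + ((n + 1 : ℕ) : ℝ)) ^ (-a) := by push_cast; rw [add_assoc]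
        rw [h6] at h1
        linarith
      calc _ ≤ (1 / (a - 1)) * (s ^ (1 - a) - (s + n) ^ (1 - a)) +
            (1 / (a - 1)) * ((s + n) ^ (1 - a) - (s + ((n + 1 : ℕ) : ℝ)) ^ (1 - a)) := add_le_add ih h5
        _ = _ := by ring
  have hs0 : 0 < s := by linarith
  have h7 : s ^ (-a) ≤ s ^ (1 - a) := Real.rpow_le_rpow_of_exponent_le hs (by linarith)
  have h8 : 0 ≤ s ^ (1 - a) := Real.rpow_nonneg hs0.le _
  rcases Nat.eq_zero_or_pos n with rfl | hn
  · simp; positivity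
  · obtain ⟨k, rfl⟩ : ∃ k, n = k + 1 := ⟨n - 1, by omega⟩
    rw [Finset.sum_range_succ']
    have h9 := key k
    have h10 : 0 ≤ (s + k) ^ (1 - a) := Real.rpow_nonneg (by positivity) _
    have h11 : (1 / (a - 1)) * (s ^ (1 - a) - (s + k) ^ (1 - a)) ≤ (1 / (a - 1)) * s ^ (1 - a) := by
      have : 0 < 1 / (a - 1) := by positivity
      nlinarith
    have h12 : a / (a - 1) * s ^ (1 - a) = (1 / (a - 1)) * s ^ (1 - a) + s ^ (1 - a) := by
      field_simp; ring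
    rw [h12]
    simp only [Nat.cast_zero, add_zero]
    linarith

lemma summable_rpow {a : ℝ} (ha : 1 < a) {s : ℝ} (hs : 1 ≤ s) :
    Summable fun j : ℕ => (s + j) ^ (-a) :=
  summable_of_sum_range_le (fun j => Real.rpow_nonneg (by positivity) _) (sum_rpow_le ha hs)

lemma tsum_rpow_le {a : ℝ} (ha : 1 < a) {s : ℝ} (hs : 1 ≤ s) :
    ∑' j : ℕ, (s + j) ^ (-a) ≤ a / (a - 1) * s ^ (1 - a) :=
  Real.tsum_le_of_sum_range_le (fun j => Real.rpow_nonneg (by positivity) _) (sum_rpow_le ha hs)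

/-- The double tail sum. -/
lemma double_tail {α : ℝ} (hα : 2 < α) {s : ℝ} (hs : 1 ≤ s) :
    Summable (fun q : ℕ × ℕ => (s + q.1 + q.2) ^ (-α)) ∧
    ∑' q : ℕ × ℕ, (s + q.1 + q.2) ^ (-α) ≤ α / (α - 2) * s ^ (2 - α) := by
  have hnn : ∀ q : ℕ × ℕ, 0 ≤ (s + q.1 + q.2) ^ (-α) := fun q => Real.rpow_nonneg (by positivity) _
  have h1 : ∀ i : ℕ, 1 ≤ s + i := fun i => by
    have : (0 : ℝ) ≤ i := Nat.cast_nonneg i
    linarith
  have h2 : ∀ i : ℕ, Summable fun j : ℕ => (s + i + j) ^ (-α) := fun i =>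
    summable_rpow (by linarith) (h1 i)
  have h3 : ∀ i : ℕ, ∑' j : ℕ, (s + i + j) ^ (-α) ≤ α / (α - 1) * (s + i) ^ (-(α - 1)) := fun i => by
    have := tsum_rpow_le (a := α) (by linarith) (h1 i)
    rwa [show (1 : ℝ) - α = -(α - 1) by ring] at this
  have h4 : Summable fun i : ℕ => α / (α - 1) * (s + i) ^ (-(α - 1)) :=
    (summable_rpow (a := α - 1) (by linarith) hs).mul_left _
  have h5 : Summable fun i : ℕ => ∑' j : ℕ, (s + i + j) ^ (-α) :=
    Summable.of_nonneg_of_le (fun i => tsum_nonneg fun j => hnn (i, j)) h3 h4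
  have h6 : Summable (fun q : ℕ × ℕ => (s + q.1 + q.2) ^ (-α)) :=
    (summable_prod_of_nonneg hnn).mpr ⟨h2, h5⟩
  refine ⟨h6, ?_⟩
  rw [h6.tsum_prod]
  calc ∑' i : ℕ, ∑' j : ℕ, (s + i + j) ^ (-α) ≤ ∑' i : ℕ, α / (α - 1) * (s + i) ^ (-(α - 1)) :=
        h5.tsum_le_tsum h3 h4
    _ = α / (α - 1) * ∑' i : ℕ, (s + i) ^ (-(α - 1)) := tsum_mul_left
    _ ≤ α / (α - 1) * ((α - 1) / (α - 1 - 1) * s ^ (1 - (α - 1))) := by
        have h7 : 0 ≤ α / (α - 1) := div_nonneg (by linarith) (by linarith)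
        exact mul_le_mul_of_nonneg_left (tsum_rpow_le (a := α - 1) (by linarith) hs) h7
    _ = α / (α - 2) * s ^ (2 - α) := by
        have h8 : α - 1 ≠ 0 := by linarith
        have h9 : α - 2 ≠ 0 := by linarith
        rw [show (1 : ℝ) - (α - 1) = 2 - α by ring, show α - 1 - 1 = α - 2 by ring]
        field_simp

/-- Sum of `r^(2-α)` for `α < 3`. -/
lemma sum_pow_le {b : ℝ} (hb : 0 < b) (hb1 : b ≤ 1) (n : ℕ) :
    ∑ r ∈ Finset.range n, ((r : ℝ) + 1) ^ (b - 1) ≤ (n : ℝ) ^ b / b := by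
  induction n with
  | zero => simp [Real.zero_rpow hb.ne']
  | succ n ih =>
    rw [Finset.sum_range_succ]
    have hn1 : (0 : ℝ) < (n : ℝ) + 1 := by positivity
    have h1 : (n : ℝ) ^ b ≤ ((n : ℝ) + 1) ^ b * (1 - b / ((n : ℝ) + 1)) := by
      have h2 : (n : ℝ) = ((n : ℝ) + 1) * (1 + -(1 / ((n : ℝ) + 1))) := by field_simp; ring
      have h3 : -1 ≤ -(1 / ((n : ℝ) + 1)) := by
        rw [neg_le_neg_iff, div_le_one hn1]
        have : (0 : ℝ) ≤ n := Nat.cast_nonneg n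
        linarith
      have h4 := rpow_one_add_le_one_add_mul_self h3 hb.le hb1
      have h5 : (n : ℝ) ^ b = ((n : ℝ) + 1) ^ b * (1 + -(1 / ((n : ℝ) + 1))) ^ b := by
        rw [← Real.mul_rpow hn1.le (by linarith), ← h2]
      rw [h5]
      refine mul_le_mul_of_nonneg_left (h4.trans (le_of_eq ?_)) (Real.rpow_nonneg hn1.le _)
      ring
    have h6 : ((n : ℝ) + 1) ^ b * (b / ((n : ℝ) + 1)) = b * ((n : ℝ) + 1) ^ (b - 1) := by
      rw [Real.rpow_sub_one hn1.ne']; ring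
    push_cast
    rw [le_div_iff₀ hb] at ih ⊢
    rw [mul_sub, mul_one, h6] at h1
    linarith

end Pool.Agent.R978.DG
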