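import Pool.Agent.R978.DGSum
import Pool.Agent.R978.DGTail

/-!
# The interaction energy of two centred intervals, and the variance lower bound
-/

set_option autoImplicit false

namespace Pool.Agent.R978.DG

/-- Indicator of `[-k, k]`. -/
def ind (k : ℕ) : ℤ → ℤ := fun x => if |x| ≤ (k : ℤ) then 1 else 0

lemma ind_mem {k N : ℕ} (h : k ≤ N) : ind k ∈ V N := by
  intro x hx
  unfold ind
  rw [if_neg]
  push Not
  exact lt_of_le_of_lt (by exact_mod_cast h) hx

lemma ind_zero (k : ℕ) : ind k 0 = 1 := by simp [ind]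

/-- The sum of the couplings over the range of an injection. -/
lemma range_sum {α : ℝ} (hα : 2 < α) {s : ℝ} (hs : 1 ≤ s) (e : ℕ × ℕ → ℤ × ℤ)
    (he : Function.Injective e) (hw : ∀ q, w α (e q) = (s + q.1 + q.2) ^ (-α)) :
    Summable (Set.indicator (Set.range e) (w α)) ∧
      ∑' p, Set.indicator (Set.range e) (w α) p ≤ α / (α - 2) * s ^ (2 - α) := by
  obtain ⟨h1, h2⟩ := double_tail hα hs
  have h3 : (fun q : ℕ × ℕ => (s + q.1 + q.2) ^ (-α)) = Set.indicator (Set.range e) (w α) ∘ e := by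
    ext q
    simp only [Function.comp_apply]
    rw [Set.indicator_of_mem (Set.mem_range_self q), hw]
  constructor
  · rw [h3] at h1
    exact (he.summable_iff fun x hx => Set.indicator_of_notMem hx _).mp h1
  · have h4 := he.tsum_eq (f := Set.indicator (Set.range e) (w α)) (by
      exact Set.support_indicator_subset)
    rw [← h4]
    refine le_trans (le_of_eq ?_) h2
    rw [h3]
    rfl

lemma E_ind_le {α : ℝ} (hα : 2 < α) {k l : ℕ} (hkl : k ≤ l) :
    E α (ind k) (ind l) ≤ 4 * (α / (α - 2) * ((l : ℝ) - k + 1) ^ (2 - α)) := by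
  have hkl' : (k : ℝ) ≤ l := by exact_mod_cast hkl
  have hs : 1 ≤ (l : ℝ) - k + 1 := by linarith
  set s : ℝ := (l : ℝ) - k + 1 with hsdef
  have hwval : ∀ (x y : ℤ) (q : ℕ × ℕ), y - x = (l : ℤ) - k + 1 + q.1 + q.2 →
      w α (x, y) = (s + q.1 + q.2) ^ (-α) ∧ w α (y, x) = (s + q.1 + q.2) ^ (-α) := by
    intro x y q h
    have hpos : 0 < y - x := by omega
    have hne : x ≠ y := by omega
    have h1 : ((|x - y| : ℤ) : ℝ) = s + q.1 + q.2 := by
      rw [abs_sub_comm, abs_of_pos hpos, h, hsdef]; push_cast; ring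
    have h2 : ((|y - x| : ℤ) : ℝ) = s + q.1 + q.2 := by rw [abs_sub_comm, h1]
    unfold w
    simp only
    rw [if_neg hne, if_neg hne.symm, h1, h2]
    exact ⟨rfl, rfl⟩
  set e1 : ℕ × ℕ → ℤ × ℤ := fun q => ((k : ℤ) - q.1, (l : ℤ) + 1 + q.2) with he1
  set e2 : ℕ × ℕ → ℤ × ℤ := fun q => (-(k : ℤ) + q.1, -(l : ℤ) - 1 - q.2) with he2
  set e3 : ℕ × ℕ → ℤ × ℤ := fun q => ((l : ℤ) + 1 + q.2, (k : ℤ) - q.1) with he3
  set e4 : ℕ × ℕ → ℤ × ℤ := fun q => (-(l : ℤ) - 1 - q.2, -(k : ℤ) + q.1) with he4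
  have i1 : Function.Injective e1 := by
    intro a b h; simp only [he1, Prod.mk.injEq] at h; ext <;> omega
  have i2 : Function.Injective e2 := by
    intro a b h; simp only [he2, Prod.mk.injEq] at h; ext <;> omega
  have i3 : Function.Injective e3 := by
    intro a b h; simp only [he3, Prod.mk.injEq] at h; ext <;> omega
  have i4 : Function.Injective e4 := by
    intro a b h; simp only [he4, Prod.mk.injEq] at h; ext <;> omega
  obtain ⟨s1, t1⟩ := range_sum hα hs e1 i1 (fun q => (hwval _ _ q (by ring)).1)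
  obtain ⟨s2, t2⟩ := range_sum hα hs e2 i2 (fun q => (hwval _ _ q (by ring)).2)
  obtain ⟨s3, t3⟩ := range_sum hα hs e3 i3 (fun q => (hwval _ _ q (by ring)).2)
  obtain ⟨s4, t4⟩ := range_sum hα hs e4 i4 (fun q => (hwval _ _ q (by ring)).1)
  have hsum := ((s1.add s2).add s3).add s4
  have hnn : ∀ (e : ℕ × ℕ → ℤ × ℤ) (p : ℤ × ℤ), 0 ≤ Set.indicator (Set.range e) (w α) p :=
    fun e p => Set.indicator_nonneg (fun p _ => w_nonneg α p) p
  have hterm : ∀ p : ℤ × ℤ,
      w α p * (((ind k p.1 : ℝ) - (ind k p.2 : ℝ)) * ((ind l p.1 : ℝ) - (ind l p.2 : ℝ))) ≤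
      Set.indicator (Set.range e1) (w α) p + Set.indicator (Set.range e2) (w α) p +
        Set.indicator (Set.range e3) (w α) p + Set.indicator (Set.range e4) (w α) p := by
    rintro ⟨x, y⟩
    have hn1 := hnn e1 (x, y)
    have hn2 := hnn e2 (x, y)
    have hn3 := hnn e3 (x, y)
    have hn4 := hnn e4 (x, y)
    have hlk : (k : ℤ) ≤ l := by exact_mod_cast hkl
    simp only
    by_cases hxk : |x| ≤ (k : ℤ)
    · have hxl : |x| ≤ (l : ℤ) := hxk.trans hlk
      by_cases hyl : |y| ≤ (l : ℤ)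
      · simp only [ind, if_pos hxl, if_pos hyl, sub_self, mul_zero]
        linarith
      · have hyk : ¬ |y| ≤ (k : ℤ) := fun h => hyl (h.trans hlk)
        simp only [ind, if_pos hxk, if_neg hyk, if_pos hxl, if_neg hyl]
        push_cast
        rw [sub_zero, mul_one, mul_one]
        rw [abs_le] at hxk
        push Not at hyl
        rcases lt_abs.mp hyl with h | h
        · have hmem : (x, y) ∈ Set.range e1 := ⟨((k - x).toNat, (y - l - 1).toNat), by
            simp only [he1, Prod.mk.injEq]; omega⟩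
          rw [Set.indicator_of_mem hmem] at hn1 ⊢
          linarith
        · have hmem : (x, y) ∈ Set.range e2 := ⟨((x + k).toNat, (-y - l - 1).toNat), by
            simp only [he2, Prod.mk.injEq]; omega⟩
          rw [Set.indicator_of_mem hmem] at hn2 ⊢
          linarith
    · by_cases hyk : |y| ≤ (k : ℤ)
      · have hyl : |y| ≤ (l : ℤ) := hyk.trans hlk
        by_cases hxl : |x| ≤ (l : ℤ)
        · simp only [ind, if_pos hxl, if_pos hyl, sub_self, mul_zero]
          linarith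
        · simp only [ind, if_neg hxk, if_pos hyk, if_neg hxl, if_pos hyl]
          push_cast
          rw [abs_le] at hyk
          push Not at hxl
          rcases lt_abs.mp hxl with h | h
          · have hmem : (x, y) ∈ Set.range e3 := ⟨((k - y).toNat, (x - l - 1).toNat), by
              simp only [he3, Prod.mk.injEq]; omega⟩
            rw [Set.indicator_of_mem hmem] at hn3 ⊢
            linarith
          · have hmem : (x, y) ∈ Set.range e4 := ⟨((y + k).toNat, (-x - l - 1).toNat), by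
              simp only [he4, Prod.mk.injEq]; omega⟩
            rw [Set.indicator_of_mem hmem] at hn4 ⊢
            linarith
      · simp only [ind, if_neg hxk, if_neg hyk, sub_self, zero_mul, mul_zero]
        linarith
  unfold E
  calc ∑' p : ℤ × ℤ, w α p * (((ind k p.1 : ℝ) - (ind k p.2 : ℝ)) * ((ind l p.1 : ℝ) - (ind l p.2 : ℝ)))
      ≤ ∑' p, (Set.indicator (Set.range e1) (w α) p + Set.indicator (Set.range e2) (w α) p +
        Set.indicator (Set.range e3) (w α) p + Set.indicator (Set.range e4) (w α) p) :=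
        (summable_E (by linarith) (ind_mem hkl) (ind_mem le_rfl)).tsum_le_tsum hterm hsum
    _ = ∑' p, Set.indicator (Set.range e1) (w α) p + ∑' p, Set.indicator (Set.range e2) (w α) p +
        ∑' p, Set.indicator (Set.range e3) (w α) p + ∑' p, Set.indicator (Set.range e4) (w α) p := by
        rw [((s1.add s2).add s3).tsum_add s4, (s1.add s2).tsum_add s3, s1.tsum_add s2]
    _ ≤ 4 * (α / (α - 2) * s ^ (2 - α)) := by linarith

lemma E_comm (α : ℝ) (φ ψ : ℤ → ℤ) : E α φ ψ = E α ψ φ := by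
  unfold E
  refine tsum_congr fun p => ?_
  ring

lemma E_ind_le' {α : ℝ} (hα : 2 < α) (k l : ℕ) :
    E α (ind k) (ind l) ≤ 4 * α / (α - 2) * (((Int.natAbs ((k : ℤ) - l) : ℕ) : ℝ) + 1) ^ (2 - α) := by
  rcases le_total k l with h | h
  · refine (E_ind_le hα h).trans (le_of_eq ?_)
    have : ((Int.natAbs ((k : ℤ) - l) : ℕ) : ℝ) = (l : ℝ) - k := by
      have h1 : Int.natAbs ((k : ℤ) - l) = l - k := by omega
      rw [h1, Nat.cast_sub h]
    rw [this]; ring
  · rw [E_comm]
    refine (E_ind_le hα h).trans (le_of_eq ?_)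
    have : ((Int.natAbs ((k : ℤ) - l) : ℕ) : ℝ) = (k : ℝ) - l := by
      have h1 : Int.natAbs ((k : ℤ) - l) = k - l := by omega
      rw [h1, Nat.cast_sub h]
    rw [this]; ring

lemma sum_abs_le (m : ℕ) (i : ℕ) (hi : i < m) (f : ℕ → ℝ) (hf : ∀ r, 0 ≤ f r) :
    ∑ j ∈ Finset.range m, f (Int.natAbs ((i : ℤ) - j)) ≤ 2 * ∑ r ∈ Finset.range m, f r := by
  classical
  rw [← Finset.sum_filter_add_sum_filter_not (Finset.range m) (fun j => j ≤ i)]
  have h1 : ∑ j ∈ (Finset.range m).filter (fun j => j ≤ i), f (Int.natAbs ((i : ℤ) - j)) ≤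
      ∑ r ∈ Finset.range m, f r := by
    rw [← Finset.sum_image (f := f) (g := fun j : ℕ => Int.natAbs ((i : ℤ) - j))
      (s := (Finset.range m).filter (fun j => j ≤ i))]
    · refine Finset.sum_le_sum_of_subset_of_nonneg ?_ fun r _ _ => hf r
      intro r hr
      simp only [Finset.mem_image, Finset.mem_filter, Finset.mem_range] at hr ⊢
      obtain ⟨j, hj, rfl⟩ := hr
      omega
    · intro a ha b hb hab
      simp only [Finset.coe_filter, Finset.mem_range, Set.mem_ofPred_eq] at ha hb hab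
      omega
  have h2 : ∑ j ∈ (Finset.range m).filter (fun j => ¬ j ≤ i), f (Int.natAbs ((i : ℤ) - j)) ≤
      ∑ r ∈ Finset.range m, f r := by
    rw [← Finset.sum_image (f := f) (g := fun j : ℕ => Int.natAbs ((i : ℤ) - j))
      (s := (Finset.range m).filter (fun j => ¬ j ≤ i))]
    · refine Finset.sum_le_sum_of_subset_of_nonneg ?_ fun r _ _ => hf r
      intro r hr
      simp only [Finset.mem_image, Finset.mem_filter, Finset.mem_range] at hr ⊢
      obtain ⟨j, hj, rfl⟩ := hr
      omega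
    · intro a ha b hb hab
      simp only [Finset.coe_filter, Finset.mem_range, Set.mem_ofPred_eq] at ha hb hab
      omega
  linarith

/-- The variance lower bound of the sharp order. -/
theorem lower {α β : ℝ} (hα : 2 < α) (hα3 : α < 3) (hβ : 0 < β) :
    ∃ c : ℝ, 0 < c ∧ ∀ N : ℕ, c * ((N : ℝ) + 1) ^ (α - 2) *
      (∑' ψ : V N, Real.exp (-(β * H α ψ.1))) ≤
        ∑' ψ : V N, ((ψ.1 0 : ℤ) : ℝ) ^ 2 * Real.exp (-(β * H α ψ.1)) := by
  set M : ℝ := 2 * β * (4 * α / (α - 2)) with hM
  have hα2 : 0 < α - 2 := by linarith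
  have hα30 : 0 < 3 - α := by linarith
  have hM0 : 0 < M := by positivity
  refine ⟨(3 - α) / (2 * M * Real.exp M), by positivity, fun N => ?_⟩
  have hn : (0 : ℝ) < (N : ℝ) + 1 := by positivity
  have h1 := var_bound (α := α) (β := β) (by linarith) hβ N (m := N + 1) (Nat.succ_pos N)
    (fun i : Fin (N + 1) => (⟨ind i.val, ind_mem (Nat.le_of_lt_succ i.isLt)⟩ : V N))
    (fun i => ind_zero i.val)
  set A := ∑' ψ : V N, ((ψ.1 0 : ℤ) : ℝ) ^ 2 * Real.exp (-(β * H α ψ.1)) with hA
  have hA0 : 0 ≤ A := tsum_nonneg fun ψ => by positivity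
  have h2 : ∀ i j : Fin (N + 1), Real.exp (2 * (β * E α (ind i.val) (ind j.val))) - 1 ≤
      M * Real.exp M * (((Int.natAbs ((i.val : ℤ) - j.val) : ℕ) : ℝ) + 1) ^ (2 - α) := by
    intro i j
    set B : ℝ := (((Int.natAbs ((i.val : ℤ) - j.val) : ℕ) : ℝ) + 1) ^ (2 - α) with hB
    have hB0 : 0 ≤ B := Real.rpow_nonneg (by positivity) _
    have hB1 : B ≤ 1 := Real.rpow_le_one_of_one_le_of_nonpos (by
      have : (0 : ℝ) ≤ ((Int.natAbs ((i.val : ℤ) - j.val) : ℕ) : ℝ) := Nat.cast_nonneg _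
      linarith) (by linarith)
    have h3 := E_ind_le' hα i.val j.val
    have h4 : 2 * (β * E α (ind i.val) (ind j.val)) ≤ M * B := by
      have := mul_le_mul_of_nonneg_left h3 (by positivity : 0 ≤ 2 * β)
      rw [hM]
      calc 2 * (β * E α (ind i.val) (ind j.val)) = 2 * β * E α (ind i.val) (ind j.val) := by ring
        _ ≤ _ := this
        _ = _ := by ring
    have h5 : Real.exp (M * B) - 1 ≤ M * B * Real.exp (M * B) := by
      have h6 := Real.add_one_le_exp (-(M * B))
      have h7 : Real.exp (-(M * B)) * Real.exp (M * B) = 1 := by rw [← Real.exp_add]; simp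
      nlinarith [Real.exp_pos (M * B)]
    have h8 : Real.exp (M * B) ≤ Real.exp M := Real.exp_le_exp.mpr (by nlinarith)
    have h9 : Real.exp (2 * (β * E α (ind i.val) (ind j.val))) ≤ Real.exp (M * B) :=
      Real.exp_le_exp.mpr h4
    have h10 : M * B * Real.exp (M * B) ≤ M * B * Real.exp M :=
      mul_le_mul_of_nonneg_left h8 (by positivity)
    calc _ ≤ Real.exp (M * B) - 1 := by linarith
      _ ≤ M * B * Real.exp M := by linarith
      _ = _ := by ring
  have h3 : ∑ i : Fin (N + 1), ∑ j : Fin (N + 1),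
      (Real.exp (2 * (β * E α (ind i.val) (ind j.val))) - 1) ≤
      ((N : ℝ) + 1) * (M * Real.exp M * (2 * (((N : ℝ) + 1) ^ (3 - α) / (3 - α)))) := by
    have h4 : ∀ i : Fin (N + 1), ∑ j : Fin (N + 1),
        (Real.exp (2 * (β * E α (ind i.val) (ind j.val))) - 1) ≤
        M * Real.exp M * (2 * (((N : ℝ) + 1) ^ (3 - α) / (3 - α))) := by
      intro i
      calc ∑ j : Fin (N + 1), (Real.exp (2 * (β * E α (ind i.val) (ind j.val))) - 1)
          ≤ ∑ j : Fin (N + 1), M * Real.exp M *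
            (((Int.natAbs ((i.val : ℤ) - j.val) : ℕ) : ℝ) + 1) ^ (2 - α) :=
            Finset.sum_le_sum fun j _ => h2 i j
        _ = M * Real.exp M * ∑ j ∈ Finset.range (N + 1),
            (((Int.natAbs ((i.val : ℤ) - j) : ℕ) : ℝ) + 1) ^ (2 - α) := by
            rw [← Finset.mul_sum, Finset.sum_range]
        _ ≤ M * Real.exp M * (2 * ∑ r ∈ Finset.range (N + 1), ((r : ℝ) + 1) ^ (2 - α)) := by
            refine mul_le_mul_of_nonneg_left ?_ (by positivity)
            exact sum_abs_le (N + 1) i.val i.isLt (fun r => ((r : ℝ) + 1) ^ (2 - α))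
              (fun r => Real.rpow_nonneg (by positivity) _)
        _ ≤ M * Real.exp M * (2 * (((N : ℝ) + 1) ^ (3 - α) / (3 - α))) := by
            have h5 := sum_pow_le (b := 3 - α) hα30 (by linarith) (N + 1)
            rw [show 3 - α - 1 = 2 - α by ring] at h5
            push_cast at h5
            have : (0 : ℝ) ≤ M * Real.exp M := by positivity
            refine mul_le_mul_of_nonneg_left ?_ this
            linarith
    calc _ ≤ ∑ i : Fin (N + 1), M * Real.exp M * (2 * (((N : ℝ) + 1) ^ (3 - α) / (3 - α))) :=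
          Finset.sum_le_sum fun i _ => h4 i
      _ = _ := by
          rw [Finset.sum_const, Finset.card_univ, Fintype.card_fin, nsmul_eq_mul]
          push_cast; ring
  have h4 : (∑' ψ : V N, Real.exp (-(β * H α ψ.1))) ≤
      A * ((2 * M * Real.exp M) / (3 - α) * ((N : ℝ) + 1) ^ (2 - α)) := by
    refine h1.trans (mul_le_mul_of_nonneg_left ?_ hA0)
    push_cast
    have h5 : (1 / ((N : ℝ) + 1) ^ 2) * ∑ i : Fin (N + 1), ∑ j : Fin (N + 1),
      (Real.exp (2 * (β * E α (ind i.val) (ind j.val))) - 1) ≤ (1 / ((N : ℝ) + 1) ^ 2) *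
      (((N : ℝ) + 1) * (M * Real.exp M * (2 * (((N : ℝ) + 1) ^ (3 - α) / (3 - α))))) :=
      mul_le_mul_of_nonneg_left h3 (by positivity)
    refine h5.trans (le_of_eq ?_)
    have h6 : ((N : ℝ) + 1) ^ (3 - α) = ((N : ℝ) + 1) ^ (2 - α) * ((N : ℝ) + 1) := by
      rw [← Real.rpow_add_one hn.ne']; congr 1; ring
    rw [h6]
    field_simp
  have h5 : ((N : ℝ) + 1) ^ (α - 2) * ((N : ℝ) + 1) ^ (2 - α) = 1 := by
    rw [← Real.rpow_add hn, show α - 2 + (2 - α) = 0 by ring, Real.rpow_zero]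
  have h6 : 0 ≤ (3 - α) / (2 * M * Real.exp M) * ((N : ℝ) + 1) ^ (α - 2) := by positivity
  calc (3 - α) / (2 * M * Real.exp M) * ((N : ℝ) + 1) ^ (α - 2) *
      (∑' ψ : V N, Real.exp (-(β * H α ψ.1)))
      ≤ (3 - α) / (2 * M * Real.exp M) * ((N : ℝ) + 1) ^ (α - 2) *
        (A * ((2 * M * Real.exp M) / (3 - α) * ((N : ℝ) + 1) ^ (2 - α))) :=
        mul_le_mul_of_nonneg_left h4 h6
    _ = A * (((N : ℝ) + 1) ^ (α - 2) * ((N : ℝ) + 1) ^ (2 - α)) *
        ((3 - α) / (2 * M * Real.exp M) * ((2 * M * Real.exp M) / (3 - α))) := by ring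
    _ = A := by
        rw [h5]
        field_simp

end Pool.Agent.R978.DG
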