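import Mathlib

/-!
# The long-range quadratic form on integer configurations in a box
-/

set_option autoImplicit false

namespace Pool.Agent.R978.DG

/-- The long-range coupling between two integers. -/
noncomputable def w (α : ℝ) (p : ℤ × ℤ) : ℝ :=
  if p.1 = p.2 then 0 else ((|p.1 - p.2| : ℤ) : ℝ) ^ (-α)

lemma w_nonneg (α : ℝ) (p : ℤ × ℤ) : 0 ≤ w α p := by
  unfold w
  split_ifs
  · exact le_rfl
  · exact Real.rpow_nonneg (by exact_mod_cast abs_nonneg _) _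

/-- Configurations vanishing outside `[-N, N]`. -/
def V (N : ℕ) : AddSubgroup (ℤ → ℤ) where
  carrier := {φ | ∀ x : ℤ, (N : ℤ) < |x| → φ x = 0}
  add_mem' := by
    intro a b ha hb x hx
    simp [ha x hx, hb x hx]
  zero_mem' := by intro x _; rfl
  neg_mem' := by
    intro a ha x hx
    simp [ha x hx]

lemma mem_V {N : ℕ} {φ : ℤ → ℤ} : φ ∈ V N ↔ ∀ x : ℤ, (N : ℤ) < |x| → φ x = 0 := Iff.rfl

/-- The energy (sum over ordered pairs). -/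
noncomputable def H (α : ℝ) (φ : ℤ → ℤ) : ℝ :=
  ∑' p : ℤ × ℤ, w α p * ((φ p.1 : ℝ) - (φ p.2 : ℝ)) ^ 2

/-- The bilinear form of the energy. -/
noncomputable def E (α : ℝ) (φ ψ : ℤ → ℤ) : ℝ :=
  ∑' p : ℤ × ℤ, w α p * (((φ p.1 : ℝ) - (φ p.2 : ℝ)) * ((ψ p.1 : ℝ) - (ψ p.2 : ℝ)))

lemma summable_w_mul {α : ℝ} (hα : 1 < α) (f : ℤ → ℝ) (hf : Summable f) (hf0 : ∀ x, 0 ≤ f x) :
    Summable fun p : ℤ × ℤ => w α p * f p.1 := by
  have h1 : Summable fun n : ℤ => |(n : ℝ)| ^ (-α) := Real.summable_abs_int_rpow hα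
  have h2 : Summable fun p : ℤ × ℤ => f p.1 * |(p.2 : ℝ)| ^ (-α) :=
    hf.mul_of_nonneg h1 hf0 (fun n => Real.rpow_nonneg (abs_nonneg _) _)
  let e : ℤ × ℤ ≃ ℤ × ℤ :=
    { toFun := fun p => (p.1, p.1 - p.2)
      invFun := fun p => (p.1, p.1 - p.2)
      left_inv := fun p => by ext <;> simp
      right_inv := fun p => by ext <;> simp }
  have h3 : Summable fun p : ℤ × ℤ => f p.1 * |((p.1 - p.2 : ℤ) : ℝ)| ^ (-α) :=
    e.summable_iff.mpr h2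
  refine Summable.of_nonneg_of_le (fun p => mul_nonneg (w_nonneg α p) (hf0 _)) (fun p => ?_) h3
  unfold w
  split_ifs
  · rw [zero_mul]
    exact mul_nonneg (hf0 _) (Real.rpow_nonneg (abs_nonneg _) _)
  · rw [mul_comm]
    push_cast
    exact le_rfl

lemma w_swap (α : ℝ) (p : ℤ × ℤ) : w α p.swap = w α p := by
  unfold w
  simp only [Prod.fst_swap, Prod.snd_swap]
  by_cases h : p.1 = p.2
  · rw [if_pos h, if_pos h.symm]
  · rw [if_neg h, if_neg (Ne.symm h), abs_sub_comm]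

lemma summable_sq {N : ℕ} {φ : ℤ → ℤ} (hφ : φ ∈ V N) : Summable fun x : ℤ => (φ x : ℝ) ^ 2 := by
  refine summable_of_ne_finset_zero (s := Finset.Icc (-(N : ℤ)) N) fun x hx => ?_
  have : (N : ℤ) < |x| := by
    rw [Finset.mem_Icc] at hx
    by_contra hcon
    push Not at hcon
    rw [abs_le] at hcon
    exact hx hcon
  rw [hφ x this]; simp

lemma summable_H {α : ℝ} (hα : 1 < α) {N : ℕ} {φ : ℤ → ℤ} (hφ : φ ∈ V N) :
    Summable fun p : ℤ × ℤ => w α p * ((φ p.1 : ℝ) - (φ p.2 : ℝ)) ^ 2 := by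
  have h1 := summable_w_mul hα (fun x => (φ x : ℝ) ^ 2) (summable_sq hφ) (fun x => sq_nonneg _)
  have h2 : Summable fun p : ℤ × ℤ => w α p * (φ p.2 : ℝ) ^ 2 := by
    have := (Equiv.prodComm ℤ ℤ).summable_iff.mpr h1
    refine this.congr fun p => ?_
    simp only [Function.comp_apply, Equiv.prodComm_apply, Prod.fst_swap]
    rw [w_swap]
  refine Summable.of_nonneg_of_le (fun p => mul_nonneg (w_nonneg α p) (sq_nonneg _)) (fun p => ?_)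
    ((h1.add h2).mul_left 2)
  have h3 : ((φ p.1 : ℝ) - (φ p.2 : ℝ)) ^ 2 ≤ 2 * ((φ p.1 : ℝ) ^ 2 + (φ p.2 : ℝ) ^ 2) := by
    nlinarith [sq_nonneg ((φ p.1 : ℝ) + (φ p.2 : ℝ))]
  have := mul_le_mul_of_nonneg_left h3 (w_nonneg α p)
  linarith

lemma summable_E {α : ℝ} (hα : 1 < α) {N : ℕ} {φ ψ : ℤ → ℤ} (hφ : φ ∈ V N) (hψ : ψ ∈ V N) :
    Summable fun p : ℤ × ℤ =>
      w α p * (((φ p.1 : ℝ) - (φ p.2 : ℝ)) * ((ψ p.1 : ℝ) - (ψ p.2 : ℝ))) := by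
  refine Summable.of_norm_bounded ((summable_H hα hφ).add (summable_H hα hψ)) fun p => ?_
  rw [Real.norm_eq_abs, abs_mul, abs_of_nonneg (w_nonneg α p), ← mul_add]
  refine mul_le_mul_of_nonneg_left ?_ (w_nonneg α p)
  rw [abs_le]
  constructor
  · nlinarith [sq_nonneg (((φ p.1 : ℝ) - (φ p.2 : ℝ)) + ((ψ p.1 : ℝ) - (ψ p.2 : ℝ))),
      sq_nonneg ((φ p.1 : ℝ) - (φ p.2 : ℝ)), sq_nonneg ((ψ p.1 : ℝ) - (ψ p.2 : ℝ))]
  · nlinarith [sq_nonneg (((φ p.1 : ℝ) - (φ p.2 : ℝ)) - ((ψ p.1 : ℝ) - (ψ p.2 : ℝ))),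
      sq_nonneg ((φ p.1 : ℝ) - (φ p.2 : ℝ)), sq_nonneg ((ψ p.1 : ℝ) - (ψ p.2 : ℝ))]

lemma H_sub {α : ℝ} (hα : 1 < α) {N : ℕ} {φ ψ : ℤ → ℤ} (hφ : φ ∈ V N) (hψ : ψ ∈ V N) :
    H α (φ - ψ) = H α φ + H α ψ - 2 * E α φ ψ := by
  unfold H E
  rw [← tsum_mul_left, ← (summable_H hα hφ).tsum_add (summable_H hα hψ),
    ← ((summable_H hα hφ).add (summable_H hα hψ)).tsum_sub ((summable_E hα hφ hψ).mul_left 2)]
  refine tsum_congr fun p => ?_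
  simp only [Pi.sub_apply, Int.cast_sub]
  ring

lemma E_sub {α : ℝ} (hα : 1 < α) {N : ℕ} {φ ψ χ : ℤ → ℤ} (hφ : φ ∈ V N) (hψ : ψ ∈ V N)
    (hχ : χ ∈ V N) : E α (φ - ψ) χ = E α φ χ - E α ψ χ := by
  unfold E
  rw [← (summable_E hα hφ hχ).tsum_sub (summable_E hα hψ hχ)]
  refine tsum_congr fun p => ?_
  simp only [Pi.sub_apply, Int.cast_sub]
  ring

/-- Coercivity of the energy in a box. -/
lemma H_ge {α : ℝ} (hα : 1 < α) {N : ℕ} {φ : ℤ → ℤ} (hφ : φ ∈ V N) :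
    (2 * (N : ℝ) + 1) ^ (-α) * ∑ x ∈ Finset.Icc (-(N : ℤ)) N, (φ x : ℝ) ^ 2 ≤ H α φ := by
  have hinj : Function.Injective fun x : ℤ => ((x, (N : ℤ) + 1) : ℤ × ℤ) := fun a b h => by
    simpa using h
  unfold H
  have h1 : ∑ x ∈ Finset.Icc (-(N : ℤ)) N, w α (x, (N : ℤ) + 1) *
      ((φ x : ℝ) - (φ ((N : ℤ) + 1) : ℝ)) ^ 2 ≤
      ∑' p : ℤ × ℤ, w α p * ((φ p.1 : ℝ) - (φ p.2 : ℝ)) ^ 2 := by
    have := (summable_H hα hφ).sum_le_tsum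
      ((Finset.Icc (-(N : ℤ)) N).map ⟨_, hinj⟩) fun p _ => mul_nonneg (w_nonneg α p) (sq_nonneg _)
    rw [Finset.sum_map] at this
    exact this
  refine le_trans ?_ h1
  rw [Finset.mul_sum]
  refine Finset.sum_le_sum fun x hx => ?_
  have h0 : φ ((N : ℤ) + 1) = 0 := hφ _ (by rw [abs_of_nonneg (by positivity)]; omega)
  rw [h0, Int.cast_zero, sub_zero]
  refine mul_le_mul_of_nonneg_right ?_ (sq_nonneg _)
  rw [Finset.mem_Icc] at hx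
  unfold w
  rw [if_neg (by simp only; omega)]
  have h2 : (0 : ℝ) < ((|x - ((N : ℤ) + 1)| : ℤ) : ℝ) := by
    have : (0 : ℤ) < |x - ((N : ℤ) + 1)| := abs_pos.mpr (by omega)
    exact_mod_cast this
  have h3 : ((|x - ((N : ℤ) + 1)| : ℤ) : ℝ) ≤ 2 * (N : ℝ) + 1 := by
    have : |x - ((N : ℤ) + 1)| ≤ 2 * (N : ℤ) + 1 := by rw [abs_le]; omega
    exact_mod_cast this
  exact Real.rpow_le_rpow_of_nonpos h2 h3 (by linarith)

end Pool.Agent.R978.DG
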