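import Pool.Agent.R978.DGEnergy

/-!
# The lower bound of order `n^(α-2)/β` at every temperature
-/

set_option autoImplicit false

open Filter

namespace Pool.Agent.R978.DG

/-- For large boxes the constant in the lower bound is inversely proportional to `β`. -/
theorem lower_sharp {α β : ℝ} (hα : 2 < α) (hα3 : α < 3) (hβ : 0 < β) :
    ∀ᶠ N : ℕ in atTop, (3 - α) * (α - 2) / (64 * α * β) * ((N : ℝ) + 1) ^ (α - 2) *
      (∑' ψ : V N, Real.exp (-(β * H α ψ.1))) ≤
        ∑' ψ : V N, ((ψ.1 0 : ℤ) : ℝ) ^ 2 * Real.exp (-(β * H α ψ.1)) := by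
  set M : ℝ := 2 * β * (4 * α / (α - 2)) with hM
  have hα2 : 0 < α - 2 := by linarith
  have hα30 : 0 < 3 - α := by linarith
  have hM0 : 0 < M := by positivity
  -- far pairs
  obtain ⟨R, hR⟩ : ∃ R : ℕ, ∀ r : ℕ, R ≤ r → M * ((r : ℝ) + 1) ^ (2 - α) ≤ 1 / 2 := by
    have h1 : Tendsto (fun r : ℕ => M * ((r : ℝ) + 1) ^ (-(α - 2))) atTop (nhds (M * 0)) := by
      refine Tendsto.const_mul M ?_
      refine (tendsto_rpow_neg_atTop hα2).comp ?_
      exact tendsto_atTop_add_const_right _ _ tendsto_natCast_atTop_atTop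
    rw [mul_zero] at h1
    have h2 := h1.eventually (gt_mem_nhds (by norm_num : (0 : ℝ) < 1 / 2))
    obtain ⟨R, hR⟩ := eventually_atTop.mp h2
    refine ⟨R, fun r hr => ?_⟩
    have := (hR r hr).le
    rwa [show -(α - 2) = 2 - α by ring] at this
  -- large boxes
  have hlarge : ∀ᶠ N : ℕ in atTop, (2 * R * Real.exp M) / ((N : ℝ) + 1) ≤
      4 * M / (3 - α) * ((N : ℝ) + 1) ^ (2 - α) := by
    have h1 : Tendsto (fun N : ℕ => (2 * R * Real.exp M) * ((N : ℝ) + 1) ^ (-(3 - α))) atTop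
        (nhds ((2 * R * Real.exp M) * 0)) := by
      refine Tendsto.const_mul _ ?_
      refine (tendsto_rpow_neg_atTop hα30).comp ?_
      exact tendsto_atTop_add_const_right _ _ tendsto_natCast_atTop_atTop
    rw [mul_zero] at h1
    have h2 := h1.eventually (gt_mem_nhds (by positivity : (0 : ℝ) < 4 * M / (3 - α)))
    filter_upwards [h2] with N hN
    have hn : (0 : ℝ) < (N : ℝ) + 1 := by positivity
    have h3 : ((N : ℝ) + 1) ^ (-(3 - α)) * ((N : ℝ) + 1) ^ (2 - α) = ((N : ℝ) + 1)⁻¹ := by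
      rw [← Real.rpow_add hn, show -(3 - α) + (2 - α) = -1 by ring, Real.rpow_neg_one]
    have h4 : (0 : ℝ) ≤ ((N : ℝ) + 1) ^ (2 - α) := Real.rpow_nonneg hn.le _
    calc (2 * R * Real.exp M) / ((N : ℝ) + 1)
        = (2 * R * Real.exp M) * (((N : ℝ) + 1) ^ (-(3 - α)) * ((N : ℝ) + 1) ^ (2 - α)) := by
          rw [h3]; rfl
      _ = (2 * R * Real.exp M) * ((N : ℝ) + 1) ^ (-(3 - α)) * ((N : ℝ) + 1) ^ (2 - α) := by ring
      _ ≤ 4 * M / (3 - α) * ((N : ℝ) + 1) ^ (2 - α) := mul_le_mul_of_nonneg_right hN.le h4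
  filter_upwards [hlarge] with N hN
  have hn : (0 : ℝ) < (N : ℝ) + 1 := by positivity
  have h1 := var_bound (α := α) (β := β) (by linarith) hβ N (m := N + 1) (Nat.succ_pos N)
    (fun i : Fin (N + 1) => (⟨ind i.val, ind_mem (Nat.le_of_lt_succ i.isLt)⟩ : V N))
    (fun i => ind_zero i.val)
  set A := ∑' ψ : V N, ((ψ.1 0 : ℤ) : ℝ) ^ 2 * Real.exp (-(β * H α ψ.1)) with hA
  have hA0 : 0 ≤ A := tsum_nonneg fun ψ => by positivity
  set f : ℕ → ℝ := fun r => 2 * (M * ((r : ℝ) + 1) ^ (2 - α)) + Real.exp M * (if r < R then 1 else 0)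
    with hf
  have hf0 : ∀ r, 0 ≤ f r := by
    intro r
    have h3 : 0 ≤ ((r : ℝ) + 1) ^ (2 - α) := Real.rpow_nonneg (by positivity) _
    have h4 : (0 : ℝ) ≤ if r < R then 1 else 0 := by split_ifs <;> norm_num
    simp only [hf]
    positivity
  have h2 : ∀ i j : Fin (N + 1), Real.exp (2 * (β * E α (ind i.val) (ind j.val))) - 1 ≤
      f (Int.natAbs ((i.val : ℤ) - j.val)) := by
    intro i j
    set r := Int.natAbs ((i.val : ℤ) - j.val) with hr
    set B : ℝ := ((r : ℝ) + 1) ^ (2 - α) with hB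
    have hB0 : 0 ≤ B := Real.rpow_nonneg (by positivity) _
    have hB1 : B ≤ 1 := Real.rpow_le_one_of_one_le_of_nonpos (by
      have : (0 : ℝ) ≤ (r : ℝ) := Nat.cast_nonneg _
      linarith) (by linarith)
    have h3 := E_ind_le' hα i.val j.val
    have h4 : 2 * (β * E α (ind i.val) (ind j.val)) ≤ M * B := by
      have := mul_le_mul_of_nonneg_left h3 (by positivity : 0 ≤ 2 * β)
      rw [hM]
      calc 2 * (β * E α (ind i.val) (ind j.val)) = 2 * β * E α (ind i.val) (ind j.val) := by ring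
        _ ≤ _ := this
        _ = _ := by ring
    have h9 : Real.exp (2 * (β * E α (ind i.val) (ind j.val))) ≤ Real.exp (M * B) :=
      Real.exp_le_exp.mpr h4
    by_cases hrR : r < R
    · have h8 : Real.exp (M * B) ≤ Real.exp M := Real.exp_le_exp.mpr (by nlinarith)
      have h10 : 0 ≤ M * B := by positivity
      have h11 : f r = 2 * (M * B) + Real.exp M := by simp only [hf, if_pos hrR, mul_one, hB]
      rw [h11]
      linarith
    · push Not at hrR
      have h5 : M * B ≤ 1 / 2 := hR r hrR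
      have h10 : 0 ≤ M * B := by positivity
      have h11 : f r = 2 * (M * B) := by
        simp only [hf, if_neg (not_lt.mpr hrR), mul_zero, add_zero, hB]
      rw [h11]
      have h6 : Real.exp (M * B) - 1 ≤ 2 * (M * B) := by
        have h6 := Real.add_one_le_exp (-(M * B))
        have h7 : Real.exp (-(M * B)) * Real.exp (M * B) = 1 := by rw [← Real.exp_add]; simp
        nlinarith [Real.exp_pos (M * B)]
      linarith
  have hfsum : ∑ r ∈ Finset.range (N + 1), f r ≤
      2 * M * (((N : ℝ) + 1) ^ (3 - α) / (3 - α)) + Real.exp M * R := by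
    simp only [hf]
    rw [Finset.sum_add_distrib, ← Finset.mul_sum, ← Finset.mul_sum, ← Finset.mul_sum]
    have h5 := sum_pow_le (b := 3 - α) hα30 (by linarith) (N + 1)
    rw [show 3 - α - 1 = 2 - α by ring] at h5
    push_cast at h5
    have h6 : ∑ r ∈ Finset.range (N + 1), (if r < R then (1 : ℝ) else 0) ≤ R := by
      rw [← Finset.sum_filter, Finset.sum_const, nsmul_eq_mul, mul_one]
      have : ((Finset.range (N + 1)).filter fun r => r < R).card ≤ R := by
        calc _ ≤ (Finset.range R).card := Finset.card_le_card (by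
              intro r hr
              simp only [Finset.mem_filter, Finset.mem_range] at hr ⊢
              exact hr.2)
          _ = R := Finset.card_range R
      exact_mod_cast this
    have h7 := mul_le_mul_of_nonneg_left h5 hM0.le
    have h8 := mul_le_mul_of_nonneg_left h6 (Real.exp_pos M).le
    linarith
  have h3 : ∑ i : Fin (N + 1), ∑ j : Fin (N + 1),
      (Real.exp (2 * (β * E α (ind i.val) (ind j.val))) - 1) ≤
      ((N : ℝ) + 1) * (2 * (2 * M * (((N : ℝ) + 1) ^ (3 - α) / (3 - α)) + Real.exp M * R)) := by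
    have h4 : ∀ i : Fin (N + 1), ∑ j : Fin (N + 1),
        (Real.exp (2 * (β * E α (ind i.val) (ind j.val))) - 1) ≤
        2 * (2 * M * (((N : ℝ) + 1) ^ (3 - α) / (3 - α)) + Real.exp M * R) := by
      intro i
      calc ∑ j : Fin (N + 1), (Real.exp (2 * (β * E α (ind i.val) (ind j.val))) - 1)
          ≤ ∑ j : Fin (N + 1), f (Int.natAbs ((i.val : ℤ) - j.val)) :=
            Finset.sum_le_sum fun j _ => h2 i j
        _ = ∑ j ∈ Finset.range (N + 1), f (Int.natAbs ((i.val : ℤ) - j)) := by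
            rw [Finset.sum_range]
        _ ≤ 2 * ∑ r ∈ Finset.range (N + 1), f r := sum_abs_le (N + 1) i.val i.isLt f hf0
        _ ≤ _ := by linarith
    calc _ ≤ ∑ i : Fin (N + 1), 2 * (2 * M * (((N : ℝ) + 1) ^ (3 - α) / (3 - α)) + Real.exp M * R) :=
          Finset.sum_le_sum fun i _ => h4 i
      _ = _ := by
          rw [Finset.sum_const, Finset.card_univ, Fintype.card_fin, nsmul_eq_mul]
          push_cast; ring
  have h4 : (∑' ψ : V N, Real.exp (-(β * H α ψ.1))) ≤
      A * (8 * M / (3 - α) * ((N : ℝ) + 1) ^ (2 - α)) := by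
    refine h1.trans (mul_le_mul_of_nonneg_left ?_ hA0)
    push_cast
    have h5 := mul_le_mul_of_nonneg_left h3 (by positivity : 0 ≤ 1 / ((N : ℝ) + 1) ^ 2)
    refine h5.trans ?_
    have h6 : ((N : ℝ) + 1) ^ (3 - α) = ((N : ℝ) + 1) ^ (2 - α) * ((N : ℝ) + 1) := by
      rw [← Real.rpow_add_one hn.ne']; congr 1; ring
    rw [h6]
    have h7 : 1 / ((N : ℝ) + 1) ^ 2 * (((N : ℝ) + 1) * (2 * (2 * M *
        (((N : ℝ) + 1) ^ (2 - α) * ((N : ℝ) + 1) / (3 - α)) + Real.exp M * R))) =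
        4 * M / (3 - α) * ((N : ℝ) + 1) ^ (2 - α) + (2 * R * Real.exp M) / ((N : ℝ) + 1) := by
      field_simp
      ring
    rw [h7]
    have h8 : 8 * M / (3 - α) * ((N : ℝ) + 1) ^ (2 - α) =
        4 * M / (3 - α) * ((N : ℝ) + 1) ^ (2 - α) + 4 * M / (3 - α) * ((N : ℝ) + 1) ^ (2 - α) := by
      ring
    rw [h8]
    linarith
  have h5 : ((N : ℝ) + 1) ^ (α - 2) * ((N : ℝ) + 1) ^ (2 - α) = 1 := by
    rw [← Real.rpow_add hn, show α - 2 + (2 - α) = 0 by ring, Real.rpow_zero]
  have h6 : 0 ≤ (3 - α) * (α - 2) / (64 * α * β) * ((N : ℝ) + 1) ^ (α - 2) := by positivity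
  have h7 : (3 - α) * (α - 2) / (64 * α * β) * (8 * M / (3 - α)) = 1 := by
    rw [hM]; field_simp; norm_num
  calc (3 - α) * (α - 2) / (64 * α * β) * ((N : ℝ) + 1) ^ (α - 2) *
      (∑' ψ : V N, Real.exp (-(β * H α ψ.1)))
      ≤ (3 - α) * (α - 2) / (64 * α * β) * ((N : ℝ) + 1) ^ (α - 2) *
        (A * (8 * M / (3 - α) * ((N : ℝ) + 1) ^ (2 - α))) :=
        mul_le_mul_of_nonneg_left h4 h6
    _ = A * (((N : ℝ) + 1) ^ (α - 2) * ((N : ℝ) + 1) ^ (2 - α)) *
        ((3 - α) * (α - 2) / (64 * α * β) * (8 * M / (3 - α))) := by ring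
    _ = A := by rw [h5, h7, mul_one, mul_one]

end Pool.Agent.R978.DG
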