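import Mathlib

/-!
# The variance bound by averaging integer shifts
-/

set_option autoImplicit false

namespace Pool.Agent.R978.DG

/-- Hammersley-Chapman-Robbins bound for a mixture of shifts of a discrete Gaussian weight. -/
theorem shift_bound {G : Type} [AddCommGroup G] (H : G → ℝ) (E : G → G → ℝ)
    (hH : ∀ g a, H (g - a) = H g + H a - 2 * E g a)
    (hE : ∀ g b a, E (g - b) a = E g a - E b a)
    (f : G → ℝ) (hf : ∀ g a, f (g + a) = f g + f a)
    (hs : Summable fun g => Real.exp (-H g))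
    (hs2 : Summable fun g => f g ^ 2 * Real.exp (-H g))
    {m : ℕ} (hm : 0 < m) (φ : Fin m → G) (hφ : ∀ i, f (φ i) = 1) :
    (∑' g, Real.exp (-H g)) ≤ (∑' g, f g ^ 2 * Real.exp (-H g)) *
      ((1 / (m : ℝ) ^ 2) * ∑ i, ∑ j, (Real.exp (2 * E (φ i) (φ j)) - 1)) := by
  set ρ : G → ℝ := fun g => Real.exp (-H g) with hρ
  have hρ0 : ∀ g, 0 < ρ g := fun g => Real.exp_pos _
  set Z := ∑' g, ρ g with hZ
  have hZ0 : 0 < Z := hs.tsum_pos (fun g => (hρ0 g).le) 0 (hρ0 0)
  have hm' : (0 : ℝ) < m := by exact_mod_cast hm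
  -- shifts
  have hshift : ∀ a, Summable fun g => ρ (g - a) := fun a =>
    (Equiv.subRight a).summable_iff.mpr hs
  have hshift' : ∀ a, ∑' g, ρ (g - a) = Z := fun a => (Equiv.subRight a).tsum_eq ρ
  -- the density
  set D : G → ℝ := fun g => (1 / (m : ℝ)) * ∑ i, Real.exp (2 * E g (φ i) - H (φ i)) with hD
  have hρD : ∀ g, ρ g * D g = (1 / (m : ℝ)) * ∑ i, ρ (g - φ i) := by
    intro g
    simp only [hD, hρ]
    rw [mul_left_comm, Finset.mul_sum]
    congr 1
    refine Finset.sum_congr rfl fun i _ => ?_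
    rw [← Real.exp_add, hH]
    congr 1; ring
  have hρD2 : ∀ g, ρ g * D g ^ 2 = (1 / (m : ℝ) ^ 2) *
      ∑ i, ∑ j, Real.exp (2 * E (φ i) (φ j)) * ρ (g - φ i - φ j) := by
    intro g
    have h1 : ρ g * D g ^ 2 = (1 / (m : ℝ)) * ((∑ i, ρ (g - φ i)) * D g) := by
      rw [sq, ← mul_assoc, hρD]; ring
    rw [h1]
    simp only [hD]
    rw [mul_left_comm (∑ i, ρ (g - φ i)), Finset.sum_mul, ← mul_assoc]
    congr 1
    · field_simp
    · refine Finset.sum_congr rfl fun i _ => ?_
      rw [Finset.mul_sum]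
      refine Finset.sum_congr rfl fun j _ => ?_
      simp only [hρ]
      rw [← Real.exp_add, ← Real.exp_add, hH (g - φ i) (φ j), hE]
      congr 1; ring
  have sD : Summable fun g => ρ g * D g := by
    simp_rw [hρD]
    exact (summable_sum fun i _ => hshift (φ i)).mul_left _
  have tD : ∑' g, ρ g * D g = Z := by
    simp_rw [hρD]
    rw [tsum_mul_left, Summable.tsum_finsetSum fun i _ => hshift (φ i)]
    simp_rw [hshift']
    rw [Finset.sum_const, Finset.card_univ, Fintype.card_fin, nsmul_eq_mul]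
    field_simp
  have hshift2 : ∀ a b, Summable fun g => ρ (g - a - b) := fun a b => by
    have := hshift (a + b)
    simpa only [sub_sub] using this
  have hshift2' : ∀ a b, ∑' g, ρ (g - a - b) = Z := fun a b => by
    simp only [sub_sub]
    exact hshift' _
  have sD2 : Summable fun g => ρ g * D g ^ 2 := by
    simp_rw [hρD2]
    exact (summable_sum fun i _ => summable_sum fun j _ => (hshift2 (φ i) (φ j)).mul_left _).mul_left _
  have tD2 : ∑' g, ρ g * D g ^ 2 = Z * ((1 / (m : ℝ) ^ 2) * ∑ i, ∑ j, Real.exp (2 * E (φ i) (φ j))) := by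
    simp_rw [hρD2]
    rw [tsum_mul_left, Summable.tsum_finsetSum fun i _ =>
      summable_sum fun j _ => (hshift2 (φ i) (φ j)).mul_left _]
    have : ∀ i, ∑' g, ∑ j, Real.exp (2 * E (φ i) (φ j)) * ρ (g - φ i - φ j) =
        ∑ j, Real.exp (2 * E (φ i) (φ j)) * Z := by
      intro i
      rw [Summable.tsum_finsetSum fun j _ => (hshift2 (φ i) (φ j)).mul_left _]
      refine Finset.sum_congr rfl fun j _ => ?_
      rw [tsum_mul_left, hshift2']
    simp_rw [this, ← Finset.sum_mul]
    ring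
  -- first moment
  have sf : Summable fun g => f g * ρ g := by
    refine Summable.of_norm_bounded (hs.add hs2) fun g => ?_
    rw [Real.norm_eq_abs, abs_mul, abs_of_pos (hρ0 g)]
    have h1 : |f g| ≤ 1 + f g ^ 2 := by
      rw [← sq_abs]; nlinarith [sq_nonneg (|f g| - 1), abs_nonneg (f g)]
    have := mul_le_mul_of_nonneg_right h1 (hρ0 g).le
    linarith
  have hf0 : ∀ g a, f (g - a) = f g - f a := by
    intro g a
    have := hf (g - a) a
    rw [sub_add_cancel] at this
    linarith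
  have sfs : ∀ a, Summable fun g => f g * ρ (g - a) := by
    intro a
    have h1 : Summable fun g => f (g - a) * ρ (g - a) :=
      (Equiv.subRight a).summable_iff.mpr sf
    refine (h1.add ((hshift a).mul_left (f a))).congr fun g => ?_
    rw [hf0]; ring
  have tfs : ∀ a, ∑' g, f g * ρ (g - a) = ∑' g, f g * ρ g + f a * Z := by
    intro a
    have h1 : Summable fun g => f (g - a) * ρ (g - a) :=
      (Equiv.subRight a).summable_iff.mpr sf
    have h2 : ∑' g, f (g - a) * ρ (g - a) = ∑' g, f g * ρ g :=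
      (Equiv.subRight a).tsum_eq fun g => f g * ρ g
    rw [← h2, ← hshift' a, ← tsum_mul_left, ← h1.tsum_add ((hshift a).mul_left (f a))]
    refine tsum_congr fun g => ?_
    rw [hf0]; ring
  have hfD : ∀ g, f g * (ρ g * D g) = (1 / (m : ℝ)) * ∑ i, f g * ρ (g - φ i) := by
    intro g
    rw [hρD, ← Finset.mul_sum]; ring
  have sfD : Summable fun g => f g * (ρ g * D g) := by
    simp_rw [hfD]
    exact (summable_sum fun i _ => sfs (φ i)).mul_left _
  have tfD : ∑' g, f g * (ρ g * D g) = ∑' g, f g * ρ g + Z := by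
    simp_rw [hfD]
    rw [tsum_mul_left, Summable.tsum_finsetSum fun i _ => sfs (φ i)]
    simp_rw [tfs, hφ, one_mul]
    rw [Finset.sum_const, Finset.card_univ, Fintype.card_fin, nsmul_eq_mul]
    field_simp
  -- the quadratic inequality
  set A := ∑' g, f g ^ 2 * ρ g with hA
  set C := Z * ((1 / (m : ℝ) ^ 2) * ∑ i, ∑ j, Real.exp (2 * E (φ i) (φ j))) - Z with hC
  have key : ∀ t : ℝ, 0 ≤ C * (t * t) + (-2 * Z) * t + A := by
    intro t
    have h1 : Summable fun g => ρ g * (f g - t * (D g - 1)) ^ 2 := by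
      have := (((hs2.sub ((sfD.sub sf).mul_left (2 * t))).add (sD2.mul_left (t ^ 2))).sub
        (sD.mul_left (2 * t ^ 2))).add (hs.mul_left (t ^ 2))
      refine this.congr fun g => ?_
      simp only [hρ]
      ring
    have h2 : 0 ≤ ∑' g, ρ g * (f g - t * (D g - 1)) ^ 2 :=
      tsum_nonneg fun g => mul_nonneg (hρ0 g).le (sq_nonneg _)
    have h3 : ∑' g, ρ g * (f g - t * (D g - 1)) ^ 2 =
        A - 2 * t * (∑' g, f g * (ρ g * D g) - ∑' g, f g * ρ g) +
          t ^ 2 * (∑' g, ρ g * D g ^ 2) - 2 * t ^ 2 * (∑' g, ρ g * D g) + t ^ 2 * Z := by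
      rw [hA, hZ, ← sfD.tsum_sub sf, ← tsum_mul_left, ← tsum_mul_left, ← tsum_mul_left,
        ← tsum_mul_left, ← hs2.tsum_sub ((sfD.sub sf).mul_left (2 * t)),
        ← (hs2.sub ((sfD.sub sf).mul_left (2 * t))).tsum_add (sD2.mul_left (t ^ 2)),
        ← ((hs2.sub ((sfD.sub sf).mul_left (2 * t))).add (sD2.mul_left (t ^ 2))).tsum_sub
          (sD.mul_left (2 * t ^ 2)),
        ← (((hs2.sub ((sfD.sub sf).mul_left (2 * t))).add (sD2.mul_left (t ^ 2))).sub
          (sD.mul_left (2 * t ^ 2))).tsum_add (hs.mul_left (t ^ 2))]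
      refine tsum_congr fun g => ?_
      simp only [hρ]
      ring
    rw [h3, tfD, tD, tD2] at h2
    rw [hC]
    linarith
  have hdisc := discrim_le_zero key
  unfold discrim at hdisc
  have h4 : Z * Z ≤ A * C := by nlinarith
  have h5 : C = Z * ((1 / (m : ℝ) ^ 2) * ∑ i, ∑ j, (Real.exp (2 * E (φ i) (φ j)) - 1)) := by
    rw [hC]
    simp_rw [Finset.sum_sub_distrib]
    simp only [Finset.sum_const, Finset.card_univ, Fintype.card_fin, nsmul_eq_mul, mul_one]
    field_simp
  rw [h5] at h4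
  have h6 : Z * Z ≤ Z * (A * ((1 / (m : ℝ) ^ 2) * ∑ i, ∑ j, (Real.exp (2 * E (φ i) (φ j)) - 1))) := by
    linarith
  exact le_of_mul_le_mul_left h6 hZ0

end Pool.Agent.R978.DG
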