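import Pool.Agent.R978.DGForm
import Pool.Agent.R978.DGShift

/-!
# Summability of the Gibbs weights
-/

set_option autoImplicit false

namespace Pool.Agent.R978.DG

lemma summable_gauss {c : ℝ} (hc : 0 < c) :
    Summable fun n : ℤ => (1 + (n : ℝ) ^ 2) * Real.exp (-(c * (n : ℝ) ^ 2)) := by
  have h1 : Summable fun n : ℤ => (2 * (2 / c + 1)) * Real.exp (-(c / 2)) ^ (n.natAbs) := by
    refine Summable.mul_left _ ?_
    have hr : Summable fun n : ℕ => Real.exp (-(c / 2)) ^ n :=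
      summable_geometric_of_lt_one (Real.exp_pos _).le (by
        rw [Real.exp_lt_one_iff]; linarith)
    refine Summable.of_nat_of_neg ?_ ?_
    · simpa using hr
    · simpa using hr
  refine Summable.of_nonneg_of_le (fun n => by positivity) (fun n => ?_) h1
  have h2 : (n : ℝ) ^ 2 = ((n.natAbs : ℕ) : ℝ) ^ 2 := by
    rw [Nat.cast_natAbs]; push_cast; rw [sq_abs]
  rw [h2]
  set m := n.natAbs
  have h3 : Real.exp (-(c * (m : ℝ) ^ 2)) = Real.exp (-(c / 2 * (m : ℝ) ^ 2)) * Real.exp (-(c / 2 * (m : ℝ) ^ 2)) := by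
    rw [← Real.exp_add]; congr 1; ring
  have h4 : Real.exp (-(c / 2 * (m : ℝ) ^ 2)) ≤ Real.exp (-(c / 2)) ^ m := by
    rw [← Real.exp_nat_mul]
    apply Real.exp_le_exp.mpr
    have : (m : ℝ) ≤ (m : ℝ) ^ 2 := by
      have : m ≤ m ^ 2 := Nat.le_self_pow two_ne_zero m
      exact_mod_cast this
    nlinarith
  have h5 : (1 + (m : ℝ) ^ 2) * Real.exp (-(c / 2 * (m : ℝ) ^ 2)) ≤ 2 * (2 / c + 1) := by
    have h6 : c / 2 * (m : ℝ) ^ 2 * Real.exp (-(c / 2 * (m : ℝ) ^ 2)) ≤ 1 := by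
      have := Real.add_one_le_exp (c / 2 * (m : ℝ) ^ 2)
      have h7 : c / 2 * (m : ℝ) ^ 2 ≤ Real.exp (c / 2 * (m : ℝ) ^ 2) := by linarith
      calc _ ≤ Real.exp (c / 2 * (m : ℝ) ^ 2) * Real.exp (-(c / 2 * (m : ℝ) ^ 2)) := by gcongr
        _ = 1 := by rw [← Real.exp_add]; simp
    have h8 : Real.exp (-(c / 2 * (m : ℝ) ^ 2)) ≤ 1 := Real.exp_le_one_iff.mpr (by
      have : 0 ≤ c / 2 * (m : ℝ) ^ 2 := by positivity
      linarith)
    have h9 : (m : ℝ) ^ 2 * Real.exp (-(c / 2 * (m : ℝ) ^ 2)) ≤ 2 / c := by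
      rw [le_div_iff₀ hc]
      nlinarith
    have : 0 ≤ 2 / c := by positivity
    nlinarith
  calc (1 + (m : ℝ) ^ 2) * Real.exp (-(c * (m : ℝ) ^ 2))
      = (1 + (m : ℝ) ^ 2) * Real.exp (-(c / 2 * (m : ℝ) ^ 2)) * Real.exp (-(c / 2 * (m : ℝ) ^ 2)) := by
        rw [h3]; ring
    _ ≤ 2 * (2 / c + 1) * Real.exp (-(c / 2)) ^ m := by gcongr

lemma summable_fin {g : ℤ → ℝ} (hg : Summable g) (hg0 : ∀ n, 0 ≤ g n) (k : ℕ) :
    Summable fun x : Fin k → ℤ => ∏ i, g (x i) := by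
  induction k with
  | zero => exact (hasSum_fintype _).summable
  | succ k ih =>
    have h1 : Summable fun p : ℤ × (Fin k → ℤ) => g p.1 * ∏ i, g (p.2 i) :=
      hg.mul_of_nonneg ih hg0 (fun x => Finset.prod_nonneg fun i _ => hg0 _)
    rw [← (Fin.consEquiv (fun _ : Fin (k + 1) => ℤ)).summable_iff]
    refine h1.congr fun p => ?_
    simp [Fin.prod_univ_succ, Fin.consEquiv]

lemma summable_pi {ι : Type} [Fintype ι] {g : ℤ → ℝ} (hg : Summable g) (hg0 : ∀ n, 0 ≤ g n) :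
    Summable fun x : ι → ℤ => ∏ i, g (x i) := by
  have h1 := summable_fin hg hg0 (Fintype.card ι)
  rw [← ((Fintype.equivFin ι).arrowCongr (Equiv.refl ℤ)).summable_iff] at h1
  refine h1.congr fun x => ?_
  simp only [Function.comp_apply, Equiv.arrowCongr_apply, Equiv.coe_refl, id_eq]
  exact (Fintype.equivFin ι).symm.prod_comp fun i => g (x i)

lemma summable_all {α β : ℝ} (hα : 1 < α) (hβ : 0 < β) (N : ℕ) :
    Summable fun φ : V N => (1 + ((φ.1 0 : ℤ) : ℝ) ^ 2) * Real.exp (-(β * H α φ.1)) := by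
  set c : ℝ := β * (2 * (N : ℝ) + 1) ^ (-α) with hc
  have hc0 : 0 < c := by positivity
  set r : V N → ((Finset.Icc (-(N : ℤ)) N) → ℤ) := fun φ x => φ.1 x.1 with hr
  have hinj : Function.Injective r := by
    intro φ ψ h
    ext x
    by_cases hx : (N : ℤ) < |x|
    · rw [φ.2 x hx, ψ.2 x hx]
    · push Not at hx
      rw [abs_le] at hx
      exact congrFun h ⟨x, Finset.mem_Icc.mpr hx⟩
  have h1 := (summable_pi (ι := Finset.Icc (-(N : ℤ)) N) (summable_gauss hc0)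
    (fun n => by positivity)).comp_injective hinj
  refine Summable.of_nonneg_of_le (fun φ => by positivity) (fun φ => ?_) h1
  simp only [Function.comp_apply]
  rw [Finset.prod_mul_distrib]
  have h0 : (0 : ℤ) ∈ Finset.Icc (-(N : ℤ)) N := by simp
  have h2 : 1 + ((φ.1 0 : ℤ) : ℝ) ^ 2 ≤ ∏ i, (1 + ((r φ i : ℤ) : ℝ) ^ 2) := by
    rw [← Finset.mul_prod_erase Finset.univ _ (Finset.mem_univ ⟨0, h0⟩)]
    have h3 : 1 ≤ ∏ i ∈ Finset.univ.erase ⟨0, h0⟩, (1 + ((r φ i : ℤ) : ℝ) ^ 2) :=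
      Finset.prod_induction _ (fun x : ℝ => 1 ≤ x)
        (fun a b ha hb => one_le_mul_of_one_le_of_one_le ha hb) le_rfl
        fun i _ => by nlinarith [sq_nonneg ((r φ i : ℤ) : ℝ)]
    have h4 : (0 : ℝ) ≤ 1 + ((r φ ⟨0, h0⟩ : ℤ) : ℝ) ^ 2 := by positivity
    exact le_mul_of_one_le_right h4 h3
  have h5 : Real.exp (-(β * H α φ.1)) ≤ ∏ i, Real.exp (-(c * ((r φ i : ℤ) : ℝ) ^ 2)) := by
    rw [← Real.exp_sum]
    apply Real.exp_le_exp.mpr
    rw [Finset.sum_neg_distrib, ← Finset.mul_sum, neg_le_neg_iff]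
    have h6 : ∑ i, ((r φ i : ℤ) : ℝ) ^ 2 = ∑ x ∈ Finset.Icc (-(N : ℤ)) N, ((φ.1 x : ℤ) : ℝ) ^ 2 :=
      Finset.sum_coe_sort (Finset.Icc (-(N : ℤ)) N) fun x => ((φ.1 x : ℤ) : ℝ) ^ 2
    rw [h6, hc, mul_assoc]
    exact mul_le_mul_of_nonneg_left (H_ge hα φ.2) hβ.le
  gcongr

lemma summable_Z {α β : ℝ} (hα : 1 < α) (hβ : 0 < β) (N : ℕ) :
    Summable fun φ : V N => Real.exp (-(β * H α φ.1)) := by
  refine Summable.of_nonneg_of_le (fun φ => by positivity) (fun φ => ?_) (summable_all hα hβ N)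
  nlinarith [Real.exp_pos (-(β * H α φ.1)), sq_nonneg ((φ.1 0 : ℤ) : ℝ)]

lemma summable_Z2 {α β : ℝ} (hα : 1 < α) (hβ : 0 < β) (N : ℕ) :
    Summable fun φ : V N => ((φ.1 0 : ℤ) : ℝ) ^ 2 * Real.exp (-(β * H α φ.1)) := by
  refine Summable.of_nonneg_of_le (fun φ => by positivity) (fun φ => ?_) (summable_all hα hβ N)
  nlinarith [Real.exp_pos (-(β * H α φ.1)), sq_nonneg ((φ.1 0 : ℤ) : ℝ)]

/-- The variance bound in the box. -/
theorem var_bound {α β : ℝ} (hα : 1 < α) (hβ : 0 < β) (N : ℕ) {m : ℕ} (hm : 0 < m)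
    (φ : Fin m → V N) (hφ : ∀ i, (φ i).1 0 = 1) :
    (∑' ψ : V N, Real.exp (-(β * H α ψ.1))) ≤
      (∑' ψ : V N, ((ψ.1 0 : ℤ) : ℝ) ^ 2 * Real.exp (-(β * H α ψ.1))) *
      ((1 / (m : ℝ) ^ 2) * ∑ i, ∑ j, (Real.exp (2 * (β * E α (φ i).1 (φ j).1)) - 1)) := by
  refine shift_bound (G := V N) (fun g => β * H α g.1) (fun g a => β * E α g.1 a.1) ?_ ?_
    (fun g => ((g.1 0 : ℤ) : ℝ)) ?_ (summable_Z hα hβ N) (summable_Z2 hα hβ N) hm φ ?_
  · intro g a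
    have : (g - a).1 = g.1 - a.1 := rfl
    simp only [this]
    rw [H_sub hα g.2 a.2]; ring
  · intro g b a
    have : (g - b).1 = g.1 - b.1 := rfl
    simp only [this]
    rw [E_sub hα g.2 b.2 a.2]; ring
  · intro g a
    have : (g + a).1 0 = g.1 0 + a.1 0 := rfl
    simp only [this]
    push_cast; ring
  · intro i
    simp only [hφ i]; norm_num

end Pool.Agent.R978.DG
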