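import Mathlib

set_option autoImplicit false

open MeasureTheory Filter Topology

namespace Pool.Agent.R978.Stable

/-- The integrand of the exponent. -/
noncomputable def fc (c v : ℝ) : ℝ := 2 * (1 - Real.cos (c / v ^ 11))

lemma fc_nonneg (c v : ℝ) : 0 ≤ fc c v := by
  unfold fc; have := Real.cos_le_one (c / v ^ 11); linarith

lemma fc_le_four (c v : ℝ) : fc c v ≤ 4 := by
  unfold fc; have := Real.neg_one_le_cos (c / v ^ 11); linarith

lemma fc_le_sq (c v : ℝ) : fc c v ≤ (c / v ^ 11) ^ 2 := by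
  unfold fc; have := Real.one_sub_sq_div_two_le_cos (x := c / v ^ 11); linarith

lemma measurable_fc : Measurable (Function.uncurry fc) := by
  unfold fc Function.uncurry; fun_prop

lemma measurable_fc_right (c : ℝ) : Measurable (fc c) := by
  unfold fc; fun_prop

lemma integrableOn_fc (c : ℝ) : IntegrableOn (fc c) (Set.Ioi 0) := by
  have h1 : IntegrableOn (fc c) (Set.Ioc 0 1) := by
    refine Measure.integrableOn_of_bounded (M := 4) (by simp) (measurable_fc_right c).aestronglyMeasurable ?_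
    exact Eventually.of_forall fun v => by
      rw [Real.norm_eq_abs, abs_of_nonneg (fc_nonneg c v)]; exact fc_le_four c v
  have h2 : IntegrableOn (fc c) (Set.Ioi 1) := by
    have h3 : IntegrableOn (fun v : ℝ => c ^ 2 * v ^ (-2 : ℝ)) (Set.Ioi 1) :=
      (integrableOn_Ioi_rpow_of_lt (by norm_num) one_pos).const_mul _
    refine Integrable.mono' h3 (measurable_fc_right c).aestronglyMeasurable ?_
    refine (ae_restrict_iff' measurableSet_Ioi).mpr (Eventually.of_forall fun v hv => ?_)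
    have hv1 : (1 : ℝ) < v := hv
    have hv0 : (0 : ℝ) < v := by linarith
    rw [Real.norm_eq_abs, abs_of_nonneg (fc_nonneg c v)]
    refine (fc_le_sq c v).trans ?_
    rw [div_pow, div_eq_mul_inv]
    apply mul_le_mul_of_nonneg_left _ (sq_nonneg c)
    rw [Real.rpow_neg hv0.le, ← pow_mul]
    apply inv_anti₀ (by positivity)
    rw [show (2 : ℝ) = ((2 : ℕ) : ℝ) by norm_num, Real.rpow_natCast]
    exact pow_le_pow_right₀ hv1.le (by norm_num)
  have := h1.union h2
  rwa [Set.Ioc_union_Ioi_eq_Ioi (by norm_num)] at this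

/-- The normalising constant. -/
noncomputable def C0 : ℝ := ∫ v in Set.Ioi (0 : ℝ), fc 1 v

lemma C0_pos : 0 < C0 := by
  unfold C0
  rw [setIntegral_pos_iff_support_of_nonneg_ae (Eventually.of_forall fun v => fc_nonneg 1 v)
    (integrableOn_fc 1)]
  have hsub : Set.Ioo (1 : ℝ) 2 ⊆ Function.support (fc 1) ∩ Set.Ioi 0 := by
    intro v hv
    have hv0 : (0 : ℝ) < v := by linarith [hv.1]
    refine ⟨?_, hv0⟩
    rw [Function.mem_support]
    have hpos : 0 < 1 / v ^ 11 := by positivity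
    have hle : 1 / v ^ 11 ≤ 1 := by
      rw [div_le_one (by positivity)]; exact one_le_pow₀ hv.1.le
    have : Real.cos (1 / v ^ 11) < 1 := by
      have := Real.cos_lt_one_div_sqrt_sq_add_one (x := 1 / v ^ 11) (by linarith [Real.pi_gt_three])
        (by linarith [Real.pi_gt_three]) hpos.ne'
      refine this.trans_le ?_
      rw [div_le_one (by positivity), Real.one_le_sqrt]
      nlinarith [sq_nonneg (1 / v ^ 11)]
    unfold fc
    linarith
  refine lt_of_lt_of_le ?_ (measure_mono hsub)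
  simp

/-- The scale of the jumps. -/
noncomputable def κ : ℝ := 1 / C0 ^ 11

lemma κ_pos : 0 < κ := by unfold κ; have := C0_pos; positivity

lemma integral_fc (y : ℝ) : ∫ v in Set.Ioi (0 : ℝ), fc (y * κ) v = |y| ^ (1 / 11 : ℝ) := by
  rcases eq_or_ne y 0 with rfl | hy
  · simp [fc]
  · have hy0 : 0 < |y| := abs_pos.mpr hy
    have hκ := κ_pos
    set b := (|y| * κ) ^ (1 / 11 : ℝ) with hb
    have hb0 : 0 < b := by positivity
    have hb11 : b ^ 11 = |y| * κ := by
      rw [hb, ← Real.rpow_natCast, ← Real.rpow_mul (by positivity)]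
      norm_num
    have h1 : ∀ v : ℝ, fc (y * κ) v = fc 1 (b⁻¹ * v) := by
      intro v
      unfold fc
      congr 2
      have e1 : 1 / (b⁻¹ * v) ^ 11 = |y| * κ / v ^ 11 := by
        rw [mul_pow, inv_pow, hb11]
        rw [one_div, mul_inv, inv_inv]; rfl
      rw [e1]
      rcases abs_choice y with h | h
      · rw [h]
      · rw [h, neg_mul, neg_div, Real.cos_neg]
    simp_rw [h1]
    rw [integral_comp_mul_left_Ioi (fc 1) 0 (inv_pos.mpr hb0), mul_zero, inv_inv, smul_eq_mul]
    have h2 : b = |y| ^ (1 / 11 : ℝ) * C0⁻¹ := by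
      rw [hb, Real.mul_rpow hy0.le hκ.le]
      congr 1
      unfold κ
      rw [one_div, Real.inv_rpow (by have := C0_pos; positivity), ← Real.rpow_natCast,
        ← Real.rpow_mul C0_pos.le]
      norm_num
    have h3 : ∫ v in Set.Ioi (0 : ℝ), fc 1 v = C0 := rfl
    rw [h3, h2, mul_assoc, inv_mul_cancel₀ C0_pos.ne', mul_one]

/-- Truncated exponent. -/
noncomputable def Ψ (n : ℕ) (y : ℝ) : ℝ := ∫ v in (0 : ℝ)..n, fc (y * κ) v

lemma Ψ_eq (n : ℕ) (y : ℝ) : Ψ n y = ∫ v in Set.Ioc (0 : ℝ) n, fc (y * κ) v :=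
  intervalIntegral.integral_of_le (Nat.cast_nonneg n)

lemma Ψ_nonneg (n : ℕ) (y : ℝ) : 0 ≤ Ψ n y := by
  rw [Ψ_eq]; exact setIntegral_nonneg measurableSet_Ioc fun v _ => fc_nonneg _ v

lemma Ψ_le (n : ℕ) (y : ℝ) : Ψ n y ≤ |y| ^ (1 / 11 : ℝ) := by
  rw [Ψ_eq, ← integral_fc y]
  exact setIntegral_mono_set (integrableOn_fc _) (Eventually.of_forall fun v => fc_nonneg _ v)
    (Set.Ioc_subset_Ioi_self.eventuallyLE)

lemma Ψ_tendsto (y : ℝ) : Tendsto (fun n : ℕ => Ψ n y) atTop (𝓝 (|y| ^ (1 / 11 : ℝ))) := by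
  rw [← integral_fc y]
  exact intervalIntegral_tendsto_integral_Ioi 0 (integrableOn_fc _) tendsto_natCast_atTop_atTop

lemma measurable_Ψ (n : ℕ) : Measurable (Ψ n) := by
  have : Ψ n = fun y => ∫ v in Set.Ioc (0 : ℝ) n, fc (y * κ) v := funext fun y => Ψ_eq n y
  rw [this]
  have hm : StronglyMeasurable (fun p : ℝ × ℝ => fc (p.1 * κ) p.2) := by
    apply Measurable.stronglyMeasurable
    unfold fc; fun_prop
  exact (hm.integral_prod_right (ν := volume.restrict (Set.Ioc (0 : ℝ) n))).measurable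

lemma sum_unit (n : ℕ) (y : ℝ) :
    ∑ l ∈ Finset.range n, ∫ v in (0 : ℝ)..1, fc (y * κ) (l + v) = Ψ n y := by
  have h1 : ∀ l ∈ Finset.range n, ∫ v in (0 : ℝ)..1, fc (y * κ) (l + v) =
      ∫ v in ((l : ℕ) : ℝ)..((l + 1 : ℕ) : ℝ), fc (y * κ) v := by
    intro l _
    rw [intervalIntegral.integral_comp_add_left (fun v => fc (y * κ) v) (l : ℝ)]
    simp
  rw [Finset.sum_congr rfl h1, intervalIntegral.sum_integral_adjacent_intervals]
  · simp [Ψ]
  · intro k _
    refine (intervalIntegrable_iff_integrableOn_Ioc_of_le (by exact_mod_cast Nat.le_succ k)).mpr ?_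
    refine Measure.integrableOn_of_bounded (M := 4) (by simp) (measurable_fc_right _).aestronglyMeasurable ?_
    exact Eventually.of_forall fun v => by
      rw [Real.norm_eq_abs, abs_of_nonneg (fc_nonneg _ v)]; exact fc_le_four _ v

end Pool.Agent.R978.Stable
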