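import Mathlib
import Pool.Agent.R978.StableConst

set_option autoImplicit false

open MeasureTheory ProbabilityTheory Filter Topology

namespace Pool.Agent.R978.Stable

lemma integral_prod_coords {ι : Type*} {X : ι → Type*} [∀ i, MeasurableSpace (X i)]
    (μ : (i : ι) → Measure (X i)) [∀ i, IsProbabilityMeasure (μ i)] (s : Finset ι)
    (f : (i : ι) → X i → ℂ) (hf : ∀ i, Measurable (f i)) :
    ∫ x, ∏ i ∈ s, f i (x i) ∂(Measure.infinitePi μ) = ∏ i ∈ s, ∫ x, f i x ∂(μ i) := by
  have h1 : ∀ x : (i : ι) → X i, ∏ i ∈ s, f i (x i) =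
      (fun y : (i : s) → X i => ∏ i : s, f i (y i)) (s.restrict x) := by
    intro x
    rw [← Finset.prod_coe_sort s (fun i => f i (x i))]
    rfl
  simp_rw [h1]
  rw [integral_restrict_infinitePi (μ := μ) (s := s)
    (f := fun y : (i : s) → X i => ∏ i : s, f i (y i))]
  · rw [integral_fintype_prod_eq_prod (f := fun (i : s) (x : X i) => f i x)]
    rw [← Finset.prod_coe_sort s (fun i => ∫ x, f i x ∂(μ i))]
  · apply Measurable.aestronglyMeasurable
    exact Finset.measurable_prod _ fun i _ => (hf i).comp (measurable_pi_apply i)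

/-- Uniform law on `(0, 1]`. -/
noncomputable def U01 : Measure ℝ := volume.restrict (Set.Ioc 0 1)

instance : IsProbabilityMeasure U01 := ⟨by unfold U01; simp⟩

/-- Law of a point in the unit cell. -/
noncomputable def pt : Measure (ℝ × ℝ) := U01.prod U01

instance : IsProbabilityMeasure pt := by unfold pt; infer_instance

/-- The space of configurations in one cell. -/
abbrev Cell : Type := ℕ × (ℕ → ℝ × ℝ)

/-- The law of the configuration in one cell: a Poisson number of uniform points. -/
noncomputable def cellM : Measure Cell :=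
  (poissonMeasure 1).prod (Measure.infinitePi fun _ : ℕ => pt)

instance : IsProbabilityMeasure cellM := by unfold cellM; infer_instance

/-- Sum of `h` over the points of a cell. -/
noncomputable def Sf (h : ℝ × ℝ → ℝ) (c : Cell) : ℝ := ∑ i ∈ Finset.range c.1, h (c.2 i)

lemma measurable_Sf {h : ℝ × ℝ → ℝ} (hh : Measurable h) : Measurable (Sf h) := by
  refine measurable_from_prod_countable_right fun n => ?_
  show Measurable fun e : ℕ → ℝ × ℝ => ∑ i ∈ Finset.range n, h (e i)
  exact Finset.measurable_sum _ fun i _ => hh.comp (measurable_pi_apply i)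

lemma cell_char {h : ℝ × ℝ → ℝ} (hh : Measurable h) :
    ∫ c, Complex.exp ((Sf h c : ℂ) * Complex.I) ∂cellM =
      Complex.exp (∫ p, (Complex.exp ((h p : ℂ) * Complex.I) - 1) ∂pt) := by
  have hm : Measurable fun c : Cell => Complex.exp ((Sf h c : ℂ) * Complex.I) := by
    have := measurable_Sf hh
    fun_prop
  have hint : Integrable (fun c : Cell => Complex.exp ((Sf h c : ℂ) * Complex.I)) cellM := by
    refine Integrable.of_bound (C := 1) hm.aestronglyMeasurable ?_
    exact Eventually.of_forall fun c => by rw [Complex.norm_exp_ofReal_mul_I]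
  unfold cellM at hint ⊢
  rw [integral_prod _ hint]
  set φ := ∫ p, Complex.exp ((h p : ℂ) * Complex.I) ∂pt with hφ
  have h1 : ∀ n : ℕ, ∫ e, Complex.exp ((Sf h (n, e) : ℂ) * Complex.I)
      ∂(Measure.infinitePi fun _ : ℕ => pt) = φ ^ n := by
    intro n
    have h2 : ∀ e : ℕ → ℝ × ℝ, Complex.exp ((Sf h (n, e) : ℂ) * Complex.I) =
        ∏ i ∈ Finset.range n, (fun p : ℝ × ℝ => Complex.exp ((h p : ℂ) * Complex.I)) (e i) := by
      intro e
      unfold Sf
      rw [← Complex.exp_sum]
      push_cast
      rw [Finset.sum_mul]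
    simp_rw [h2]
    rw [integral_prod_coords (fun _ : ℕ => pt) (Finset.range n)
      (fun _ p => Complex.exp ((h p : ℂ) * Complex.I)) (fun _ => by fun_prop)]
    rw [Finset.prod_const, Finset.card_range]
  simp_rw [h1]
  rw [integral_poissonMeasure]
  have hpt : Integrable (fun p => Complex.exp ((h p : ℂ) * Complex.I)) pt := by
    refine Integrable.of_bound (C := 1) ?_ ?_
    · exact (by fun_prop : Measurable fun p => Complex.exp ((h p : ℂ) * Complex.I)).aestronglyMeasurable
    · exact Eventually.of_forall fun c => by rw [Complex.norm_exp_ofReal_mul_I]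
  rw [integral_sub hpt (integrable_const _), ← hφ]
  simp only [integral_const, probReal_univ, one_smul]
  rw [sub_eq_add_neg, Complex.exp_add, Complex.exp_eq_exp_ℂ]
  have h3 := (NormedSpace.expSeries_div_hasSum_exp φ).tsum_eq
  rw [← h3, ← tsum_mul_right]
  refine tsum_congr fun n => ?_
  rw [← Complex.exp_eq_exp_ℂ]
  simp only [NNReal.coe_one, one_pow, mul_one, Complex.real_smul]
  push_cast
  ring

/-- The mean number of points of a cell is finite. -/
lemma lintegral_num : ∫⁻ c : Cell, (c.1 : ENNReal) ∂cellM ≠ ⊤ := by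
  have h1 : Integrable (fun n : ℕ => (n : ℝ)) (poissonMeasure 1) := by
    rw [integrable_poissonMeasure_iff]
    rw [← summable_nat_add_iff 1]
    have h2 := (Real.summable_pow_div_factorial 1).mul_left (Real.exp (-1))
    refine h2.congr fun n => ?_
    simp only [NNReal.coe_one, one_pow, Nat.factorial_succ]
    push_cast
    rw [Real.norm_of_nonneg (by positivity)]
    field_simp
  have h2 : ∫⁻ c : Cell, (c.1 : ENNReal) ∂cellM = ∫⁻ n : ℕ, (n : ENNReal) ∂(poissonMeasure 1) := by
    unfold cellM
    have := lintegral_prod (μ := poissonMeasure 1) (ν := Measure.infinitePi fun _ : ℕ => pt)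
      (fun c : Cell => (c.1 : ENNReal)) (by fun_prop)
    rw [this]
    simp
  rw [h2]
  have h3 := h1.lintegral_lt_top
  refine ne_of_lt ?_
  refine lt_of_le_of_lt (le_of_eq ?_) h3
  refine lintegral_congr fun n => ?_
  rw [ENNReal.ofReal_natCast]

end Pool.Agent.R978.Stable
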