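import Mathlib

/-!
# A measure carried by the graph of a path with a small range has slow Fourier decay
-/

set_option autoImplicit false

open MeasureTheory ProbabilityTheory Filter Topology

namespace Pool.Agent.R978.Stable

/-- The Gaussian measure of a small interval. -/
lemma gaussian_small (ρ : ℝ) (hρ : 0 ≤ ρ) :
    (gaussianReal 0 1).real {x : ℝ | |x| ≤ ρ} ≤ 2 * ρ := by
  have hset : {x : ℝ | |x| ≤ ρ} = Set.Icc (-ρ) ρ := by
    ext x; simp [abs_le]
  rw [hset, measureReal_def]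
  apply ENNReal.toReal_le_of_le_ofReal (by positivity)
  rw [gaussianReal_apply 0 one_ne_zero]
  calc ∫⁻ x in Set.Icc (-ρ) ρ, gaussianPDF 0 1 x
      ≤ ∫⁻ x in Set.Icc (-ρ) ρ, 1 := by
        refine lintegral_mono fun x => ?_
        unfold gaussianPDF
        rw [← ENNReal.ofReal_one]
        apply ENNReal.ofReal_le_ofReal
        unfold gaussianPDFReal
        have h1 : (Real.sqrt (2 * Real.pi * ((1 : NNReal) : ℝ)))⁻¹ ≤ 1 := by
          apply inv_le_one_of_one_le₀
          rw [Real.one_le_sqrt]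
          have := Real.pi_gt_three
          simp only [NNReal.coe_one]
          linarith
        have h2 : Real.exp (-(x - 0) ^ 2 / (2 * ((1 : NNReal) : ℝ))) ≤ 1 := by
          apply Real.exp_le_one_iff.mpr
          simp only [NNReal.coe_one]
          nlinarith [sq_nonneg (x - 0)]
        calc _ ≤ (1 : ℝ) * 1 := by gcongr
          _ = 1 := one_mul 1
    _ = ENNReal.ofReal (2 * ρ) := by
        simp only [lintegral_const, MeasurableSet.univ, Measure.restrict_apply, Set.univ_inter,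
          Real.volume_Icc, one_mul]
        congr 1; ring

variable (μ : Measure (ℝ × ℝ)) [IsProbabilityMeasure μ]

/-- The vertical characteristic function. -/
noncomputable def φv (η : ℝ) : ℂ := ∫ p, Complex.exp (((η * p.2 : ℝ) : ℂ) * Complex.I) ∂μ

lemma norm_φv_le (η : ℝ) : ‖φv μ η‖ ≤ 1 := by
  unfold φv
  refine (norm_integral_le_integral_norm _).trans ?_
  simp only [Complex.norm_exp_ofReal_mul_I]
  simp

lemma continuous_φv : Continuous (φv μ) := by
  unfold φv
  refine continuous_of_dominated (bound := fun _ => 1) ?_ ?_ ?_ ?_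
  · intro η
    exact (by fun_prop : Continuous fun p : ℝ × ℝ => Complex.exp (((η * p.2 : ℝ) : ℂ) * Complex.I)).aestronglyMeasurable
  · intro η
    exact Eventually.of_forall fun p => by rw [Complex.norm_exp_ofReal_mul_I]
  · exact integrable_const _
  · exact Eventually.of_forall fun p => by fun_prop

/-- Energy identity. -/
lemma energy (r : ℝ) :
    ∫ p, ∫ q, Real.exp (-((p.2 - q.2) / r) ^ 2 / 2) ∂μ ∂μ =
      ∫ G, ‖φv μ (G / r)‖ ^ 2 ∂(gaussianReal 0 1) := by
  have h1 : ∀ x : ℝ, ((Real.exp (-x ^ 2 / 2) : ℝ) : ℂ) =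
      ∫ G, Complex.exp (((G * x : ℝ) : ℂ) * Complex.I) ∂(gaussianReal 0 1) := by
    intro x
    have h2 := charFun_gaussianReal (μ := 0) (v := 1) x
    rw [charFun_apply_real] at h2
    rw [Complex.ofReal_exp]
    push_cast
    have h3 : Complex.exp (-(x : ℂ) ^ 2 / 2) =
        Complex.exp ((x : ℂ) * ((0 : ℝ) : ℂ) * Complex.I - ((1 : NNReal) : ℂ) * (x : ℂ) ^ 2 / 2) := by
      congr 1
      simp
      ring
    rw [h3, ← h2]
    refine integral_congr_ae (Eventually.of_forall fun G => ?_)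
    simp only
    congr 1
    ring
  have h2 : ((∫ p, ∫ q, Real.exp (-((p.2 - q.2) / r) ^ 2 / 2) ∂μ ∂μ : ℝ) : ℂ) =
      ∫ p, ∫ q, ∫ G, Complex.exp (((G * ((p.2 - q.2) / r) : ℝ) : ℂ) * Complex.I)
        ∂(gaussianReal 0 1) ∂μ ∂μ := by
    rw [← integral_complex_ofReal]
    refine integral_congr_ae (Eventually.of_forall fun p => ?_)
    simp only
    rw [← integral_complex_ofReal]
    refine integral_congr_ae (Eventually.of_forall fun q => ?_)
    simp only
    exact h1 _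
  have h3 : ∀ p : ℝ × ℝ, ∫ q, ∫ G, Complex.exp (((G * ((p.2 - q.2) / r) : ℝ) : ℂ) * Complex.I)
        ∂(gaussianReal 0 1) ∂μ =
      ∫ G, Complex.exp (((G / r * p.2 : ℝ) : ℂ) * Complex.I) * (starRingEnd ℂ) (φv μ (G / r))
        ∂(gaussianReal 0 1) := by
    intro p
    rw [integral_integral_swap]
    · refine integral_congr_ae (Eventually.of_forall fun G => ?_)
      simp only
      unfold φv
      rw [← integral_conj, ← integral_const_mul]
      refine integral_congr_ae (Eventually.of_forall fun q => ?_)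
      simp only
      rw [← Complex.exp_conj, ← Complex.exp_add]
      congr 1
      rw [map_mul, Complex.conj_I, Complex.conj_ofReal]
      push_cast
      ring
    · refine Integrable.of_bound (C := 1) ?_ ?_
      · exact (by fun_prop : Continuous fun x : (ℝ × ℝ) × ℝ =>
          Complex.exp (((x.2 * ((p.2 - x.1.2) / r) : ℝ) : ℂ) * Complex.I)).aestronglyMeasurable
      · exact Eventually.of_forall fun x => by
          simp only [Function.uncurry]
          rw [Complex.norm_exp_ofReal_mul_I]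
  have h4 : ∫ p, ∫ G, Complex.exp (((G / r * p.2 : ℝ) : ℂ) * Complex.I) *
      (starRingEnd ℂ) (φv μ (G / r)) ∂(gaussianReal 0 1) ∂μ =
      ∫ G, ((‖φv μ (G / r)‖ ^ 2 : ℝ) : ℂ) ∂(gaussianReal 0 1) := by
    rw [integral_integral_swap]
    · refine integral_congr_ae (Eventually.of_forall fun G => ?_)
      simp only
      rw [integral_mul_const]
      have : ∫ p, Complex.exp (((G / r * p.2 : ℝ) : ℂ) * Complex.I) ∂μ = φv μ (G / r) := rfl
      rw [this, Complex.mul_conj, Complex.normSq_eq_norm_sq]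
    · refine Integrable.of_bound (C := 1) ?_ ?_
      · have hc := continuous_φv μ
        exact (by fun_prop : Continuous fun x : (ℝ × ℝ) × ℝ =>
          Complex.exp (((x.2 / r * x.1.2 : ℝ) : ℂ) * Complex.I) *
          (starRingEnd ℂ) (φv μ (x.2 / r))).aestronglyMeasurable
      · exact Eventually.of_forall fun x => by
          simp only [Function.uncurry]
          rw [norm_mul, Complex.norm_exp_ofReal_mul_I, one_mul, RCLike.norm_conj]
          exact norm_φv_le μ _
  have h5 : ((∫ p, ∫ q, Real.exp (-((p.2 - q.2) / r) ^ 2 / 2) ∂μ ∂μ : ℝ) : ℂ) =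
      ((∫ G, ‖φv μ (G / r)‖ ^ 2 ∂(gaussianReal 0 1) : ℝ) : ℂ) := by
    rw [h2, ← integral_complex_ofReal, ← h4]
    refine integral_congr_ae (Eventually.of_forall fun p => ?_)
    exact h3 p
  exact_mod_cast h5

/-- Upper bound for the energy from Fourier decay. -/
lemma energy_le {C : ℝ} (hC : 0 ≤ C) (hdec : ∀ η : ℝ, 1 ≤ |η| → ‖φv μ η‖ ≤ C * |η| ^ (-(1 / 4) : ℝ))
    {r ρ : ℝ} (hr : 0 < r) (hrρ : r ≤ ρ) :
    ∫ p, ∫ q, Real.exp (-((p.2 - q.2) / r) ^ 2 / 2) ∂μ ∂μ ≤
      2 * ρ + C ^ 2 * Real.sqrt (r / ρ) := by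
  have hρ : 0 < ρ := hr.trans_le hrρ
  rw [energy μ r]
  have hpt : ∀ G : ℝ, ‖φv μ (G / r)‖ ^ 2 ≤
      Set.indicator {x : ℝ | |x| ≤ ρ} (fun _ => (1 : ℝ)) G + C ^ 2 * Real.sqrt (r / ρ) := by
    intro G
    by_cases hG : |G| ≤ ρ
    · rw [Set.indicator_of_mem (show G ∈ {x : ℝ | |x| ≤ ρ} from hG)]
      have h1 := norm_φv_le μ (G / r)
      have h2 : ‖φv μ (G / r)‖ ^ 2 ≤ 1 := pow_le_one₀ (norm_nonneg _) h1
      have h3 : 0 ≤ C ^ 2 * Real.sqrt (r / ρ) := by positivity
      linarith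
    · rw [Set.indicator_of_notMem (show G ∉ {x : ℝ | |x| ≤ ρ} from hG), zero_add]
      push Not at hG
      have hη : ρ / r ≤ |G / r| := by
        rw [abs_div, abs_of_pos hr]; gcongr
      have h1r : 1 ≤ ρ / r := by rw [le_div_iff₀ hr]; linarith
      have h1 := hdec (G / r) (h1r.trans hη)
      have h2 : |G / r| ^ (-(1 / 4) : ℝ) ≤ (ρ / r) ^ (-(1 / 4) : ℝ) :=
        Real.rpow_le_rpow_of_nonpos (by positivity) hη (by norm_num)
      have h3 : ‖φv μ (G / r)‖ ≤ C * (ρ / r) ^ (-(1 / 4) : ℝ) :=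
        h1.trans (mul_le_mul_of_nonneg_left h2 hC)
      have h4 : ((ρ / r) ^ (-(1 / 4) : ℝ)) ^ 2 = Real.sqrt (r / ρ) := by
        rw [← Real.rpow_natCast, ← Real.rpow_mul (by positivity), Real.sqrt_eq_rpow]
        rw [show r / ρ = (ρ / r)⁻¹ by rw [inv_div], Real.inv_rpow (by positivity),
          ← Real.rpow_neg (by positivity)]
        norm_num
      calc ‖φv μ (G / r)‖ ^ 2 ≤ (C * (ρ / r) ^ (-(1 / 4) : ℝ)) ^ 2 := by gcongr
        _ = C ^ 2 * Real.sqrt (r / ρ) := by rw [mul_pow, h4]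
  have hmeas : MeasurableSet {x : ℝ | |x| ≤ ρ} := by
    have : {x : ℝ | |x| ≤ ρ} = Set.Icc (-ρ) ρ := by ext x; simp [abs_le]
    rw [this]; exact measurableSet_Icc
  have hint1 : Integrable (Set.indicator {x : ℝ | |x| ≤ ρ} (fun _ => (1 : ℝ)))
      (gaussianReal 0 1) := (integrable_const (1 : ℝ)).indicator hmeas
  calc ∫ G, ‖φv μ (G / r)‖ ^ 2 ∂(gaussianReal 0 1)
      ≤ ∫ G, (Set.indicator {x : ℝ | |x| ≤ ρ} (fun _ => (1 : ℝ)) G + C ^ 2 * Real.sqrt (r / ρ))
          ∂(gaussianReal 0 1) := by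
        refine integral_mono_of_nonneg (Eventually.of_forall fun G => sq_nonneg _)
          (hint1.add (integrable_const _)) (Eventually.of_forall hpt)
    _ = (gaussianReal 0 1).real {x : ℝ | |x| ≤ ρ} + C ^ 2 * Real.sqrt (r / ρ) := by
        rw [integral_add hint1 (integrable_const _), integral_indicator_const _ hmeas]
        simp
    _ ≤ _ := by
        have := gaussian_small ρ hρ.le
        linarith

/-- Lower bound for the energy from a covering. -/
lemma energy_ge (V : Finset ℝ) {r : ℝ} (hr : 0 < r)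
    (hcov : ∀ᵐ p ∂μ, ∃ v ∈ V, |p.2 - v| ≤ r / 2) :
    Real.exp (-(1 / 2)) / (4 * V.card) ≤ ∫ p, ∫ q, Real.exp (-((p.2 - q.2) / r) ^ 2 / 2) ∂μ ∂μ := by
  set E : ℝ → Set (ℝ × ℝ) := fun v => {p | |p.2 - v| ≤ r / 2} with hE
  have hEm : ∀ v, MeasurableSet (E v) := fun v =>
    measurableSet_le (by fun_prop) measurable_const
  have hVne : V.Nonempty := by
    obtain ⟨p, v, hv, _⟩ := hcov.exists
    exact ⟨v, hv⟩
  have hVc : (0 : ℝ) < V.card := by exact_mod_cast hVne.card_pos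
  -- small cells
  set W := V.filter (fun v => μ.real (E v) < 1 / (2 * V.card)) with hW
  set U : Set (ℝ × ℝ) := ⋃ v ∈ W, E v with hU
  have hUm : MeasurableSet U := Finset.measurableSet_biUnion _ fun v _ => hEm v
  have hUle : μ.real U ≤ 1 / 2 := by
    calc μ.real U ≤ ∑ v ∈ W, μ.real (E v) := measureReal_biUnion_finset_le _ _
      _ ≤ ∑ v ∈ W, 1 / (2 * (V.card : ℝ)) := Finset.sum_le_sum fun v hv =>
          (Finset.mem_filter.mp hv).2.le
      _ = W.card * (1 / (2 * (V.card : ℝ))) := by rw [Finset.sum_const, nsmul_eq_mul]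
      _ ≤ V.card * (1 / (2 * (V.card : ℝ))) := by
          have : (W.card : ℝ) ≤ V.card := by exact_mod_cast Finset.card_filter_le _ _
          gcongr
      _ = 1 / 2 := by field_simp
  have hUc : 1 / 2 ≤ μ.real Uᶜ := by
    rw [probReal_compl_eq_one_sub hUm]; linarith
  -- pointwise lower bound on Uᶜ
  have hinner : ∀ p : ℝ × ℝ, Integrable (fun q : ℝ × ℝ => Real.exp (-((p.2 - q.2) / r) ^ 2 / 2)) μ := by
    intro p
    refine Integrable.of_bound (C := 1) ?_ ?_
    · exact (by fun_prop : Continuous fun q : ℝ × ℝ => Real.exp (-((p.2 - q.2) / r) ^ 2 / 2)).aestronglyMeasurable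
    · exact Eventually.of_forall fun q => by
        rw [Real.norm_eq_abs, abs_of_pos (Real.exp_pos _)]
        apply Real.exp_le_one_iff.mpr
        nlinarith [sq_nonneg ((p.2 - q.2) / r)]
  have hlow : ∀ᵐ p ∂μ, Set.indicator Uᶜ (fun _ => Real.exp (-(1 / 2)) / (2 * V.card)) p ≤
      ∫ q, Real.exp (-((p.2 - q.2) / r) ^ 2 / 2) ∂μ := by
    filter_upwards [hcov] with p hp
    obtain ⟨v, hv, hpv⟩ := hp
    by_cases hpU : p ∈ U
    · rw [Set.indicator_of_notMem (by simpa using hpU)]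
      exact integral_nonneg fun q => (Real.exp_pos _).le
    · rw [Set.indicator_of_mem (by simpa using hpU)]
      have hvW : v ∉ W := by
        intro hvW
        apply hpU
        rw [hU]
        exact Set.mem_biUnion hvW hpv
      have hbig : 1 / (2 * (V.card : ℝ)) ≤ μ.real (E v) := by
        by_contra hcon
        push Not at hcon
        exact hvW (Finset.mem_filter.mpr ⟨hv, hcon⟩)
      calc Real.exp (-(1 / 2)) / (2 * V.card) = (1 / (2 * (V.card : ℝ))) * Real.exp (-(1 / 2)) := by ring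
        _ ≤ μ.real (E v) * Real.exp (-(1 / 2)) := by gcongr
        _ = ∫ q, Set.indicator (E v) (fun _ => Real.exp (-(1 / 2))) q ∂μ := by
            rw [integral_indicator_const _ (hEm v)]; simp
        _ ≤ ∫ q, Real.exp (-((p.2 - q.2) / r) ^ 2 / 2) ∂μ := by
            refine integral_mono ((integrable_const _).indicator (hEm v)) (hinner p) ?_
            intro q
            by_cases hq : q ∈ E v
            · simp only [Set.indicator_of_mem hq]
              apply Real.exp_le_exp.mpr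
              have h1 : |p.2 - q.2| ≤ r := by
                have hq' : |q.2 - v| ≤ r / 2 := hq
                calc |p.2 - q.2| = |(p.2 - v) - (q.2 - v)| := by ring_nf
                  _ ≤ |p.2 - v| + |q.2 - v| := abs_sub _ _
                  _ ≤ r := by linarith
              have h2 : |(p.2 - q.2) / r| ≤ 1 := by
                rw [abs_div, abs_of_pos hr, div_le_one hr]; exact h1
              have h3 : ((p.2 - q.2) / r) ^ 2 ≤ 1 := by
                rw [← sq_abs]; exact pow_le_one₀ (abs_nonneg _) h2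
              linarith
            · simp only [Set.indicator_of_notMem hq]
              exact (Real.exp_pos _).le
  have houter : Integrable (fun p : ℝ × ℝ => ∫ q, Real.exp (-((p.2 - q.2) / r) ^ 2 / 2) ∂μ) μ := by
    have : Integrable (fun x : (ℝ × ℝ) × (ℝ × ℝ) => Real.exp (-((x.1.2 - x.2.2) / r) ^ 2 / 2))
        (μ.prod μ) := by
      refine Integrable.of_bound (C := 1) ?_ ?_
      · exact (by fun_prop : Continuous fun x : (ℝ × ℝ) × (ℝ × ℝ) =>
          Real.exp (-((x.1.2 - x.2.2) / r) ^ 2 / 2)).aestronglyMeasurable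
      · exact Eventually.of_forall fun x => by
          rw [Real.norm_eq_abs, abs_of_pos (Real.exp_pos _)]
          apply Real.exp_le_one_iff.mpr
          nlinarith [sq_nonneg ((x.1.2 - x.2.2) / r)]
    exact this.integral_prod_left
  calc Real.exp (-(1 / 2)) / (4 * V.card) = (1 / 2) * (Real.exp (-(1 / 2)) / (2 * V.card)) := by
        field_simp; norm_num
    _ ≤ μ.real Uᶜ * (Real.exp (-(1 / 2)) / (2 * V.card)) := by gcongr
    _ = ∫ p, Set.indicator Uᶜ (fun _ => Real.exp (-(1 / 2)) / (2 * V.card)) p ∂μ := by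
        rw [integral_indicator_const _ hUm.compl]; simp
    _ ≤ _ := integral_mono_ae ((integrable_const _).indicator hUm.compl) houter hlow

/-- Main deterministic lemma. -/
theorem no_measure {x : ℝ → ℝ} {T D : ℝ} (hT : 0 ≤ T) (hD : 0 ≤ D)
    (hcov : ∀ L : ℕ, 1 ≤ L → ∃ V : Finset ℝ, (V.card : ℝ) ≤ T * (L : ℝ) ^ 2 + 1 ∧
      ∀ t ∈ Set.Icc (0 : ℝ) 1, ∃ v ∈ V, |x t - v| ≤ D / (L : ℝ) ^ 9) :
    ¬ ∃ (μ : Measure (ℝ × ℝ)) (K : Set (ℝ × ℝ)),
          IsProbabilityMeasure μ ∧ IsCompact K ∧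
          K ⊆ {p : ℝ × ℝ | p.1 ∈ Set.Icc (0 : ℝ) 1 ∧ p.2 = x p.1} ∧
          μ Kᶜ = 0 ∧
          ∃ C : ℝ, ∀ ξ : ℝ × ℝ, 1 ≤ ‖ξ‖ →
            ‖∫ p, Complex.exp (((ξ.1 * p.1 + ξ.2 * p.2 : ℝ) : ℂ) * Complex.I) ∂μ‖
              ≤ C * ‖ξ‖ ^ (-(1 / 2 : ℝ) / 2) := by
  rintro ⟨μ, K, hμ, hK, hKsub, hKc, C, hC⟩
  have hC0 : 0 ≤ C := by
    have h1 := hC (1, 0) (by simp)
    have h2 : ‖((1 : ℝ), (0 : ℝ))‖ = 1 := by simp [Prod.norm_def]
    rw [h2, Real.one_rpow, mul_one] at h1
    exact (norm_nonneg _).trans h1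
  have hdec : ∀ η : ℝ, 1 ≤ |η| → ‖φv μ η‖ ≤ C * |η| ^ (-(1 / 4) : ℝ) := by
    intro η hη
    have hn : ‖((0 : ℝ), η)‖ = |η| := by simp [Prod.norm_def]
    have h1 := hC (0, η) (by rw [hn]; exact hη)
    rw [hn] at h1
    unfold φv
    simp only [zero_mul, zero_add] at h1
    rw [show (-(1 / 4) : ℝ) = -(1 / 2 : ℝ) / 2 by norm_num]
    exact h1
  -- the inequality for every L
  set A := 2 + C ^ 2 * Real.sqrt (2 * (D + 1)) with hA
  have hA0 : 0 ≤ A := by positivity
  have key : ∀ L : ℕ, 2 * (D + 1) ≤ (L : ℝ) ^ 6 → 1 ≤ L →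
      Real.exp (-(1 / 2)) * (L : ℝ) ^ 3 ≤ 4 * A * (T * (L : ℝ) ^ 2 + 1) := by
    intro L hL6 hL
    obtain ⟨V, hVcard, hV⟩ := hcov L hL
    have hL0 : (0 : ℝ) < L := by exact_mod_cast hL
    set r := 2 * (D + 1) / (L : ℝ) ^ 9 with hr
    have hr0 : 0 < r := by positivity
    set ρ := 1 / (L : ℝ) ^ 3 with hρ
    have hρ0 : 0 < ρ := by positivity
    have hrρ : r ≤ ρ := by
      rw [hr, hρ, div_le_div_iff₀ (by positivity) (by positivity)]
      calc 2 * (D + 1) * (L : ℝ) ^ 3 ≤ (L : ℝ) ^ 6 * (L : ℝ) ^ 3 := by gcongr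
        _ = 1 * (L : ℝ) ^ 9 := by ring
    have hcovae : ∀ᵐ p ∂μ, ∃ v ∈ V, |p.2 - v| ≤ r / 2 := by
      have : ∀ᵐ p ∂μ, p ∈ K := by
        rw [ae_iff]; exact hKc
      filter_upwards [this] with p hp
      have h1 := hKsub hp
      obtain ⟨v, hv, hvp⟩ := hV p.1 h1.1
      refine ⟨v, hv, ?_⟩
      rw [h1.2]
      refine hvp.trans ?_
      rw [hr]
      rw [show 2 * (D + 1) / (L : ℝ) ^ 9 / 2 = (D + 1) / (L : ℝ) ^ 9 by ring]
      gcongr
      linarith
    have hge := energy_ge μ V hr0 hcovae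
    have hle := energy_le μ hC0 hdec hr0 hrρ
    have hVpos : (0 : ℝ) < V.card := by
      obtain ⟨p, v, hv, _⟩ := hcovae.exists
      exact_mod_cast Finset.card_pos.mpr ⟨v, hv⟩
    have hrr : r / ρ = 2 * (D + 1) / ((L : ℝ) ^ 3) ^ 2 := by
      rw [hr, hρ]; field_simp
    have hsq : Real.sqrt (r / ρ) = Real.sqrt (2 * (D + 1)) / (L : ℝ) ^ 3 := by
      rw [hrr, Real.sqrt_div (by positivity), Real.sqrt_sq (by positivity)]
    have h2 : Real.exp (-(1 / 2)) / (4 * V.card) ≤ A / (L : ℝ) ^ 3 := by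
      refine (hge.trans hle).trans (le_of_eq ?_)
      rw [hsq, hρ, hA]; ring
    rw [div_le_div_iff₀ (by positivity) (by positivity)] at h2
    calc Real.exp (-(1 / 2)) * (L : ℝ) ^ 3 ≤ A * (4 * V.card) := h2
      _ ≤ A * (4 * (T * (L : ℝ) ^ 2 + 1)) := by gcongr
      _ = _ := by ring
  -- contradiction for large L
  set e := Real.exp (-(1 / 2)) with he
  have he0 : 0 < e := Real.exp_pos _
  obtain ⟨L, hL⟩ := exists_nat_gt (max (2 * (D + 1)) (max 1 (4 * A * (T + 1) / e)))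
  have h1 : 2 * (D + 1) < (L : ℝ) := (le_max_left _ _).trans_lt hL
  have h2 : (1 : ℝ) < L := ((le_max_left _ _).trans (le_max_right _ _)).trans_lt hL
  have h3 : 4 * A * (T + 1) / e < L := ((le_max_right _ _).trans (le_max_right _ _)).trans_lt hL
  have hL1 : 1 ≤ L := by exact_mod_cast h2.le
  have h4 : (L : ℝ) ≤ (L : ℝ) ^ 6 := le_self_pow₀ h2.le (by norm_num)
  have h5 := key L (by linarith) hL1
  have h6 : 4 * A * (T * (L : ℝ) ^ 2 + 1) ≤ 4 * A * (T + 1) * (L : ℝ) ^ 2 := by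
    have : (1 : ℝ) ≤ (L : ℝ) ^ 2 := one_le_pow₀ h2.le
    have h7 : T * (L : ℝ) ^ 2 + 1 ≤ (T + 1) * (L : ℝ) ^ 2 := by nlinarith
    calc 4 * A * (T * (L : ℝ) ^ 2 + 1) ≤ 4 * A * ((T + 1) * (L : ℝ) ^ 2) := by gcongr
      _ = _ := by ring
  rw [div_lt_iff₀ he0] at h3
  have h8 : 4 * A * (T + 1) * (L : ℝ) ^ 2 < e * (L : ℝ) ^ 3 := by
    calc 4 * A * (T + 1) * (L : ℝ) ^ 2 < (L * e) * (L : ℝ) ^ 2 := by
          have : (0 : ℝ) < (L : ℝ) ^ 2 := by positivity
          exact mul_lt_mul_of_pos_right h3 this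
      _ = e * (L : ℝ) ^ 3 := by ring
  linarith

end Pool.Agent.R978.Stable
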