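import Pool.Agent.R978.StableCell

set_option autoImplicit false

open MeasureTheory ProbabilityTheory Filter Topology

namespace Pool.Agent.R978.Stable

/-- Index of a cell: time cell, size cell, sign. -/
abbrev Idx : Type := ℕ × ℕ × Bool

/-- The probability space. -/
abbrev Om : Type := Idx → Cell

/-- The probability measure. -/
noncomputable def PP : Measure Om := Measure.infinitePi fun _ : Idx => cellM

instance : IsProbabilityMeasure PP := by unfold PP; infer_instance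

/-- The sign. -/
noncomputable def sgn (b : Bool) : ℝ := if b = true then 1 else -1

/-- `jump × g(time)` for a point of the cell `c`. -/
noncomputable def hf (g : ℝ → ℝ) (c : Idx) (p : ℝ × ℝ) : ℝ :=
  sgn c.2.2 * (κ / ((c.2.1 : ℝ) + p.2) ^ 11) * g ((c.1 : ℝ) + p.1)

lemma measurable_hf {g : ℝ → ℝ} (hg : Measurable g) (c : Idx) : Measurable (hf g c) := by
  unfold hf; fun_prop

/-- Finite boxes of cells. -/
def bx (n : ℕ) : Finset Idx := Finset.range n ×ˢ (Finset.range n ×ˢ Finset.univ)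

lemma bx_tendsto : Tendsto bx atTop atTop := by
  refine tendsto_atTop_finset_of_monotone ?_ ?_
  · intro a b hab
    unfold bx
    exact Finset.product_subset_product (Finset.range_subset_range.mpr hab)
      (Finset.product_subset_product (Finset.range_subset_range.mpr hab) le_rfl)
  · rintro ⟨m, l, b⟩
    refine ⟨max m l + 1, ?_⟩
    simp only [bx, Finset.mem_product, Finset.mem_range, Finset.mem_univ, and_true]
    omega

lemma two_cell {g : ℝ → ℝ} (hg : Measurable g) (m l : ℕ) :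
    ∑ b : Bool, ∫ p, (Complex.exp ((hf g (m, l, b) p : ℂ) * Complex.I) - 1) ∂pt =
      ((-∫ u in (0 : ℝ)..1, ∫ v in (0 : ℝ)..1, fc (g (m + u) * κ) (l + v) : ℝ) : ℂ) := by
  have hint : ∀ b, Integrable (fun p => Complex.exp ((hf g (m, l, b) p : ℂ) * Complex.I) - 1) pt := by
    intro b
    have hm := measurable_hf hg (m, l, b)
    refine Integrable.of_bound (C := 2) ?_ ?_
    · exact (by fun_prop : Measurable fun p => Complex.exp ((hf g (m, l, b) p : ℂ) * Complex.I) - 1).aestronglyMeasurable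
    · exact Eventually.of_forall fun p => by
        refine (norm_sub_le _ _).trans ?_
        rw [Complex.norm_exp_ofReal_mul_I]; norm_num
  rw [Fintype.sum_bool, ← integral_add (hint true) (hint false)]
  have h1 : ∀ p : ℝ × ℝ, Complex.exp ((hf g (m, l, true) p : ℂ) * Complex.I) - 1 +
      (Complex.exp ((hf g (m, l, false) p : ℂ) * Complex.I) - 1) =
      ((-(fc (g (m + p.1) * κ) (l + p.2)) : ℝ) : ℂ) := by
    intro p
    set x : ℝ := g (m + p.1) * κ / (l + p.2) ^ 11 with hx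
    have e1 : hf g (m, l, true) p = x := by simp only [hf, sgn, hx]; simp; ring
    have e2 : hf g (m, l, false) p = -x := by simp only [hf, sgn, hx]; simp; ring
    rw [e1, e2]
    have e3 : fc (g (m + p.1) * κ) (l + p.2) = 2 * (1 - Real.cos x) := rfl
    rw [e3]
    push_cast
    rw [Complex.cos]
    ring
  simp_rw [h1]
  rw [integral_complex_ofReal]
  congr 1
  rw [integral_neg]
  congr 1
  unfold pt
  rw [integral_prod]
  · rw [intervalIntegral.integral_of_le zero_le_one]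
    unfold U01
    refine integral_congr_ae (Eventually.of_forall fun u => ?_)
    simp only
    rw [intervalIntegral.integral_of_le zero_le_one]
  · refine Integrable.of_bound (C := 4) ?_ ?_
    · have : Measurable (fun p : ℝ × ℝ => fc (g (m + p.1) * κ) (l + p.2)) := by
        unfold fc; fun_prop
      exact this.aestronglyMeasurable
    · exact Eventually.of_forall fun p => by
        rw [Real.norm_eq_abs, abs_of_nonneg (fc_nonneg _ _)]; exact fc_le_four _ _

lemma exponent_box {g : ℝ → ℝ} (hg : Measurable g) (n : ℕ) :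
    ∑ c ∈ bx n, ∫ p, (Complex.exp ((hf g c p : ℂ) * Complex.I) - 1) ∂pt =
      ((-∫ τ in (0 : ℝ)..n, Ψ n (g τ) : ℝ) : ℂ) := by
  unfold bx
  rw [Finset.sum_product]
  simp_rw [Finset.sum_product]
  simp_rw [two_cell hg]
  have hmeas : ∀ (m l : ℕ), Measurable (fun u : ℝ => ∫ v in (0 : ℝ)..1, fc (g (m + u) * κ) (l + v)) := by
    intro m l
    have h1 : (fun u : ℝ => ∫ v in (0 : ℝ)..1, fc (g (m + u) * κ) (l + v)) =
        fun u => ∫ v in Set.Ioc (0 : ℝ) 1, fc (g (m + u) * κ) (l + v) := by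
      ext u; rw [intervalIntegral.integral_of_le zero_le_one]
    rw [h1]
    have hm : StronglyMeasurable (fun p : ℝ × ℝ => fc (g (m + p.1) * κ) (l + p.2)) := by
      apply Measurable.stronglyMeasurable
      unfold fc; fun_prop
    exact (hm.integral_prod_right (ν := volume.restrict (Set.Ioc (0 : ℝ) 1))).measurable
  have hbd : ∀ (m l : ℕ) (u : ℝ), |∫ v in (0 : ℝ)..1, fc (g (m + u) * κ) (l + v)| ≤ 4 := by
    intro m l u
    have := intervalIntegral.norm_integral_le_of_norm_le_const (a := (0:ℝ)) (b := 1) (C := 4)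
      (f := fun v => fc (g (m + u) * κ) (l + v)) (fun v _ => by
        rw [Real.norm_eq_abs, abs_of_nonneg (fc_nonneg _ _)]; exact fc_le_four _ _)
    simpa using this
  have h1 : ∀ m ∈ Finset.range n, ∑ l ∈ Finset.range n,
      ((-∫ u in (0 : ℝ)..1, ∫ v in (0 : ℝ)..1, fc (g (m + u) * κ) (l + v) : ℝ) : ℂ) =
      ((-∫ u in (0 : ℝ)..1, Ψ n (g (m + u)) : ℝ) : ℂ) := by
    intro m _
    rw [← Complex.ofReal_sum]
    congr 1
    rw [Finset.sum_neg_distrib, ← intervalIntegral.integral_finsetSum]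
    · congr 1
      refine intervalIntegral.integral_congr fun u _ => ?_
      exact sum_unit n (g (m + u))
    · intro l _
      refine (intervalIntegrable_iff_integrableOn_Ioc_of_le zero_le_one).mpr ?_
      refine Measure.integrableOn_of_bounded (M := 4) (by simp) (hmeas m l).aestronglyMeasurable ?_
      exact Eventually.of_forall fun u => hbd m l u
  rw [Finset.sum_congr rfl h1, ← Complex.ofReal_sum]
  congr 1
  rw [Finset.sum_neg_distrib]
  congr 1
  have h2 : ∀ m ∈ Finset.range n, ∫ u in (0 : ℝ)..1, Ψ n (g (m + u)) =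
      ∫ τ in ((m : ℕ) : ℝ)..((m + 1 : ℕ) : ℝ), Ψ n (g τ) := by
    intro m _
    rw [intervalIntegral.integral_comp_add_left (fun τ => Ψ n (g τ)) (m : ℝ)]
    simp
  rw [Finset.sum_congr rfl h2, intervalIntegral.sum_integral_adjacent_intervals]
  · simp
  · intro k _
    refine (intervalIntegrable_iff_integrableOn_Ioc_of_le (by exact_mod_cast Nat.le_succ k)).mpr ?_
    refine Measure.integrableOn_of_bounded (M := 4 * n) (by simp)
      ((measurable_Ψ n).comp hg).aestronglyMeasurable ?_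
    refine Eventually.of_forall fun τ => ?_
    rw [Real.norm_eq_abs]
    have := intervalIntegral.norm_integral_le_of_norm_le_const (a := (0:ℝ)) (b := n) (C := 4)
      (f := fun v => fc (g τ * κ) v) (fun v _ => by
        rw [Real.norm_eq_abs, abs_of_nonneg (fc_nonneg _ _)]; exact fc_le_four _ _)
    simpa [Ψ] using this

lemma char_box {g : ℝ → ℝ} (hg : Measurable g) (n : ℕ) :
    ∫ ω, Complex.exp (((∑ c ∈ bx n, Sf (hf g c) (ω c) : ℝ) : ℂ) * Complex.I) ∂PP =
      Complex.exp (((-∫ τ in (0 : ℝ)..n, Ψ n (g τ) : ℝ)) : ℂ) := by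
  have h1 : ∀ ω : Om, Complex.exp (((∑ c ∈ bx n, Sf (hf g c) (ω c) : ℝ) : ℂ) * Complex.I) =
      ∏ c ∈ bx n, (fun (c : Idx) (x : Cell) => Complex.exp ((Sf (hf g c) x : ℂ) * Complex.I)) c (ω c) := by
    intro ω
    push_cast
    rw [Finset.sum_mul, Complex.exp_sum]
  simp_rw [h1]
  unfold PP
  rw [integral_prod_coords (fun _ : Idx => cellM) (bx n)
    (fun (c : Idx) (x : Cell) => Complex.exp ((Sf (hf g c) x : ℂ) * Complex.I))
    (fun c => by have := measurable_Sf (measurable_hf hg c); fun_prop)]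
  rw [Finset.prod_congr rfl fun c _ => cell_char (measurable_hf hg c), ← Complex.exp_sum,
    exponent_box hg n]

/-- Weights. -/
noncomputable def wgt (c : Idx) : ENNReal :=
  ENNReal.ofReal ((1 / 2) ^ c.1) * ENNReal.ofReal (1 / ((c.2.1 : ℝ) + 1) ^ 2)

lemma tsum_wgt : ∑' c : Idx, wgt c ≠ ⊤ := by
  unfold wgt
  rw [ENNReal.tsum_prod']
  simp_rw [ENNReal.tsum_prod']
  simp only [tsum_bool]
  have h1 : ∑' m : ℕ, ENNReal.ofReal ((1 / 2 : ℝ) ^ m) ≠ ⊤ := by
    rw [← ENNReal.ofReal_tsum_of_nonneg (fun m => by positivity) summable_geometric_two]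
    exact ENNReal.ofReal_ne_top
  have h2 : ∑' l : ℕ, ENNReal.ofReal (1 / ((l : ℝ) + 1) ^ 2) ≠ ⊤ := by
    have hs : Summable (fun l : ℕ => 1 / ((l : ℝ) + 1) ^ 2) := by
      have := (summable_nat_add_iff 1).mpr (Real.summable_one_div_nat_pow.mpr one_lt_two)
      refine this.congr fun l => ?_
      push_cast; rfl
    rw [← ENNReal.ofReal_tsum_of_nonneg (fun l => by positivity) hs]
    exact ENNReal.ofReal_ne_top
  have h3 : ∀ m : ℕ, ∑' l : ℕ, (ENNReal.ofReal ((1 / 2 : ℝ) ^ m) * ENNReal.ofReal (1 / ((l : ℝ) + 1) ^ 2) +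
      ENNReal.ofReal ((1 / 2 : ℝ) ^ m) * ENNReal.ofReal (1 / ((l : ℝ) + 1) ^ 2)) =
      ENNReal.ofReal ((1 / 2 : ℝ) ^ m) * (2 * ∑' l : ℕ, ENNReal.ofReal (1 / ((l : ℝ) + 1) ^ 2)) := by
    intro m
    rw [← ENNReal.tsum_mul_left, ← ENNReal.tsum_mul_left]
    refine tsum_congr fun l => ?_
    ring
  simp_rw [h3]
  rw [ENNReal.tsum_mul_right]
  exact ENNReal.mul_ne_top h1 (ENNReal.mul_ne_top (by norm_num) h2)

/-- Weighted number of points. -/
noncomputable def TT (ω : Om) : ENNReal := ∑' c : Idx, wgt c * ((ω c).1 : ENNReal)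

lemma measurable_num (c : Idx) : Measurable fun ω : Om => ((ω c).1 : ENNReal) := by
  have : Measurable fun x : Cell => (x.1 : ENNReal) := by fun_prop
  exact this.comp (measurable_pi_apply c)

lemma measurable_TT : Measurable TT := by
  unfold TT
  exact Measurable.tsum fun c => (measurable_num c).const_mul _

lemma lintegral_TT : ∫⁻ ω, TT ω ∂PP ≠ ⊤ := by
  unfold TT
  rw [lintegral_tsum fun c => ((measurable_num c).const_mul _).aemeasurable]
  have h1 : ∀ c : Idx, ∫⁻ ω, wgt c * ((ω c).1 : ENNReal) ∂PP =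
      wgt c * ∫⁻ x : Cell, (x.1 : ENNReal) ∂cellM := by
    intro c
    rw [lintegral_const_mul _ (measurable_num c)]
    congr 1
    unfold PP
    exact (measurePreserving_eval_infinitePi (fun _ : Idx => cellM) c).lintegral_comp
      (f := fun x : Cell => (x.1 : ENNReal)) (by fun_prop)
  simp_rw [h1]
  rw [ENNReal.tsum_mul_right]
  exact ENNReal.mul_ne_top tsum_wgt lintegral_num

/-- The good event. -/
def Good : Set Om := {ω | TT ω ≠ ⊤ ∧ ∀ (c : Idx) (i : ℕ), ((ω c).2 i).1 ∈ Set.Ioc (0:ℝ) 1 ∧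
  ((ω c).2 i).2 ∈ Set.Ioc (0:ℝ) 1}

lemma measurableSet_Good : MeasurableSet Good := by
  have h : Good = {ω : Om | TT ω ≠ ⊤} ∩ ⋂ (c : Idx), ⋂ (i : ℕ),
      ({ω : Om | ((ω c).2 i).1 ∈ Set.Ioc (0:ℝ) 1} ∩ {ω : Om | ((ω c).2 i).2 ∈ Set.Ioc (0:ℝ) 1}) := by
    ext ω
    simp [Good]
  rw [h]
  refine MeasurableSet.inter ?_ ?_
  · exact (measurableSet_singleton ⊤).compl.preimage measurable_TT
  · refine MeasurableSet.iInter fun c => MeasurableSet.iInter fun i => ?_
    refine MeasurableSet.inter ?_ ?_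
    · have : Measurable fun ω : Om => ((ω c).2 i).1 := by fun_prop
      exact this measurableSet_Ioc
    · have : Measurable fun ω : Om => ((ω c).2 i).2 := by fun_prop
      exact this measurableSet_Ioc

lemma pt_ae : ∀ᵐ p ∂pt, p.1 ∈ Set.Ioc (0:ℝ) 1 ∧ p.2 ∈ Set.Ioc (0:ℝ) 1 := by
  unfold pt
  have h1 : ∀ᵐ x ∂U01, x ∈ Set.Ioc (0:ℝ) 1 := ae_restrict_mem measurableSet_Ioc
  have h2 : ∀ᵐ p : ℝ × ℝ ∂(U01.prod U01), p.1 ∈ Set.Ioc (0:ℝ) 1 :=
    Measure.quasiMeasurePreserving_fst.ae h1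
  have h3 : ∀ᵐ p : ℝ × ℝ ∂(U01.prod U01), p.2 ∈ Set.Ioc (0:ℝ) 1 :=
    Measure.quasiMeasurePreserving_snd.ae h1
  filter_upwards [h2, h3] with p h4 h5 using ⟨h4, h5⟩

lemma ae_Good : ∀ᵐ ω ∂PP, ω ∈ Good := by
  have h1 : ∀ᵐ ω ∂PP, TT ω ≠ ⊤ :=
    (ae_lt_top measurable_TT lintegral_TT).mono fun ω h => h.ne
  have h2 : ∀ᵐ ω ∂PP, ∀ (c : Idx) (i : ℕ), ((ω c).2 i).1 ∈ Set.Ioc (0:ℝ) 1 ∧
      ((ω c).2 i).2 ∈ Set.Ioc (0:ℝ) 1 := by
    rw [ae_all_iff]; intro c
    rw [ae_all_iff]; intro i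
    have q1 : ∀ᵐ e ∂(Measure.infinitePi fun _ : ℕ => pt), (e i).1 ∈ Set.Ioc (0:ℝ) 1 ∧
        (e i).2 ∈ Set.Ioc (0:ℝ) 1 :=
      (measurePreserving_eval_infinitePi (fun _ : ℕ => pt) i).quasiMeasurePreserving.ae pt_ae
    have q2 : ∀ᵐ x : Cell ∂cellM, (x.2 i).1 ∈ Set.Ioc (0:ℝ) 1 ∧ (x.2 i).2 ∈ Set.Ioc (0:ℝ) 1 := by
      unfold cellM
      exact Measure.quasiMeasurePreserving_snd.ae q1
    unfold PP
    exact (measurePreserving_eval_infinitePi (fun _ : Idx => cellM) c).quasiMeasurePreserving.ae q2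
  filter_upwards [h1, h2] with ω h3 h4 using ⟨h3, h4⟩

end Pool.Agent.R978.Stable
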