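import Pool.Agent.R978.StableProc

set_option autoImplicit false

open MeasureTheory ProbabilityTheory Filter Topology

namespace Pool.Agent.R978.Stable

/-- Total jump size in the cell `c`, for cells with time index below `M`. -/
noncomputable def Bd (M : ℕ) (ω : Om) (c : Idx) : ℝ :=
  if c.1 < M then ∑ i ∈ Finset.range (ω c).1, κ / ((c.2.1 : ℝ) + ((ω c).2 i).2) ^ 11 else 0

lemma Bd_nonneg (M : ℕ) {ω : Om} (hω : ω ∈ Good) (c : Idx) : 0 ≤ Bd M ω c := by
  unfold Bd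
  split_ifs
  · refine Finset.sum_nonneg fun i _ => ?_
    have h1 := (hω.2 c i).2.1
    have := κ_pos
    positivity
  · exact le_rfl

lemma toReal_wgt (c : Idx) (N : ℕ) : (wgt c * (N : ENNReal)).toReal =
    (1 / 2) ^ c.1 * (1 / ((c.2.1 : ℝ) + 1) ^ 2) * N := by
  unfold wgt
  rw [ENNReal.toReal_mul, ENNReal.toReal_mul, ENNReal.toReal_ofReal (by positivity),
    ENNReal.toReal_ofReal (by positivity), ENNReal.toReal_natCast]

lemma jump_le {l : ℕ} (hl : 1 ≤ l) {v : ℝ} (hv : 0 < v) :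
    κ / ((l : ℝ) + v) ^ 11 ≤ 4 * κ * (1 / ((l : ℝ) + 1) ^ 2) := by
  have hκ := κ_pos
  have hl' : (1 : ℝ) ≤ l := by exact_mod_cast hl
  have h1 : ((l : ℝ) + 1) ^ 2 / 4 ≤ ((l : ℝ) + v) ^ 11 := by
    calc ((l : ℝ) + 1) ^ 2 / 4 ≤ (l : ℝ) ^ 2 := by nlinarith
      _ ≤ (l : ℝ) ^ 11 := pow_le_pow_right₀ hl' (by norm_num)
      _ ≤ ((l : ℝ) + v) ^ 11 := by gcongr; linarith
  calc κ / ((l : ℝ) + v) ^ 11 ≤ κ / (((l : ℝ) + 1) ^ 2 / 4) := by gcongr
    _ = 4 * κ * (1 / ((l : ℝ) + 1) ^ 2) := by field_simp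

lemma summable_wr {ω : Om} (hω : ω ∈ Good) :
    Summable fun c : Idx => (1 / 2 : ℝ) ^ c.1 * (1 / ((c.2.1 : ℝ) + 1) ^ 2) * (ω c).1 := by
  have := ENNReal.summable_toReal hω.1
  refine this.congr fun c => ?_
  exact toReal_wgt c _

lemma summable_Bd (M : ℕ) {ω : Om} (hω : ω ∈ Good) : Summable (Bd M ω) := by
  have hκ := κ_pos
  set s : Finset Idx := Finset.range M ×ˢ (({0} : Finset ℕ) ×ˢ Finset.univ) with hs
  have h1 : Summable (fun c : Idx => if c ∈ s then Bd M ω c else 0) :=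
    summable_of_ne_finset_zero (s := s) fun c hc => if_neg hc
  have h2 := (summable_wr hω).mul_left (4 * κ * 2 ^ M)
  refine Summable.of_nonneg_of_le (Bd_nonneg M hω) (fun c => ?_) (h1.add h2)
  by_cases hc : c ∈ s
  · rw [if_pos hc]
    have : 0 ≤ 4 * κ * 2 ^ M * ((1 / 2 : ℝ) ^ c.1 * (1 / ((c.2.1 : ℝ) + 1) ^ 2) * (ω c).1) := by
      positivity
    linarith
  · rw [if_neg hc, zero_add]
    unfold Bd
    split_ifs with hm
    · have hl : 1 ≤ c.2.1 := by
        by_contra hcon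
        apply hc
        rw [hs]
        simp only [Finset.mem_product, Finset.mem_range, Finset.mem_singleton, Finset.mem_univ,
          and_true]
        exact ⟨hm, by omega⟩
      have h3 : (1 : ℝ) ≤ 2 ^ M * (1 / 2) ^ c.1 := by
        have : (2 : ℝ) ^ M = 2 ^ (M - c.1) * 2 ^ c.1 := by rw [← pow_add]; congr 1; omega
        rw [this, mul_assoc, ← mul_pow]
        norm_num
        exact one_le_pow₀ (by norm_num)
      calc ∑ i ∈ Finset.range (ω c).1, κ / ((c.2.1 : ℝ) + ((ω c).2 i).2) ^ 11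
          ≤ ∑ i ∈ Finset.range (ω c).1, 4 * κ * (1 / ((c.2.1 : ℝ) + 1) ^ 2) :=
            Finset.sum_le_sum fun i _ => jump_le hl (hω.2 c i).2.1
        _ = 4 * κ * (1 / ((c.2.1 : ℝ) + 1) ^ 2) * (ω c).1 * 1 := by
            rw [Finset.sum_const, Finset.card_range, nsmul_eq_mul]; ring
        _ ≤ 4 * κ * (1 / ((c.2.1 : ℝ) + 1) ^ 2) * (ω c).1 * (2 ^ M * (1 / 2) ^ c.1) := by gcongr
        _ = _ := by ring
    · positivity

lemma Sf_le {g : ℝ → ℝ} {G : ℝ} (hG : ∀ τ, |g τ| ≤ G) {M : ℕ} (hM : ∀ τ, (M : ℝ) < τ → g τ = 0)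
    {ω : Om} (hω : ω ∈ Good) (c : Idx) : |Sf (hf g c) (ω c)| ≤ G * Bd M ω c := by
  have hκ := κ_pos
  unfold Sf Bd
  split_ifs with hc
  · rw [Finset.mul_sum]
    refine (Finset.abs_sum_le_sum_abs _ _).trans (Finset.sum_le_sum fun i _ => ?_)
    unfold hf
    have hv := (hω.2 c i).2.1
    have h1 : |sgn c.2.2| = 1 := by unfold sgn; split_ifs <;> simp
    rw [abs_mul, abs_mul, h1, one_mul, abs_of_pos (by positivity), mul_comm]
    have : 0 ≤ κ / ((c.2.1 : ℝ) + ((ω c).2 i).2) ^ 11 := by positivity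
    exact mul_le_mul_of_nonneg_right (hG _) this
  · rw [mul_zero]
    refine le_of_eq ?_
    rw [abs_eq_zero]
    refine Finset.sum_eq_zero fun i _ => ?_
    unfold hf
    rw [hM, mul_zero]
    have hu := (hω.2 c i).1.1
    have : (M : ℝ) ≤ c.1 := by exact_mod_cast not_lt.mp hc
    linarith

/-- The stochastic integral. -/
noncomputable def II (g : ℝ → ℝ) (ω : Om) : ℝ := ∑' c : Idx, Sf (hf g c) (ω c)

lemma measurable_II {g : ℝ → ℝ} (hg : Measurable g) : Measurable (II g) := by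
  unfold II
  exact Measurable.tsum fun c => (measurable_Sf (measurable_hf hg c)).comp (measurable_pi_apply c)

lemma summable_II {g : ℝ → ℝ} {G : ℝ} (hG : ∀ τ, |g τ| ≤ G) {M : ℕ}
    (hM : ∀ τ, (M : ℝ) < τ → g τ = 0) {ω : Om} (hω : ω ∈ Good) :
    Summable fun c : Idx => Sf (hf g c) (ω c) :=
  Summable.of_norm_bounded ((summable_Bd M hω).mul_left G) fun c => Sf_le hG hM hω c

lemma exponent_tendsto {g : ℝ → ℝ} (hg : Measurable g) {G : ℝ} (hG : ∀ τ, |g τ| ≤ G) {M : ℕ}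
    (hM : ∀ τ, (M : ℝ) < τ → g τ = 0) :
    Tendsto (fun n : ℕ => ∫ τ in (0 : ℝ)..n, Ψ n (g τ)) atTop
      (𝓝 (∫ τ in Set.Ioi (0 : ℝ), |g τ| ^ (1 / 11 : ℝ))) := by
  have hG0 : 0 ≤ G := (abs_nonneg _).trans (hG 0)
  have h1 : ∀ n : ℕ, ∫ τ in (0 : ℝ)..n, Ψ n (g τ) =
      ∫ τ in Set.Ioi (0 : ℝ), Set.indicator (Set.Ioc (0 : ℝ) n) (fun τ => Ψ n (g τ)) τ := by
    intro n
    rw [intervalIntegral.integral_of_le (Nat.cast_nonneg n),
      setIntegral_indicator measurableSet_Ioc]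
    congr 2
    ext x; simp
  simp_rw [h1]
  refine tendsto_integral_of_dominated_convergence
    (bound := Set.indicator (Set.Ioc (0 : ℝ) M) (fun _ => G ^ (1 / 11 : ℝ))) ?_ ?_ ?_ ?_
  · intro n
    exact (((measurable_Ψ n).comp hg).indicator measurableSet_Ioc).aestronglyMeasurable
  · have : Integrable (Set.indicator (Set.Ioc (0 : ℝ) M) (fun _ => G ^ (1 / 11 : ℝ))) volume := by
      rw [integrable_indicator_iff measurableSet_Ioc]
      simp
    exact this.restrict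
  · intro n
    refine (ae_restrict_iff' measurableSet_Ioi).mpr (Eventually.of_forall fun τ hτ => ?_)
    have hτ0 : (0 : ℝ) < τ := hτ
    by_cases hτM : τ ≤ M
    · rw [Set.indicator_of_mem (show τ ∈ Set.Ioc (0 : ℝ) M from ⟨hτ0, hτM⟩)]
      have h3 : ‖Ψ n (g τ)‖ ≤ G ^ (1 / 11 : ℝ) := by
        rw [Real.norm_eq_abs, abs_of_nonneg (Ψ_nonneg _ _)]
        exact (Ψ_le _ _).trans (Real.rpow_le_rpow (abs_nonneg _) (hG τ) (by norm_num))
      by_cases hn : τ ∈ Set.Ioc (0 : ℝ) n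
      · rw [Set.indicator_of_mem hn]; exact h3
      · rw [Set.indicator_of_notMem hn, norm_zero]; positivity
    · push Not at hτM
      rw [Set.indicator_of_notMem (show τ ∉ Set.Ioc (0 : ℝ) M from fun h => absurd h.2 (not_le.mpr hτM))]
      have h4 : Ψ n (g τ) = 0 := by
        rw [hM τ hτM]
        have := Ψ_le n 0
        rw [abs_zero, Real.zero_rpow (by norm_num)] at this
        exact le_antisymm this (Ψ_nonneg _ _)
      by_cases hn : τ ∈ Set.Ioc (0 : ℝ) n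
      · rw [Set.indicator_of_mem hn, h4, norm_zero]
      · rw [Set.indicator_of_notMem hn, norm_zero]
  · refine (ae_restrict_iff' measurableSet_Ioi).mpr (Eventually.of_forall fun τ hτ => ?_)
    have hτ0 : (0 : ℝ) < τ := hτ
    refine (Ψ_tendsto (g τ)).congr' ?_
    filter_upwards [eventually_ge_atTop ⌈τ⌉₊] with n hn
    have : τ ≤ n := (Nat.le_ceil τ).trans (by exact_mod_cast hn)
    rw [Set.indicator_of_mem (show τ ∈ Set.Ioc (0 : ℝ) n from ⟨hτ0, this⟩)]

/-- The characteristic functional. -/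
theorem char_II {g : ℝ → ℝ} (hg : Measurable g) {G : ℝ} (hG : ∀ τ, |g τ| ≤ G) {M : ℕ}
    (hM : ∀ τ, (M : ℝ) < τ → g τ = 0) :
    ∫ ω, Complex.exp ((II g ω : ℂ) * Complex.I) ∂PP =
      ((Real.exp (-∫ τ in Set.Ioi (0 : ℝ), |g τ| ^ (1 / 11 : ℝ)) : ℝ) : ℂ) := by
  have hlim1 : Tendsto (fun n : ℕ =>
      ∫ ω, Complex.exp (((∑ c ∈ bx n, Sf (hf g c) (ω c) : ℝ) : ℂ) * Complex.I) ∂PP) atTop
      (𝓝 (∫ ω, Complex.exp ((II g ω : ℂ) * Complex.I) ∂PP)) := by
    refine tendsto_integral_of_dominated_convergence (bound := fun _ => 1) ?_ ?_ ?_ ?_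
    · intro n
      have : Measurable fun ω : Om => ∑ c ∈ bx n, Sf (hf g c) (ω c) :=
        Finset.measurable_sum _ fun c _ =>
          (measurable_Sf (measurable_hf hg c)).comp (measurable_pi_apply c)
      exact (by fun_prop : Measurable fun ω : Om =>
        Complex.exp (((∑ c ∈ bx n, Sf (hf g c) (ω c) : ℝ) : ℂ) * Complex.I)).aestronglyMeasurable
    · exact integrable_const _
    · intro n
      exact Eventually.of_forall fun ω => by rw [Complex.norm_exp_ofReal_mul_I]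
    · filter_upwards [ae_Good] with ω hω
      have h1 := (summable_II hG hM hω).hasSum.comp bx_tendsto
      have hc : Continuous fun x : ℝ => Complex.exp ((x : ℂ) * Complex.I) := by fun_prop
      exact (hc.tendsto _).comp h1
  simp_rw [char_box hg] at hlim1
  have hlim2 : Tendsto (fun n : ℕ => Complex.exp (((-∫ τ in (0 : ℝ)..n, Ψ n (g τ) : ℝ)) : ℂ)) atTop
      (𝓝 (Complex.exp (((-∫ τ in Set.Ioi (0 : ℝ), |g τ| ^ (1 / 11 : ℝ)) : ℝ) : ℂ))) := by
    have h1 := (exponent_tendsto hg hG hM).neg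
    have hc : Continuous fun x : ℝ => Complex.exp (x : ℂ) := by fun_prop
    exact (hc.tendsto _).comp h1
  rw [Complex.ofReal_exp]
  exact tendsto_nhds_unique hlim1 hlim2

end Pool.Agent.R978.Stable
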