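import Pool.Agent.R978.StableProc2

set_option autoImplicit false

open MeasureTheory ProbabilityTheory Filter Topology

namespace Pool.Agent.R978.Stable

/-- Indicator of `(-∞, t]`. -/
noncomputable def gt (t : ℝ) : ℝ → ℝ := Set.indicator (Set.Iic t) (fun _ => (1 : ℝ))

/-- The process. -/
noncomputable def X (t : ℝ) (ω : Om) : ℝ := II (gt t) ω

lemma measurable_gt (t : ℝ) : Measurable (gt t) := measurable_const.indicator measurableSet_Iic

lemma measurable_X (t : ℝ) : Measurable (X t) := measurable_II (measurable_gt t)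

lemma gt_abs (t τ : ℝ) : |gt t τ| ≤ 1 := by
  unfold gt
  by_cases h : τ ∈ Set.Iic t
  · rw [Set.indicator_of_mem h]; simp
  · rw [Set.indicator_of_notMem h]; simp

lemma gt_zero {t : ℝ} {M : ℕ} (hM : t ≤ M) : ∀ τ, (M : ℝ) < τ → gt t τ = 0 := by
  intro τ hτ
  have hn : τ ∉ Set.Iic t := fun h => absurd (h : τ ≤ t) (not_le.mpr (lt_of_le_of_lt hM hτ))
  unfold gt
  exact Set.indicator_of_notMem hn _

lemma X_zero {ω : Om} (hω : ω ∈ Good) : X 0 ω = 0 := by
  unfold X II
  have : ∀ c : Idx, Sf (hf (gt 0) c) (ω c) = 0 := by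
    intro c
    unfold Sf
    refine Finset.sum_eq_zero fun i _ => ?_
    unfold hf
    have hu := (hω.2 c i).1.1
    have : gt 0 ((c.1 : ℝ) + ((ω c).2 i).1) = 0 := by
      unfold gt
      refine Set.indicator_of_notMem (fun h => ?_) _
      have h' : (c.1 : ℝ) + ((ω c).2 i).1 ≤ 0 := h
      have : (0 : ℝ) ≤ c.1 := Nat.cast_nonneg _
      linarith
    rw [this, mul_zero]
  simp [this]

/-- Convergence of the path along a filter on times. -/
lemma path_tendsto {ω : Om} (hω : ω ∈ Good) {F : Filter ℝ} {M : ℕ} (hF : ∀ᶠ s : ℝ in F, s ≤ (M : ℝ))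
    (lim : ℝ → ℝ) (hlim : ∀ τ, ∀ᶠ s in F, gt s τ = lim τ) :
    Tendsto (fun s => X s ω) F (𝓝 (II lim ω)) := by
  unfold X II
  refine tendsto_tsum_of_dominated_convergence (bound := fun c => 1 * Bd M ω c)
    ((summable_Bd M hω).mul_left 1) ?_ ?_
  · intro c
    unfold Sf
    refine tendsto_finsetSum _ fun i _ => ?_
    unfold hf
    refine Tendsto.const_mul _ ?_
    refine tendsto_const_nhds.congr' ?_
    filter_upwards [hlim ((c.1 : ℝ) + ((ω c).2 i).1)] with s hs
    exact hs.symm
  · filter_upwards [hF] with s hs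
    intro c
    exact Sf_le (gt_abs s) (gt_zero hs) hω c

lemma right_cont {ω : Om} (hω : ω ∈ Good) (t : ℝ) :
    ContinuousWithinAt (fun s => X s ω) (Set.Ici t) t := by
  obtain ⟨M, hM⟩ := exists_nat_gt (t + 1)
  have h := path_tendsto (F := 𝓝[≥] t) (M := M) hω ?_ (gt t) ?_
  · exact h
  · have : ∀ᶠ s : ℝ in 𝓝 t, s < (M : ℝ) := gt_mem_nhds (by linarith)
    exact (this.filter_mono nhdsWithin_le_nhds).mono fun s hs => hs.le
  · intro τ
    rcases le_or_gt τ t with h | h
    · filter_upwards [self_mem_nhdsWithin] with s hs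
      have hs' : t ≤ s := hs
      unfold gt
      rw [Set.indicator_of_mem (show τ ∈ Set.Iic s from h.trans hs'),
        Set.indicator_of_mem (show τ ∈ Set.Iic t from h)]
    · have : ∀ᶠ s in 𝓝 t, s < τ := gt_mem_nhds h
      filter_upwards [this.filter_mono nhdsWithin_le_nhds] with s hs
      unfold gt
      rw [Set.indicator_of_notMem (show τ ∉ Set.Iic s from fun h' => absurd h' (not_le.mpr hs)),
        Set.indicator_of_notMem (show τ ∉ Set.Iic t from fun h' => absurd h' (not_le.mpr h))]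

lemma left_lim {ω : Om} (hω : ω ∈ Good) (t : ℝ) :
    ∃ l : ℝ, Tendsto (fun s => X s ω) (𝓝[<] t) (𝓝 l) := by
  obtain ⟨M, hM⟩ := exists_nat_gt (t + 1)
  refine ⟨_, path_tendsto (F := 𝓝[<] t) (M := M) hω ?_
    (Set.indicator (Set.Iio t) (fun _ => (1 : ℝ))) ?_⟩
  · have : ∀ᶠ s : ℝ in 𝓝 t, s < (M : ℝ) := gt_mem_nhds (by linarith)
    exact (this.filter_mono nhdsWithin_le_nhds).mono fun s hs => hs.le
  · intro τ
    rcases lt_or_ge τ t with h | h
    · have : ∀ᶠ s in 𝓝 t, τ < s := lt_mem_nhds h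
      filter_upwards [this.filter_mono nhdsWithin_le_nhds] with s hs
      unfold gt
      rw [Set.indicator_of_mem (show τ ∈ Set.Iic s from hs.le),
        Set.indicator_of_mem (show τ ∈ Set.Iio t from h)]
    · filter_upwards [self_mem_nhdsWithin] with s hs
      have hs' : s < t := hs
      unfold gt
      rw [Set.indicator_of_notMem (show τ ∉ Set.Iic s from fun h' => absurd (h' : τ ≤ s) (not_le.mpr (lt_of_lt_of_le hs' h))),
        Set.indicator_of_notMem (show τ ∉ Set.Iio t from fun h' => absurd (h' : τ < t) (not_lt.mpr h))]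

/-- Linear combinations of increments are stochastic integrals. -/
lemma sum_incr {n : ℕ} (a b : Fin n → ℝ) (hab : ∀ i, a i ≤ b i) (θ : Fin n → ℝ) {ω : Om}
    (hω : ω ∈ Good) :
    ∑ i, θ i * (X (b i) ω - X (a i) ω) =
      II (fun τ => ∑ i, θ i * Set.indicator (Set.Ioc (a i) (b i)) (fun _ => (1 : ℝ)) τ) ω := by
  have hsum : ∀ t : ℝ, Summable fun c : Idx => Sf (hf (gt t) c) (ω c) := by
    intro t
    obtain ⟨M, hM⟩ := exists_nat_ge t
    exact summable_II (gt_abs t) (gt_zero hM) hω
  have h1 : ∀ i, θ i * (X (b i) ω - X (a i) ω) =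
      ∑' c : Idx, θ i * (Sf (hf (gt (b i)) c) (ω c) - Sf (hf (gt (a i)) c) (ω c)) := by
    intro i
    unfold X II
    rw [← (hsum (b i)).tsum_sub (hsum (a i)), tsum_mul_left]
  simp_rw [h1]
  rw [← Summable.tsum_finsetSum fun i _ => ((hsum (b i)).sub (hsum (a i))).mul_left (θ i)]
  unfold II
  refine tsum_congr fun c => ?_
  unfold Sf
  simp_rw [← Finset.sum_sub_distrib, Finset.mul_sum]
  rw [Finset.sum_comm]
  refine Finset.sum_congr rfl fun k _ => ?_
  unfold hf
  rw [Finset.mul_sum]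
  refine Finset.sum_congr rfl fun i _ => ?_
  set τ := (c.1 : ℝ) + ((ω c).2 k).1
  have h2 : gt (b i) τ - gt (a i) τ = Set.indicator (Set.Ioc (a i) (b i)) (fun _ => (1 : ℝ)) τ := by
    unfold gt
    by_cases h3 : τ ≤ a i
    · rw [Set.indicator_of_mem (show τ ∈ Set.Iic (b i) from h3.trans (hab i)),
        Set.indicator_of_mem (show τ ∈ Set.Iic (a i) from h3),
        Set.indicator_of_notMem (fun h => absurd h.1 (not_lt.mpr h3)), sub_self]
    · push Not at h3
      by_cases h4 : τ ≤ b i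
      · rw [Set.indicator_of_mem (show τ ∈ Set.Iic (b i) from h4),
          Set.indicator_of_notMem (show τ ∉ Set.Iic (a i) from not_le.mpr h3),
          Set.indicator_of_mem (show τ ∈ Set.Ioc (a i) (b i) from ⟨h3, h4⟩), sub_zero]
      · rw [Set.indicator_of_notMem (show τ ∉ Set.Iic (b i) from h4),
          Set.indicator_of_notMem (show τ ∉ Set.Iic (a i) from not_le.mpr h3),
          Set.indicator_of_notMem (show τ ∉ Set.Ioc (a i) (b i) from fun h => h4 h.2), sub_zero]
  rw [← h2]; ring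

/-- Joint characteristic function of increments over disjoint intervals. -/
lemma char_incr {n : ℕ} (a b : Fin n → ℝ) (ha : ∀ i, 0 ≤ a i) (hab : ∀ i, a i ≤ b i)
    (hdisj : ∀ i j, i < j → b i ≤ a j) (θ : Fin n → ℝ) :
    ∫ ω, Complex.exp (((∑ i, θ i * (X (b i) ω - X (a i) ω) : ℝ) : ℂ) * Complex.I) ∂PP =
      ((Real.exp (-∑ i, (b i - a i) * |θ i| ^ (1 / 11 : ℝ)) : ℝ) : ℂ) := by
  set g : ℝ → ℝ := fun τ => ∑ i, θ i * Set.indicator (Set.Ioc (a i) (b i)) (fun _ => (1 : ℝ)) τ
    with hg
  have hgm : Measurable g := by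
    refine Finset.measurable_sum _ fun i _ => ?_
    exact (measurable_const.indicator measurableSet_Ioc).const_mul _
  have hgG : ∀ τ, |g τ| ≤ ∑ i, |θ i| := by
    intro τ
    refine (Finset.abs_sum_le_sum_abs _ _).trans (Finset.sum_le_sum fun i _ => ?_)
    rw [abs_mul]
    by_cases h : τ ∈ Set.Ioc (a i) (b i)
    · rw [Set.indicator_of_mem h]; simp
    · rw [Set.indicator_of_notMem h]; simp
  obtain ⟨M, hM⟩ : ∃ M : ℕ, ∀ i, b i ≤ M := by
    obtain ⟨M, hM⟩ := exists_nat_ge (∑ i, |b i|)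
    exact ⟨M, fun i => (le_abs_self _).trans ((Finset.single_le_sum (f := fun i => |b i|)
      (fun i _ => abs_nonneg _) (Finset.mem_univ i)).trans hM)⟩
  have hgM : ∀ τ, (M : ℝ) < τ → g τ = 0 := by
    intro τ hτ
    refine Finset.sum_eq_zero fun i _ => ?_
    rw [Set.indicator_of_notMem (fun h => absurd h.2 (not_le.mpr ((hM i).trans_lt hτ))), mul_zero]
  have h1 : ∫ ω, Complex.exp (((∑ i, θ i * (X (b i) ω - X (a i) ω) : ℝ) : ℂ) * Complex.I) ∂PP =
      ∫ ω, Complex.exp ((II g ω : ℂ) * Complex.I) ∂PP := by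
    refine integral_congr_ae ?_
    filter_upwards [ae_Good] with ω hω
    rw [sum_incr a b hab θ hω]
  rw [h1, char_II hgm hgG hgM]
  congr 3
  -- the exponent
  have h2 : ∀ τ, |g τ| ^ (1 / 11 : ℝ) =
      ∑ i, Set.indicator (Set.Ioc (a i) (b i)) (fun _ => |θ i| ^ (1 / 11 : ℝ)) τ := by
    intro τ
    by_cases hex : ∃ i, τ ∈ Set.Ioc (a i) (b i)
    · obtain ⟨i, hi⟩ := hex
      have hne : ∀ j, j ≠ i → τ ∉ Set.Ioc (a j) (b j) := by
        intro j hj hjm
        rcases lt_or_gt_of_ne hj with h | h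
        · exact absurd (hi.1.trans_le hjm.2) (not_lt.mpr (hdisj j i h))
        · exact absurd (hjm.1.trans_le hi.2) (not_lt.mpr (hdisj i j h))
      simp only [hg]
      rw [Finset.sum_eq_single i, Finset.sum_eq_single i]
      · rw [Set.indicator_of_mem hi, Set.indicator_of_mem hi, mul_one]
      · intro j _ hj; exact Set.indicator_of_notMem (hne j hj) _
      · simp
      · intro j _ hj; rw [Set.indicator_of_notMem (hne j hj), mul_zero]
      · simp
    · push Not at hex
      simp only [hg]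
      rw [Finset.sum_eq_zero, Finset.sum_eq_zero, abs_zero, Real.zero_rpow (by norm_num)]
      · intro i _; exact Set.indicator_of_notMem (hex i) _
      · intro i _; rw [Set.indicator_of_notMem (hex i), mul_zero]
  simp_rw [h2]
  rw [integral_finsetSum]
  · refine Finset.sum_congr rfl fun i _ => ?_
    rw [integral_indicator measurableSet_Ioc, Measure.restrict_restrict measurableSet_Ioc]
    have : Set.Ioc (a i) (b i) ∩ Set.Ioi 0 = Set.Ioc (a i) (b i) := by
      rw [Set.inter_eq_left]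
      intro x hx
      exact (ha i).trans_lt hx.1
    rw [this]
    simp [hab i]
  · intro i _
    have : Integrable (Set.indicator (Set.Ioc (a i) (b i)) (fun _ => |θ i| ^ (1 / 11 : ℝ))) volume := by
      rw [integrable_indicator_iff measurableSet_Ioc]
      simp
    exact this.restrict

lemma char_one {s t : ℝ} (hs : 0 ≤ s) (hst : s ≤ t) (ξ : ℝ) :
    ∫ ω, Complex.exp (((ξ * (X t ω - X s ω) : ℝ) : ℂ) * Complex.I) ∂PP =
      ((Real.exp (-(t - s) * |ξ| ^ (1 / 11 : ℝ)) : ℝ) : ℂ) := by
  have h := char_incr (n := 1) (fun _ => s) (fun _ => t) (fun _ => hs) (fun _ => hst)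
    (fun i j h => absurd h (by rw [Subsingleton.elim i j]; exact lt_irrefl _)) (fun _ => ξ)
  simp only [Finset.univ_unique, Fin.default_eq_zero, Fin.isValue, Finset.sum_const,
    Finset.card_singleton, one_smul] at h
  rw [h]
  congr 2
  ring

lemma indep {n : ℕ} (t : Fin (n + 1) → ℝ) (h0 : 0 ≤ t 0) (ht : StrictMono t) :
    iIndepFun (fun (i : Fin n) (ω : Om) => X (t i.succ) ω - X (t i.castSucc) ω) PP := by
  have hpos : ∀ i : Fin (n + 1), 0 ≤ t i := fun i => h0.trans (ht.monotone (Fin.zero_le i))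
  have hle : ∀ i : Fin n, t i.castSucc ≤ t i.succ := fun i =>
    (ht (Fin.castSucc_lt_succ)).le
  have hdisj : ∀ i j : Fin n, i < j → t i.succ ≤ t j.castSucc := by
    intro i j hij
    apply ht.monotone
    rw [Fin.le_def]
    simp only [Fin.val_succ, Fin.val_castSucc]
    exact hij
  have hm : ∀ i : Fin n, Measurable (fun ω : Om => X (t i.succ) ω - X (t i.castSucc) ω) :=
    fun i => (measurable_X _).sub (measurable_X _)
  rw [iIndepFun_iff_charFun_pi (fun i => (hm i).aemeasurable)]
  intro θ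
  have hL : charFun (PP.map fun ω => WithLp.toLp 2 fun i : Fin n => X (t i.succ) ω - X (t i.castSucc) ω) θ =
      ∫ ω, Complex.exp (((∑ i : Fin n, θ i * (X (t i.succ) ω - X (t i.castSucc) ω) : ℝ) : ℂ) * Complex.I) ∂PP := by
    rw [charFun_apply, integral_map]
    · refine integral_congr_ae (Eventually.of_forall fun ω => ?_)
      congr 3
    · apply Measurable.aemeasurable
      have : Measurable fun ω : Om => fun i : Fin n => X (t i.succ) ω - X (t i.castSucc) ω :=
        measurable_pi_lambda _ hm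
      fun_prop
    · fun_prop
  rw [hL, char_incr _ _ (fun i => hpos _) hle hdisj]
  have hR : ∀ i : Fin n, charFun (PP.map fun ω => X (t i.succ) ω - X (t i.castSucc) ω) (θ i) =
      ((Real.exp (-(t i.succ - t i.castSucc) * |θ i| ^ (1 / 11 : ℝ)) : ℝ) : ℂ) := by
    intro i
    rw [← char_one (hpos _) (hle i), charFun_apply, integral_map (hm i).aemeasurable (by fun_prop)]
    refine integral_congr_ae (Eventually.of_forall fun ω => ?_)
    simp
  rw [Finset.prod_congr rfl fun i _ => hR i, ← Complex.ofReal_prod, ← Real.exp_sum]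
  congr 2
  rw [← Finset.sum_neg_distrib]
  refine Finset.sum_congr rfl fun i _ => ?_
  ring

end Pool.Agent.R978.Stable
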