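import Pool.Agent.R978.StableProc3
import Pool.Agent.R978.StableDim

set_option autoImplicit false

open MeasureTheory ProbabilityTheory Filter Topology

namespace Pool.Agent.R978.Stable

lemma chain_values {ι : Type} (P : Finset ι) (τ : ι → ℝ) (a : ι → ℝ) :
    ∃ V : Finset ℝ, V.card ≤ P.card + 1 ∧ ∀ t, ∑ p ∈ P, a p * gt t (τ p) ∈ V := by
  classical
  set F : ℝ → Finset ι := fun t => P.filter (fun p => τ p ≤ t) with hF
  have hmono : ∀ s t, s ≤ t → F s ⊆ F t := by
    intro s t hst p hp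
    simp only [hF, Finset.mem_filter] at hp ⊢
    exact ⟨hp.1, hp.2.trans hst⟩
  have hinj : ∀ s t, (F s).card = (F t).card → F s = F t := by
    intro s t hc
    rcases le_total s t with h | h
    · exact Finset.eq_of_subset_of_card_le (hmono s t h) hc.ge
    · exact (Finset.eq_of_subset_of_card_le (hmono t s h) hc.le).symm
  have hval : ∀ t, ∑ p ∈ P, a p * gt t (τ p) = ∑ p ∈ F t, a p := by
    intro t
    simp only [hF]
    rw [Finset.sum_filter]
    refine Finset.sum_congr rfl fun p _ => ?_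
    unfold gt
    by_cases h : τ p ≤ t
    · rw [Set.indicator_of_mem (show τ p ∈ Set.Iic t from h), if_pos h, mul_one]
    · rw [Set.indicator_of_notMem (show τ p ∉ Set.Iic t from h), if_neg h, mul_zero]
  refine ⟨(Finset.range (P.card + 1)).image
    (fun k => if h : ∃ t, (F t).card = k then ∑ p ∈ F h.choose, a p else 0), ?_, ?_⟩
  · refine Finset.card_image_le.trans ?_
    rw [Finset.card_range]
  · intro t
    rw [hval, Finset.mem_image]
    refine ⟨(F t).card, ?_, ?_⟩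
    · rw [Finset.mem_range]
      exact Nat.lt_succ_of_le (Finset.card_le_card (Finset.filter_subset _ _))
    · have h : ∃ s, (F s).card = (F t).card := ⟨t, rfl⟩
      rw [dif_pos h, hinj _ _ h.choose_spec]

/-- The weighted number of points, as a real number. -/
noncomputable def wr (ω : Om) (c : Idx) : ℝ :=
  (1 / 2 : ℝ) ^ c.1 * (1 / ((c.2.1 : ℝ) + 1) ^ 2) * (ω c).1

lemma wr_nonneg (ω : Om) (c : Idx) : 0 ≤ wr ω c := by unfold wr; positivity

theorem covering {ω : Om} (hω : ω ∈ Good) (L : ℕ) (hL : 1 ≤ L) :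
    ∃ V : Finset ℝ, (V.card : ℝ) ≤ (∑' c, wr ω c) * (L : ℝ) ^ 2 + 1 ∧
      ∀ t ∈ Set.Icc (0 : ℝ) 1, ∃ v ∈ V, |X t ω - v| ≤ (4 * κ * ∑' c, wr ω c) / (L : ℝ) ^ 9 := by
  have hκ := κ_pos
  have hsw : Summable (wr ω) := summable_wr hω
  have hL0 : (0 : ℝ) < L := by exact_mod_cast hL
  set S : Finset Idx := ({0} : Finset ℕ) ×ˢ (Finset.range L ×ˢ Finset.univ) with hS
  obtain ⟨V, hVc, hV⟩ := chain_values (S.sigma fun c => Finset.range (ω c).1)
    (fun p => (p.1.1 : ℝ) + ((ω p.1).2 p.2).1)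
    (fun p => sgn p.1.2.2 * (κ / ((p.1.2.1 : ℝ) + ((ω p.1).2 p.2).2) ^ 11))
  refine ⟨V, ?_, ?_⟩
  · have h1 : (V.card : ℝ) ≤ ∑ c ∈ S, ((ω c).1 : ℝ) + 1 := by
      have : V.card ≤ ∑ c ∈ S, (ω c).1 + 1 := by
        refine hVc.trans ?_
        rw [Finset.card_sigma]
        simp
      exact_mod_cast this
    have h2 : ∑ c ∈ S, ((ω c).1 : ℝ) ≤ ∑ c ∈ S, (L : ℝ) ^ 2 * wr ω c := by
      refine Finset.sum_le_sum fun c hc => ?_
      rw [hS] at hc
      simp only [Finset.mem_product, Finset.mem_singleton, Finset.mem_range, Finset.mem_univ,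
        and_true] at hc
      unfold wr
      rw [hc.1, pow_zero, one_mul]
      have h3 : ((c.2.1 : ℝ) + 1) ≤ L := by exact_mod_cast hc.2
      have h4 : ((c.2.1 : ℝ) + 1) ^ 2 ≤ (L : ℝ) ^ 2 := by gcongr
      have h5 : 0 < ((c.2.1 : ℝ) + 1) ^ 2 := by positivity
      have h6 : 1 ≤ (L : ℝ) ^ 2 * (1 / ((c.2.1 : ℝ) + 1) ^ 2) := by
        rw [mul_one_div, one_le_div h5]; exact h4
      have h7 : (0 : ℝ) ≤ (ω c).1 := Nat.cast_nonneg _
      calc ((ω c).1 : ℝ) = 1 * (ω c).1 := by ring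
        _ ≤ (L : ℝ) ^ 2 * (1 / ((c.2.1 : ℝ) + 1) ^ 2) * (ω c).1 := by gcongr
        _ = _ := by ring
    have h3 : ∑ c ∈ S, (L : ℝ) ^ 2 * wr ω c ≤ (∑' c, wr ω c) * (L : ℝ) ^ 2 := by
      rw [← Finset.mul_sum, mul_comm]
      have := hsw.sum_le_tsum S fun c _ => wr_nonneg ω c
      gcongr
    linarith
  · intro t ht
    refine ⟨_, hV t, ?_⟩
    have hsumm := summable_II (g := gt t) (gt_abs t) (gt_zero (M := 1) (by simpa using ht.2)) hω
    have hle := Sf_le (g := gt t) (gt_abs t) (gt_zero (M := 1) (by simpa using ht.2)) hω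
    have h1 : ∑ p ∈ S.sigma fun c => Finset.range (ω c).1,
        sgn p.1.2.2 * (κ / ((p.1.2.1 : ℝ) + ((ω p.1).2 p.2).2) ^ 11) *
          gt t ((p.1.1 : ℝ) + ((ω p.1).2 p.2).1) = ∑ c ∈ S, Sf (hf (gt t) c) (ω c) := by
      rw [Finset.sum_sigma]
      rfl
    rw [h1]
    have h2 : X t ω - ∑ c ∈ S, Sf (hf (gt t) c) (ω c) =
        ∑' c, (if c ∈ S then 0 else Sf (hf (gt t) c) (ω c)) := by
      have h3 : Summable fun c : Idx => if c ∈ S then Sf (hf (gt t) c) (ω c) else 0 :=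
        summable_of_ne_finset_zero (s := S) fun c hc => if_neg hc
      have h4 : ∑ c ∈ S, Sf (hf (gt t) c) (ω c) =
          ∑' c, (if c ∈ S then Sf (hf (gt t) c) (ω c) else 0) := by
        rw [tsum_eq_sum (s := S) fun c hc => if_neg hc]
        exact Finset.sum_congr rfl fun c hc => (if_pos hc).symm
      unfold X II
      rw [h4, ← hsumm.tsum_sub h3]
      refine tsum_congr fun c => ?_
      split_ifs <;> ring
    rw [h2]
    have h5 : ∀ c : Idx, |(if c ∈ S then 0 else Sf (hf (gt t) c) (ω c))| ≤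
        4 * κ / (L : ℝ) ^ 9 * wr ω c := by
      intro c
      have hw := wr_nonneg ω c
      split_ifs with hc
      · rw [abs_zero]; positivity
      · refine (hle c).trans ?_
        rw [one_mul]
        unfold Bd
        split_ifs with hm
        · have hl : L ≤ c.2.1 := by
            by_contra hcon
            apply hc
            rw [hS]
            simp only [Finset.mem_product, Finset.mem_range, Finset.mem_singleton, Finset.mem_univ,
              and_true]
            exact ⟨by omega, by omega⟩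
          have hm0 : c.1 = 0 := by omega
          have hl' : (L : ℝ) ≤ c.2.1 := by exact_mod_cast hl
          have hl1 : (1 : ℝ) ≤ c.2.1 := by exact_mod_cast hL.trans hl
          have hc0 : (0 : ℝ) < c.2.1 := by linarith
          have h6 : ∀ i, κ / ((c.2.1 : ℝ) + ((ω c).2 i).2) ^ 11 ≤
              4 * κ / (L : ℝ) ^ 9 * (1 / ((c.2.1 : ℝ) + 1) ^ 2) := by
            intro i
            have hv := (hω.2 c i).2.1
            have h7 : (L : ℝ) ^ 9 * (((c.2.1 : ℝ) + 1) ^ 2 / 4) ≤ ((c.2.1 : ℝ) + ((ω c).2 i).2) ^ 11 := by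
              calc (L : ℝ) ^ 9 * (((c.2.1 : ℝ) + 1) ^ 2 / 4)
                  ≤ (c.2.1 : ℝ) ^ 9 * (c.2.1 : ℝ) ^ 2 := by
                    gcongr
                    nlinarith
                _ = (c.2.1 : ℝ) ^ 11 := by ring
                _ ≤ ((c.2.1 : ℝ) + ((ω c).2 i).2) ^ 11 := by gcongr; linarith
            calc κ / ((c.2.1 : ℝ) + ((ω c).2 i).2) ^ 11
                ≤ κ / ((L : ℝ) ^ 9 * (((c.2.1 : ℝ) + 1) ^ 2 / 4)) := by gcongr
              _ = _ := by field_simp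
          calc ∑ i ∈ Finset.range (ω c).1, κ / ((c.2.1 : ℝ) + ((ω c).2 i).2) ^ 11
              ≤ ∑ i ∈ Finset.range (ω c).1, 4 * κ / (L : ℝ) ^ 9 * (1 / ((c.2.1 : ℝ) + 1) ^ 2) :=
                Finset.sum_le_sum fun i _ => h6 i
            _ = 4 * κ / (L : ℝ) ^ 9 * wr ω c := by
                rw [Finset.sum_const, Finset.card_range, nsmul_eq_mul]
                unfold wr
                rw [hm0, pow_zero]
                ring
        · positivity
    have h6 : Summable fun c => 4 * κ / (L : ℝ) ^ 9 * wr ω c := hsw.mul_left _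
    have h7 := tsum_of_norm_bounded h6.hasSum fun c => by
      rw [Real.norm_eq_abs]; exact h5 c
    rw [Real.norm_eq_abs] at h7
    refine h7.trans (le_of_eq ?_)
    rw [tsum_mul_left]
    ring

theorem final {ω : Om} (hω : ω ∈ Good) :
    ¬ ∃ (μ : Measure (ℝ × ℝ)) (K : Set (ℝ × ℝ)),
          IsProbabilityMeasure μ ∧ IsCompact K ∧
          K ⊆ {p : ℝ × ℝ | p.1 ∈ Set.Icc (0 : ℝ) 1 ∧ p.2 = X p.1 ω} ∧
          μ Kᶜ = 0 ∧
          ∃ C : ℝ, ∀ ξ : ℝ × ℝ, 1 ≤ ‖ξ‖ →
            ‖∫ p, Complex.exp (((ξ.1 * p.1 + ξ.2 * p.2 : ℝ) : ℂ) * Complex.I) ∂μ‖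
              ≤ C * ‖ξ‖ ^ (-(1 / 2 : ℝ) / 2) := by
  have h0 : 0 ≤ ∑' c, wr ω c := tsum_nonneg fun c => wr_nonneg ω c
  have hκ := κ_pos
  exact no_measure (x := fun t => X t ω) (T := ∑' c, wr ω c) (D := 4 * κ * ∑' c, wr ω c) h0
    (by positivity) (covering hω)

end Pool.Agent.R978.Stable
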