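import Mathlib

/-!
# Deterministic part: local minima of the synchronization energy

For a symmetric matrix `A` with zero diagonal that is close to `a (J - I)` in operator norm and has
all row sums at least `η a n`, every local minimum of the energy is constant modulo `2π`.
-/

set_option autoImplicit false

open Filter Topology

namespace Pool.Agent.R978.Sync

lemma scalar_key {x y l G p q : ℝ} (hxy : x ^ 2 + y ^ 2 = 1) (hl : 0 ≤ l) (hG : 0 < G)
    (hp : l * x = G + p) (hq : l * y = q) :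
    2 * (1 - x) * G ^ 2 ≤ 4 * (p ^ 2 + q ^ 2) := by
  have hp' : p = l * x - G := by linarith
  subst hq
  rw [hp']
  have h1 : (l * x - G) ^ 2 + (l * y) ^ 2 = l ^ 2 - 2 * l * G * x + G ^ 2 := by
    have : (l * x - G) ^ 2 + (l * y) ^ 2 = l ^ 2 * (x ^ 2 + y ^ 2) - 2 * l * G * x + G ^ 2 := by ring
    rw [this, hxy]; ring
  rw [h1]
  have hx1 : x ≤ 1 := by nlinarith [sq_nonneg y, sq_nonneg (x - 1)]
  have hx2 : -1 ≤ x := by nlinarith [sq_nonneg y, sq_nonneg (x + 1)]
  by_cases hx : x ≤ 0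
  · have h2 : 0 ≤ l * G * (-x) := by
      have := mul_nonneg (mul_nonneg hl hG.le) (neg_nonneg.mpr hx)
      exact this
    nlinarith [sq_nonneg l, sq_nonneg G, mul_nonneg (sq_nonneg G) (by linarith : (0:ℝ) ≤ 1 + x)]
  · push Not at hx
    have h3 : 0 ≤ (1 - x) * (1 + 2 * x) := mul_nonneg (by linarith) (by linarith)
    have h4 : 0 ≤ G ^ 2 * ((1 - x) * (1 + 2 * x)) := mul_nonneg (sq_nonneg _) h3
    nlinarith [sq_nonneg (l - G * x)]

variable {n : ℕ}

/-- The energy. -/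
noncomputable def E (A : Fin n → Fin n → ℝ) (φ : Fin n → ℝ) : ℝ :=
  (1 / 2 : ℝ) * ∑ i : Fin n, ∑ j : Fin n, A i j * (1 - Real.cos (φ i - φ j))

/-- Second order condition. -/
lemma second_order (A : Fin n → Fin n → ℝ) (θ : Fin n → ℝ) (h : IsLocalMin (E A) θ)
    (u : Fin n → ℝ) :
    0 ≤ ∑ i, ∑ j, A i j * Real.cos (θ i - θ j) * (u i - u j) ^ 2 := by
  -- for small t, `∑ A cos (1 - cos (t u_ij)) ≥ 0`
  have hcont : Tendsto (fun t : ℝ => θ + t • u) (𝓝 0) (𝓝 θ) := by
    have : Continuous (fun t : ℝ => θ + t • u) := by fun_prop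
    have h2 := this.tendsto 0
    simpa using h2
  have hcont' : Tendsto (fun t : ℝ => θ + (-t) • u) (𝓝 0) (𝓝 θ) := by
    have : Continuous (fun t : ℝ => θ + (-t) • u) := by fun_prop
    have h2 := this.tendsto 0
    simpa using h2
  have h1 : ∀ᶠ t : ℝ in 𝓝 0, 0 ≤ ∑ i, ∑ j, A i j * Real.cos (θ i - θ j) *
      (1 - Real.cos (t * (u i - u j))) := by
    filter_upwards [hcont.eventually h, hcont'.eventually h] with t ht1 ht2
    have h3 : E A (θ + t • u) + E A (θ + (-t) • u) - 2 * E A θ =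
        ∑ i, ∑ j, A i j * Real.cos (θ i - θ j) * (1 - Real.cos (t * (u i - u j))) := by
      unfold E
      rw [Finset.mul_sum, Finset.mul_sum, Finset.mul_sum, Finset.mul_sum, ← Finset.sum_add_distrib,
        ← Finset.sum_sub_distrib]
      refine Finset.sum_congr rfl fun i _ => ?_
      rw [Finset.mul_sum, Finset.mul_sum, Finset.mul_sum, Finset.mul_sum, ← Finset.sum_add_distrib,
        ← Finset.sum_sub_distrib]
      refine Finset.sum_congr rfl fun j _ => ?_
      simp only [Pi.add_apply, Pi.smul_apply, smul_eq_mul]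
      have e1 : θ i + t * u i - (θ j + t * u j) = (θ i - θ j) + t * (u i - u j) := by ring
      have e2 : θ i + -t * u i - (θ j + -t * u j) = (θ i - θ j) - t * (u i - u j) := by ring
      rw [e1, e2, Real.cos_add (θ i - θ j), Real.cos_sub (θ i - θ j)]
      ring
    rw [← h3]
    linarith
  -- divide by t^2/2
  have h2 : Tendsto (fun t : ℝ => ∑ i, ∑ j, A i j * Real.cos (θ i - θ j) *
      ((1 - Real.cos (t * (u i - u j))) * (2 / t ^ 2))) (𝓝[≠] 0)
      (𝓝 (∑ i, ∑ j, A i j * Real.cos (θ i - θ j) * (u i - u j) ^ 2)) := by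
    refine tendsto_finsetSum _ fun i _ => tendsto_finsetSum _ fun j _ => ?_
    refine Tendsto.const_mul _ ?_
    set v := u i - u j with hv
    by_cases hv0 : v = 0
    · simp [hv0]
    -- 1 - cos (t v) = 2 sin^2 (t v / 2)
    have h3 : Tendsto (fun t : ℝ => (Real.sinc (t * v / 2)) ^ 2 * v ^ 2) (𝓝[≠] 0) (𝓝 (v ^ 2)) := by
      have hc : Continuous (fun t : ℝ => (Real.sinc (t * v / 2)) ^ 2 * v ^ 2) := by
        have := Real.continuous_sinc
        fun_prop
      have := hc.tendsto 0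
      simp only [zero_mul, zero_div, Real.sinc_zero, one_pow, one_mul] at this
      exact this.mono_left nhdsWithin_le_nhds
    refine h3.congr' ?_
    filter_upwards [self_mem_nhdsWithin] with t ht
    have ht0 : t ≠ 0 := ht
    rw [Real.sinc_of_ne_zero (by positivity)]
    have h4 : Real.cos (t * v) = 1 - 2 * Real.sin (t * v / 2) ^ 2 := by
      have := Real.cos_two_mul (t * v / 2)
      rw [show 2 * (t * v / 2) = t * v by ring] at this
      rw [this]
      have := Real.sin_sq_add_cos_sq (t * v / 2)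
      linarith
    rw [h4]
    field_simp
    ring
  refine ge_of_tendsto h2 ?_
  have h1' := h1.filter_mono (nhdsWithin_le_nhds (s := {(0:ℝ)}ᶜ))
  filter_upwards [h1', self_mem_nhdsWithin] with t ht ht0
  have ht0' : t ≠ 0 := ht0
  have : ∑ i, ∑ j, A i j * Real.cos (θ i - θ j) *
      ((1 - Real.cos (t * (u i - u j))) * (2 / t ^ 2)) =
      (∑ i, ∑ j, A i j * Real.cos (θ i - θ j) * (1 - Real.cos (t * (u i - u j)))) * (2 / t ^ 2) := by
    rw [Finset.sum_mul]
    refine Finset.sum_congr rfl fun i _ => ?_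
    rw [Finset.sum_mul]
    refine Finset.sum_congr rfl fun j _ => ?_
    ring
  rw [this]
  positivity

/-- First order condition. -/
lemma first_order (A : Fin n → Fin n → ℝ) (hsym : ∀ i j, A i j = A j i)
    (θ : Fin n → ℝ) (h : IsLocalMin (E A) θ) (k : Fin n) :
    ∑ j, A k j * Real.sin (θ k - θ j) = 0 := by
  set u : Fin n → ℝ := Pi.single k 1 with hu
  have hcont : Tendsto (fun t : ℝ => θ + t • u) (𝓝 0) (𝓝 θ) := by
    have : Continuous (fun t : ℝ => θ + t • u) := by fun_prop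
    have h2 := this.tendsto 0
    simpa using h2
  have h1 : IsLocalMin (fun t : ℝ => E A (θ + t • u)) 0 := by
    have := hcont.eventually h
    unfold IsLocalMin IsMinFilter
    simpa using this
  have h2 : HasDerivAt (fun t : ℝ => E A (θ + t • u))
      ((1 / 2 : ℝ) * ∑ i, ∑ j, A i j * (Real.sin (θ i - θ j) * (u i - u j))) 0 := by
    unfold E
    refine HasDerivAt.const_mul _ ?_
    refine HasDerivAt.fun_sum fun i _ => HasDerivAt.fun_sum fun j _ => ?_
    refine HasDerivAt.const_mul _ ?_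
    simp only [Pi.add_apply, Pi.smul_apply, smul_eq_mul]
    have h3 : HasDerivAt (fun t : ℝ => θ i + t * u i - (θ j + t * u j)) (u i - u j) 0 := by
      have h4 : HasDerivAt (fun t : ℝ => θ i + t * u i) (u i) 0 := by
        simpa using ((hasDerivAt_id (0:ℝ)).mul_const (u i)).const_add (θ i)
      have h5 : HasDerivAt (fun t : ℝ => θ j + t * u j) (u j) 0 := by
        simpa using ((hasDerivAt_id (0:ℝ)).mul_const (u j)).const_add (θ j)
      exact h4.sub h5
    have h4 := (h3.cos).const_sub 1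
    simpa using h4
  have h3 := h1.hasDerivAt_eq_zero h2
  have h4 : ∑ i, ∑ j, A i j * (Real.sin (θ i - θ j) * (u i - u j)) =
      2 * ∑ j, A k j * Real.sin (θ k - θ j) := by
    have e1 : ∑ i, ∑ j, A i j * (Real.sin (θ i - θ j) * (u i - u j)) =
        (∑ i, ∑ j, A i j * Real.sin (θ i - θ j) * u i) -
        (∑ i, ∑ j, A i j * Real.sin (θ i - θ j) * u j) := by
      rw [← Finset.sum_sub_distrib]
      refine Finset.sum_congr rfl fun i _ => ?_
      rw [← Finset.sum_sub_distrib]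
      refine Finset.sum_congr rfl fun j _ => ?_
      ring
    have e2 : ∑ i, ∑ j, A i j * Real.sin (θ i - θ j) * u i = ∑ j, A k j * Real.sin (θ k - θ j) := by
      rw [Finset.sum_eq_single k]
      · simp [hu]
      · intro b _ hb
        simp [hu, hb]
      · simp
    have e3 : ∑ i, ∑ j, A i j * Real.sin (θ i - θ j) * u j = - ∑ j, A k j * Real.sin (θ k - θ j) := by
      rw [Finset.sum_comm, Finset.sum_eq_single k]
      · rw [← Finset.sum_neg_distrib]
        refine Finset.sum_congr rfl fun i _ => ?_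
        rw [hsym i k, show θ i - θ k = -(θ k - θ i) by ring, Real.sin_neg]
        simp [hu]
      · intro b _ hb
        simp [hu, hb]
      · simp
    rw [e1, e2, e3]; ring
  rw [h4] at h3
  linarith


/-- The deviation `W = A - a (J - I)` applied to `y`. -/
noncomputable def Wv (A : Fin n → Fin n → ℝ) (a : ℝ) (y : Fin n → ℝ) (i : Fin n) : ℝ :=
  ∑ j, A i j * y j - a * ∑ j, y j + a * y i

lemma Wv_norm {A : Fin n → Fin n → ℝ} {a M : ℝ} (hM : 0 < M)
    (hW : ∀ x y : Fin n → ℝ, ∑ i, x i * Wv A a y i ≤ M / 2 * (∑ i, x i ^ 2 + ∑ i, y i ^ 2))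
    (y : Fin n → ℝ) : ∑ i, Wv A a y i ^ 2 ≤ M ^ 2 * ∑ i, y i ^ 2 := by
  have h := hW (fun i => (1 / M) * Wv A a y i) y
  have e1 : ∑ i, (1 / M) * Wv A a y i * Wv A a y i = (1 / M) * ∑ i, Wv A a y i ^ 2 := by
    rw [Finset.mul_sum]; refine Finset.sum_congr rfl fun i _ => ?_; ring
  have e2 : ∑ i, ((1 / M) * Wv A a y i) ^ 2 = (1 / M) ^ 2 * ∑ i, Wv A a y i ^ 2 := by
    rw [Finset.mul_sum]; refine Finset.sum_congr rfl fun i _ => ?_; ring
  rw [e1, e2] at h
  set X := ∑ i, Wv A a y i ^ 2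
  set Y := ∑ i, y i ^ 2
  have h2 : M * ((1 / M) * X) ≤ M * (M / 2 * ((1 / M) ^ 2 * X + Y)) :=
    mul_le_mul_of_nonneg_left h hM.le
  have e3 : M * ((1 / M) * X) = X := by field_simp
  have e4 : M * (M / 2 * ((1 / M) ^ 2 * X + Y)) = X / 2 + M ^ 2 / 2 * Y := by field_simp
  rw [e3, e4] at h2
  linarith

lemma Wv_sub (A : Fin n → Fin n → ℝ) (a : ℝ) (x y : Fin n → ℝ) (i : Fin n) :
    Wv A a (fun j => x j - y j) i = Wv A a x i - Wv A a y i := by
  unfold Wv
  have e1 : ∑ j, A i j * (x j - y j) = ∑ j, A i j * x j - ∑ j, A i j * y j := by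
    rw [← Finset.sum_sub_distrib]; refine Finset.sum_congr rfl fun j _ => ?_; ring
  rw [e1, Finset.sum_sub_distrib]; ring

/-- Core deterministic statement for unit vectors `(x i, y i)` with `∑ y = 0`, `∑ x ≥ 0`. -/
theorem core {A : Fin n → Fin n → ℝ} {a M η : ℝ} (ha : 0 < a) (hM : 0 < M) (hη : 0 < η)
    (hη1 : η ≤ 1) (hn : 0 < n)
    (hW : ∀ x y : Fin n → ℝ, ∑ i, x i * Wv A a y i ≤ M / 2 * (∑ i, x i ^ 2 + ∑ i, y i ^ 2))
    (hD : ∀ k, η * a * n ≤ ∑ j, A k j) (hMg : M ≤ η / 16 * a * n)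
    (x y c : Fin n → ℝ) (hxy : ∀ i, x i ^ 2 + y i ^ 2 = 1) (hc : ∀ k, 0 ≤ c k)
    (hAx : ∀ k, ∑ j, A k j * x j = c k * x k) (hAy : ∀ k, ∑ j, A k j * y j = c k * y k)
    (hS : 0 ≤ ∑ i, ∑ j, A i j * ((x i * x j + y i * y j) - (x i * x j + y i * y j) ^ 2))
    (hy0 : ∑ i, y i = 0) (hx0 : 0 ≤ ∑ i, x i) : ∀ k, x k = 1 := by
  have hn' : (0 : ℝ) < n := by exact_mod_cast hn
  set R := ∑ i, x i with hR
  have hsum : ∑ i, x i ^ 2 + ∑ i, y i ^ 2 = n := by
    rw [← Finset.sum_add_distrib, Finset.sum_congr rfl fun i _ => hxy i]; simp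
  have hx1 : ∀ i, x i ≤ 1 := fun i => by nlinarith [hxy i, sq_nonneg (y i), sq_nonneg (x i - 1)]
  -- bilinear form identities
  have bil : ∀ v : Fin n → ℝ, ∑ i, v i * (∑ j, A i j * v j) =
      ∑ i, v i * Wv A a v i + a * (∑ i, v i) ^ 2 - a * ∑ i, v i ^ 2 := by
    intro v
    unfold Wv
    have e1 : ∑ i, v i * (∑ j, A i j * v j - a * ∑ j, v j + a * v i) =
        ∑ i, v i * (∑ j, A i j * v j) - ∑ i, v i * (a * ∑ j, v j) + ∑ i, a * v i ^ 2 := by
      rw [← Finset.sum_sub_distrib, ← Finset.sum_add_distrib]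
      refine Finset.sum_congr rfl fun i _ => ?_
      ring
    rw [e1, ← Finset.sum_mul, ← Finset.mul_sum]; ring
  have upper : ∀ v : Fin n → ℝ, ∑ i, v i * Wv A a v i ≤ M * ∑ i, v i ^ 2 := by
    intro v; have := hW v v; linarith
  have lower : ∀ v : Fin n → ℝ, -(M * ∑ i, v i ^ 2) ≤ ∑ i, v i * Wv A a v i := by
    intro v
    have h := hW (fun i => - v i) v
    have e1 : ∑ i, - v i * Wv A a v i = - ∑ i, v i * Wv A a v i := by
      rw [← Finset.sum_neg_distrib]; refine Finset.sum_congr rfl fun i _ => ?_; ring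
    have e2 : ∑ i, (- v i) ^ 2 = ∑ i, v i ^ 2 := by
      refine Finset.sum_congr rfl fun i _ => ?_; ring
    rw [e1, e2] at h
    linarith
  -- Lemma 1 : R ≥ n / 2
  have hR2 : (n : ℝ) / 2 ≤ R := by
    set p : Fin n → ℝ := fun i => x i ^ 2 with hp
    set q : Fin n → ℝ := fun i => y i ^ 2 with hq
    set m : Fin n → ℝ := fun i => x i * y i with hm
    have e1 : ∑ i, ∑ j, A i j * ((x i * x j + y i * y j) - (x i * x j + y i * y j) ^ 2) =
        ∑ i, x i * (∑ j, A i j * x j) + ∑ i, y i * (∑ j, A i j * y j)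
        - ∑ i, p i * (∑ j, A i j * p j) - 2 * ∑ i, m i * (∑ j, A i j * m j)
        - ∑ i, q i * (∑ j, A i j * q j) := by
      rw [Finset.mul_sum, ← Finset.sum_add_distrib, ← Finset.sum_sub_distrib,
        ← Finset.sum_sub_distrib, ← Finset.sum_sub_distrib]
      refine Finset.sum_congr rfl fun i _ => ?_
      rw [Finset.mul_sum, Finset.mul_sum, Finset.mul_sum, Finset.mul_sum, Finset.mul_sum,
        Finset.mul_sum, ← Finset.sum_add_distrib, ← Finset.sum_sub_distrib,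
        ← Finset.sum_sub_distrib, ← Finset.sum_sub_distrib]
      refine Finset.sum_congr rfl fun j _ => ?_
      simp only [hp, hq, hm]
      ring
    rw [e1, bil x, bil y, bil p, bil m, bil q, hy0] at hS
    have u1 := upper x
    have u2 := upper y
    have l1 := lower p
    have l2 := lower m
    have l3 := lower q
    have e2 : ∑ i, p i ^ 2 + 2 * ∑ i, m i ^ 2 + ∑ i, q i ^ 2 = n := by
      rw [Finset.mul_sum, ← Finset.sum_add_distrib, ← Finset.sum_add_distrib]
      have : ∀ i ∈ Finset.univ, p i ^ 2 + 2 * m i ^ 2 + q i ^ 2 = (1 : ℝ) := by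
        intro i _
        simp only [hp, hq, hm]
        have := hxy i
        calc (x i ^ 2) ^ 2 + 2 * (x i * y i) ^ 2 + (y i ^ 2) ^ 2 = (x i ^ 2 + y i ^ 2) ^ 2 := by ring
          _ = 1 := by rw [this]; norm_num
      rw [Finset.sum_congr rfl this]; simp
    have e3 : ∑ i, p i + ∑ i, q i = n := hsum
    have e4 : (n : ℝ) ^ 2 / 2 ≤ (∑ i, p i) ^ 2 + (∑ i, q i) ^ 2 := by
      rw [← e3]; nlinarith [sq_nonneg (∑ i, p i - ∑ i, q i)]
    have e5 : 0 ≤ (∑ i, m i) ^ 2 := sq_nonneg _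
    have key : a * (n : ℝ) ^ 2 / 2 ≤ 2 * M * n + a * R ^ 2 := by
      have f1 : a * ((n : ℝ) ^ 2 / 2) ≤ a * ((∑ i, p i) ^ 2 + (∑ i, q i) ^ 2) :=
        mul_le_mul_of_nonneg_left e4 ha.le
      have f2 : 0 ≤ a * (∑ i, m i) ^ 2 := mul_nonneg ha.le e5
      have f3 : M * (∑ i, p i ^ 2 + 2 * ∑ i, m i ^ 2 + ∑ i, q i ^ 2) = M * n := by rw [e2]
      have f4 : a * (∑ i, p i ^ 2 + 2 * ∑ i, m i ^ 2 + ∑ i, q i ^ 2) = a * n := by rw [e2]
      have f5 : M * (∑ i, x i ^ 2 + ∑ i, y i ^ 2) = M * n := by rw [hsum]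
      have f6 : a * (∑ i, x i ^ 2 + ∑ i, y i ^ 2) = a * n := by rw [hsum]
      linarith [f1, f2, f3, f4, f5, f6, u1, u2, l1, l2, l3, hS]
    have key2 : 2 * M * n ≤ a * n ^ 2 / 8 := by
      have : M * n ≤ (η / 16 * a * n) * n := mul_le_mul_of_nonneg_right hMg hn'.le
      have h2 : (η / 16 * a * n) * n ≤ a * n ^ 2 / 16 := by
        have : η * (a * n ^ 2) ≤ 1 * (a * n ^ 2) := mul_le_mul_of_nonneg_right hη1 (by positivity)
        linarith
      linarith
    have key3 : (n : ℝ) ^ 2 / 4 ≤ R ^ 2 := by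
      have h0 : 0 < a * (n : ℝ) ^ 2 := mul_pos ha (pow_pos hn' 2)
      have : a * ((n : ℝ) ^ 2 / 4) ≤ a * R ^ 2 := by linarith
      exact le_of_mul_le_mul_left this ha
    have : ((n : ℝ) / 2) ^ 2 ≤ R ^ 2 := by linarith
    exact (pow_le_pow_iff_left₀ (by positivity) hx0 (by norm_num)).mp this
  have hRpos : 0 < R := by linarith
  have hWx : ∀ k, Wv A a x k = (c k + a) * x k - a * R := by
    intro k; unfold Wv; rw [hAx k]; ring
  have hWy : ∀ k, Wv A a y k = (c k + a) * y k := by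
    intro k; unfold Wv; rw [hAy k, hy0]; ring
  have nx := Wv_norm hM hW x
  have ny := Wv_norm hM hW y
  -- Lemma 2
  have hL2 : (n : ℝ) - R ≤ η ^ 2 / 32 * n := by
    have h1 : ∀ k, 2 * (1 - x k) * (a * R) ^ 2 ≤ 4 * (Wv A a x k ^ 2 + Wv A a y k ^ 2) := by
      intro k
      refine scalar_key (hxy k) (add_nonneg (hc k) ha.le) (by positivity) ?_ (hWy k).symm
      rw [hWx k]; ring
    have h2 : ∑ k, 2 * (1 - x k) * (a * R) ^ 2 ≤ ∑ k, 4 * (Wv A a x k ^ 2 + Wv A a y k ^ 2) :=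
      Finset.sum_le_sum fun k _ => h1 k
    rw [← Finset.sum_mul, ← Finset.mul_sum, ← Finset.mul_sum, Finset.sum_add_distrib,
      Finset.sum_sub_distrib] at h2
    simp only [Finset.sum_const, Finset.card_univ, Fintype.card_fin, nsmul_eq_mul, mul_one] at h2
    rw [← hR] at h2
    have h3 : 2 * (n - R) * (a * R) ^ 2 ≤ 4 * M ^ 2 * n := by
      have : 4 * M ^ 2 * n = 4 * (M ^ 2 * (∑ i, x i ^ 2) + M ^ 2 * (∑ i, y i ^ 2)) := by
        rw [← mul_add, hsum]; ring
      rw [this]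
      linarith
    have hRn : R ≤ n := by
      calc R ≤ ∑ i : Fin n, (1 : ℝ) := Finset.sum_le_sum fun i _ => hx1 i
        _ = n := by simp
    have h4 : 2 * (n - R) * (a * (n / 2)) ^ 2 ≤ 2 * (n - R) * (a * R) ^ 2 := by
      have : 0 ≤ 2 * (n - R) := by linarith
      gcongr
    have h5 : M ^ 2 ≤ (η / 16 * a * n) ^ 2 := by gcongr
    have h6 : 2 * (n - R) * (a * (n / 2)) ^ 2 ≤ 4 * (η / 16 * a * n) ^ 2 * n := by
      refine (h4.trans h3).trans ?_
      have := mul_le_mul_of_nonneg_right h5 hn'.le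
      linarith
    have h7 : (a ^ 2 * n ^ 2 / 2) * (n - R) ≤ (a ^ 2 * n ^ 2 / 2) * (η ^ 2 / 32 * n) := by
      calc (a ^ 2 * n ^ 2 / 2) * (n - R) = 2 * (n - R) * (a * (n / 2)) ^ 2 := by ring
        _ ≤ 4 * (η / 16 * a * n) ^ 2 * n := h6
        _ = (a ^ 2 * n ^ 2 / 2) * (η ^ 2 / 32 * n) := by ring
    exact le_of_mul_le_mul_left h7 (by positivity)
  -- Lemma 3
  have hη2 : η ^ 2 ≤ η := by nlinarith
  set G0 := η / 2 * a * n with hG0
  have hG0pos : 0 < G0 := by positivity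
  have h1 : ∀ k, 2 * (1 - x k) * G0 ^ 2 ≤
      4 * (Wv A a (fun j => x j - 1) k ^ 2 + Wv A a y k ^ 2) := by
    intro k
    set G := ∑ j, A k j + a - a * (n - R) with hG
    have hGG : G0 ≤ G := by
      have h2 := hD k
      have h3 : a * (n - R) ≤ a * (η ^ 2 / 32 * n) := mul_le_mul_of_nonneg_left hL2 ha.le
      have h4 : a * (η ^ 2 / 32 * n) ≤ a * (η / 32 * n) := by gcongr
      have h5 : 0 < a * n := by positivity
      rw [hG, hG0]
      nlinarith [mul_pos hη h5]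
    have hWG : Wv A a (fun j => x j - 1) k = (c k + a) * x k - G := by
      rw [Wv_sub A a x (fun _ => 1) k, hWx k]
      unfold Wv
      rw [hG]
      simp only [mul_one, Finset.sum_const, Finset.card_univ, Fintype.card_fin, nsmul_eq_mul]
      ring
    have h6 : 2 * (1 - x k) * G ^ 2 ≤
        4 * (Wv A a (fun j => x j - 1) k ^ 2 + Wv A a y k ^ 2) := by
      refine scalar_key (hxy k) (add_nonneg (hc k) ha.le) (by linarith) ?_ (hWy k).symm
      rw [hWG]; ring
    refine le_trans ?_ h6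
    have : 0 ≤ 2 * (1 - x k) := by linarith [hx1 k]
    gcongr
  have h2 : ∑ k, 2 * (1 - x k) * G0 ^ 2 ≤
      ∑ k, 4 * (Wv A a (fun j => x j - 1) k ^ 2 + Wv A a y k ^ 2) := Finset.sum_le_sum fun k _ => h1 k
  rw [← Finset.sum_mul, ← Finset.mul_sum, ← Finset.mul_sum, Finset.sum_add_distrib] at h2
  have n1 := Wv_norm hM hW (fun j => x j - 1)
  have h3 : ∑ i, (x i - 1) ^ 2 + ∑ i, y i ^ 2 = 2 * ∑ i, (1 - x i) := by
    rw [← Finset.sum_add_distrib, Finset.mul_sum]
    refine Finset.sum_congr rfl fun i _ => ?_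
    nlinarith [hxy i]
  set T := ∑ i, (1 - x i) with hT
  have hT0 : 0 ≤ T := Finset.sum_nonneg fun i _ => by linarith [hx1 i]
  have h4 : 2 * T * G0 ^ 2 ≤ 4 * (M ^ 2 * (2 * T)) := by
    have e5 : 4 * (M ^ 2 * (2 * T)) =
        4 * (M ^ 2 * ∑ i, (x i - 1) ^ 2 + M ^ 2 * ∑ i, y i ^ 2) := by
      rw [← mul_add, h3]
    rw [e5]
    linarith
  have h5 : M ^ 2 ≤ (η / 16 * a * n) ^ 2 := by gcongr
  have h6 : 4 * (M ^ 2 * (2 * T)) ≤ 4 * ((η / 16 * a * n) ^ 2 * (2 * T)) := by gcongr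
  have h7 : T * (η ^ 2 * a ^ 2 * n ^ 2) ≤ 0 := by
    have h8 := h4.trans h6
    rw [hG0] at h8
    nlinarith
  have hTz : T ≤ 0 := by
    by_contra hcon
    push Not at hcon
    have : 0 < T * (η ^ 2 * a ^ 2 * n ^ 2) := by positivity
    linarith
  have hTz' : T = 0 := le_antisymm hTz hT0
  intro k
  have := (Finset.sum_eq_zero_iff_of_nonneg (fun i _ => by linarith [hx1 i] : ∀ i ∈ Finset.univ, 0 ≤ 1 - x i)).mp hTz' k (Finset.mem_univ k)
  linarith

end Pool.Agent.R978.Sync
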