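import Pool.Agent.R978.SyncDet

set_option autoImplicit false

open Filter Topology

namespace Pool.Agent.R978.Sync

variable {n : ℕ}

lemma diag_nonneg (A : Fin n → Fin n → ℝ) (hsym : ∀ i j, A i j = A j i) (hdiag : ∀ i, A i i = 0)
    (θ : Fin n → ℝ) (h : IsLocalMin (E A) θ) (k : Fin n) :
    0 ≤ ∑ j, A k j * Real.cos (θ k - θ j) := by
  have h1 := second_order A θ h (Pi.single k 1)
  set u : Fin n → ℝ := Pi.single k 1 with hu
  have hu2 : ∀ i, u i ^ 2 = u i := by
    intro i
    by_cases hi : i = k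
    · subst hi; simp [hu]
    · simp [hu, hi]
  have e1 : ∑ i, ∑ j, A i j * Real.cos (θ i - θ j) * (u i - u j) ^ 2 =
      (∑ i, ∑ j, A i j * Real.cos (θ i - θ j) * u i) +
      (∑ i, ∑ j, A i j * Real.cos (θ i - θ j) * u j) -
      2 * (∑ i, ∑ j, A i j * Real.cos (θ i - θ j) * (u i * u j)) := by
    rw [Finset.mul_sum, ← Finset.sum_add_distrib, ← Finset.sum_sub_distrib]
    refine Finset.sum_congr rfl fun i _ => ?_
    rw [Finset.mul_sum, ← Finset.sum_add_distrib, ← Finset.sum_sub_distrib]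
    refine Finset.sum_congr rfl fun j _ => ?_
    have e : (u i - u j) ^ 2 = u i ^ 2 + u j ^ 2 - 2 * (u i * u j) := by ring
    rw [e, hu2, hu2]
    ring
  have e2 : ∑ i, ∑ j, A i j * Real.cos (θ i - θ j) * u i = ∑ j, A k j * Real.cos (θ k - θ j) := by
    rw [Finset.sum_eq_single k]
    · simp [hu]
    · intro b _ hb
      simp [hu, hb]
    · simp
  have e3 : ∑ i, ∑ j, A i j * Real.cos (θ i - θ j) * u j = ∑ j, A k j * Real.cos (θ k - θ j) := by
    rw [Finset.sum_comm, Finset.sum_eq_single k]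
    · refine Finset.sum_congr rfl fun i _ => ?_
      rw [hsym i k, show θ i - θ k = -(θ k - θ i) by ring, Real.cos_neg]
      simp [hu]
    · intro b _ hb
      simp [hu, hb]
    · simp
  have e4 : ∑ i, ∑ j, A i j * Real.cos (θ i - θ j) * (u i * u j) = 0 := by
    refine Finset.sum_eq_zero fun i _ => Finset.sum_eq_zero fun j _ => ?_
    by_cases hi : i = k
    · by_cases hj : j = k
      · subst hi; subst hj; simp [hdiag]
      · simp [hu, hj]
    · simp [hu, hi]
  rw [e1, e2, e3, e4] at h1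
  linarith

theorem det_main {A : Fin n → Fin n → ℝ} {a M η : ℝ} (ha : 0 < a) (hM : 0 < M) (hη : 0 < η)
    (hη1 : η ≤ 1) (hn : 0 < n) (hsym : ∀ i j, A i j = A j i) (hdiag : ∀ i, A i i = 0)
    (hW : ∀ x y : Fin n → ℝ, ∑ i, x i * Wv A a y i ≤ M / 2 * (∑ i, x i ^ 2 + ∑ i, y i ^ 2))
    (hD : ∀ k, η * a * n ≤ ∑ j, A k j) (hMg : M ≤ η / 16 * a * n)
    (θ : Fin n → ℝ) (hθ : IsLocalMin (E A) θ) :
    ∀ i j, ∃ k : ℤ, θ i - θ j = 2 * Real.pi * (k : ℝ) := by
  set C := ∑ i, Real.cos (θ i) with hC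
  set S := ∑ i, Real.sin (θ i) with hS
  set z : ℂ := ⟨C, S⟩ with hz
  set φ := Complex.arg z with hφ
  have hCz : C = ‖z‖ * Real.cos φ := by
    rw [hφ, Complex.norm_mul_cos_arg]
  have hSz : S = ‖z‖ * Real.sin φ := by
    rw [hφ, Complex.norm_mul_sin_arg]
  set x : Fin n → ℝ := fun i => Real.cos (θ i - φ) with hx
  set y : Fin n → ℝ := fun i => Real.sin (θ i - φ) with hy
  have hcosij : ∀ i j, Real.cos (θ i - θ j) = x i * x j + y i * y j := by
    intro i j
    rw [show θ i - θ j = (θ i - φ) - (θ j - φ) by ring, Real.cos_sub]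
  have hy0 : ∑ i, y i = 0 := by
    have : ∑ i, y i = S * Real.cos φ - C * Real.sin φ := by
      simp only [hy, Real.sin_sub]
      rw [Finset.sum_sub_distrib, ← Finset.sum_mul, ← Finset.sum_mul]
    rw [this, hCz, hSz]; ring
  have hx0 : 0 ≤ ∑ i, x i := by
    have : ∑ i, x i = C * Real.cos φ + S * Real.sin φ := by
      simp only [hx, Real.cos_sub]
      rw [Finset.sum_add_distrib, ← Finset.sum_mul, ← Finset.sum_mul]
    rw [this, hCz, hSz]
    have : ‖z‖ * Real.cos φ * Real.cos φ + ‖z‖ * Real.sin φ * Real.sin φ = ‖z‖ := by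
      have := Real.sin_sq_add_cos_sq φ
      calc ‖z‖ * Real.cos φ * Real.cos φ + ‖z‖ * Real.sin φ * Real.sin φ
          = ‖z‖ * (Real.sin φ ^ 2 + Real.cos φ ^ 2) := by ring
        _ = ‖z‖ := by rw [this, mul_one]
    rw [this]; positivity
  set c : Fin n → ℝ := fun k => ∑ j, A k j * Real.cos (θ k - θ j) with hc
  have hfirst := first_order A hsym θ hθ
  have hAx : ∀ k, ∑ j, A k j * x j = c k * x k := by
    intro k
    have : ∑ j, A k j * x j = c k * x k + (∑ j, A k j * Real.sin (θ k - θ j)) * y k := by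
      simp only [hc]
      rw [Finset.sum_mul, Finset.sum_mul, ← Finset.sum_add_distrib]
      refine Finset.sum_congr rfl fun j _ => ?_
      simp only [hx, hy]
      rw [show θ j - φ = (θ k - φ) - (θ k - θ j) by ring, Real.cos_sub (θ k - φ)]
      ring
    rw [this, hfirst k]; ring
  have hAy : ∀ k, ∑ j, A k j * y j = c k * y k := by
    intro k
    have : ∑ j, A k j * y j = c k * y k - (∑ j, A k j * Real.sin (θ k - θ j)) * x k := by
      simp only [hc]
      rw [Finset.sum_mul, Finset.sum_mul, ← Finset.sum_sub_distrib]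
      refine Finset.sum_congr rfl fun j _ => ?_
      simp only [hx, hy]
      rw [show θ j - φ = (θ k - φ) - (θ k - θ j) by ring, Real.sin_sub (θ k - φ)]
      ring
    rw [this, hfirst k]; ring
  have hxy : ∀ i, x i ^ 2 + y i ^ 2 = 1 := fun i => by
    simp only [hx, hy]; exact Real.cos_sq_add_sin_sq _
  have hSS : 0 ≤ ∑ i, ∑ j, A i j * ((x i * x j + y i * y j) - (x i * x j + y i * y j) ^ 2) := by
    have s1 := second_order A θ hθ x
    have s2 := second_order A θ hθ y
    have : ∑ i, ∑ j, A i j * Real.cos (θ i - θ j) * (x i - x j) ^ 2 +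
        ∑ i, ∑ j, A i j * Real.cos (θ i - θ j) * (y i - y j) ^ 2 =
        2 * ∑ i, ∑ j, A i j * ((x i * x j + y i * y j) - (x i * x j + y i * y j) ^ 2) := by
      rw [Finset.mul_sum, ← Finset.sum_add_distrib]
      refine Finset.sum_congr rfl fun i _ => ?_
      rw [Finset.mul_sum, ← Finset.sum_add_distrib]
      refine Finset.sum_congr rfl fun j _ => ?_
      rw [hcosij i j]
      have e : (x i - x j) ^ 2 + (y i - y j) ^ 2 = 2 - 2 * (x i * x j + y i * y j) := by
        have h1 := hxy i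
        have h2 := hxy j
        calc (x i - x j) ^ 2 + (y i - y j) ^ 2
            = (x i ^ 2 + y i ^ 2) + (x j ^ 2 + y j ^ 2) - 2 * (x i * x j + y i * y j) := by ring
          _ = _ := by rw [h1, h2]; ring
      calc A i j * (x i * x j + y i * y j) * (x i - x j) ^ 2 +
            A i j * (x i * x j + y i * y j) * (y i - y j) ^ 2
          = A i j * (x i * x j + y i * y j) * ((x i - x j) ^ 2 + (y i - y j) ^ 2) := by ring
        _ = _ := by rw [e]; ring
    linarith
  have hone := core ha hM hη hη1 hn hW hD hMg x y c hxy (diag_nonneg A hsym hdiag θ hθ) hAx hAy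
    hSS hy0 hx0
  intro i j
  obtain ⟨p, hp⟩ := (Real.cos_eq_one_iff _).mp (hone i)
  obtain ⟨q, hq⟩ := (Real.cos_eq_one_iff _).mp (hone j)
  refine ⟨p - q, ?_⟩
  push_cast
  linarith

end Pool.Agent.R978.Sync
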