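import Pool.Agent.R978.SyncNet

set_option autoImplicit false

open Filter Topology

namespace Pool.Agent.R978.Sync

variable {n : ℕ}

lemma le_double_sum {α : Type*} (s : Finset α) (F : α → α → ℝ) (hF : ∀ k m, 0 ≤ F k m)
    {k m : α} (hk : k ∈ s) (hm : m ∈ s) : F k m ≤ ∑ k ∈ s, ∑ m ∈ s, F k m :=
  (Finset.single_le_sum (f := fun m => F k m) (fun m _ => hF k m) hm).trans
    (Finset.single_le_sum (f := fun k => ∑ m ∈ s, F k m)
      (fun k _ => Finset.sum_nonneg fun m _ => hF k m) hk)

theorem prob_bound {δ η : ℝ} (hn : 0 < n) (h0 : 0 < δ) (h1 : δ ≤ 1 / 2) (hη : 0 < η) (hη1 : η ≤ 1)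
    (hM : 100 * Real.sqrt n ≤ η / 16 * (2 * δ) * n) (good : (Fin n → Fin n → Bool) → Prop)
    [DecidablePred good]
    (hgood : ∀ s, (∀ θ : Fin n → ℝ, IsLocalMin (E (Am s)) θ →
      ∀ i j, ∃ k : ℤ, θ i - θ j = 2 * Real.pi * (k : ℝ)) → good s) :
    1 - (n * Real.exp ((2 * δ) ^ 2 * η * n - (2 * δ) ^ 2 / 2 * ((n : ℝ) - 1)) +
      Real.exp (-(2 * n))) ≤
      ∑ s : Fin n → Fin n → Bool, if good s then wt δ s else 0 := by
  have hn' : (0 : ℝ) < n := by exact_mod_cast hn
  set a := 2 * δ with ha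
  have ha0 : 0 < a := by rw [ha]; linarith
  set r := Real.sqrt n with hr
  have hr0 : 0 < r := Real.sqrt_pos.mpr hn'
  have hr2 : r ^ 2 = n := Real.sq_sqrt hn'.le
  set T := 175 * n * r with hT
  set l := 1 / r with hl
  have hl0 : 0 < l := by positivity
  have hlT : l * T = 175 * n := by rw [hl, hT]; field_simp
  have hl2 : l ^ 2 = 1 / n := by rw [hl, div_pow, hr2, one_pow]
  -- pointwise bound
  have hpt : ∀ s : Fin n → Fin n → Bool, wt δ s ≤ (if good s then wt δ s else 0) +
      (∑ k : Fin n, Real.exp (a * (η * a * n)) * (wt δ s * Real.exp (-a * ∑ j, Am s k j)) +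
       ∑ k ∈ net n, ∑ m ∈ net n, Real.exp (-(l * T)) *
        (wt δ s * Real.exp (l * Bil (Am s) a (fun i => (k i : ℝ)) (fun i => (m i : ℝ))))) := by
    intro s
    have hw := wt_nonneg h0.le h1 s
    have t1 : 0 ≤ ∑ k : Fin n, Real.exp (a * (η * a * n)) *
        (wt δ s * Real.exp (-a * ∑ j, Am s k j)) :=
      Finset.sum_nonneg fun k _ => mul_nonneg (Real.exp_pos _).le
        (mul_nonneg hw (Real.exp_pos _).le)
    have t2 : 0 ≤ ∑ k ∈ net n, ∑ m ∈ net n, Real.exp (-(l * T)) *
        (wt δ s * Real.exp (l * Bil (Am s) a (fun i => (k i : ℝ)) (fun i => (m i : ℝ)))) :=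
      Finset.sum_nonneg fun k _ => Finset.sum_nonneg fun m _ =>
        mul_nonneg (Real.exp_pos _).le (mul_nonneg hw (Real.exp_pos _).le)
    by_cases hg : good s
    · rw [if_pos hg]; linarith
    · rw [if_neg hg, zero_add]
      by_cases hD : ∀ k, η * a * n ≤ ∑ j, Am s k j
      · by_cases hB : ∀ k ∈ net n, ∀ m ∈ net n,
            Bil (Am s) a (fun i => (k i : ℝ)) (fun i => (m i : ℝ)) ≤ T
        · exfalso
          apply hg
          apply hgood
          intro θ hθ
          have hb := net_bound' hn hB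
          have hMe : 4 / 7 * T / n = 100 * r := by rw [hT]; field_simp; norm_num
          rw [hMe] at hb
          exact det_main ha0 (by positivity : 0 < 100 * r) hη hη1 hn (Am_symm s) (Am_diag s) hb hD hM θ hθ
        · push Not at hB
          obtain ⟨k, hk, m, hm, hkm⟩ := hB
          have hone : wt δ s ≤ Real.exp (-(l * T)) *
              (wt δ s * Real.exp (l * Bil (Am s) a (fun i => (k i : ℝ)) (fun i => (m i : ℝ)))) := by
            have : 1 ≤ Real.exp (-(l * T)) *
              Real.exp (l * Bil (Am s) a (fun i => (k i : ℝ)) (fun i => (m i : ℝ))) := by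
              rw [← Real.exp_add]
              apply Real.one_le_exp
              have := mul_lt_mul_of_pos_left hkm hl0
              linarith
            calc wt δ s = wt δ s * 1 := (mul_one _).symm
              _ ≤ wt δ s * (Real.exp (-(l * T)) *
                    Real.exp (l * Bil (Am s) a (fun i => (k i : ℝ)) (fun i => (m i : ℝ)))) :=
                  mul_le_mul_of_nonneg_left this hw
              _ = _ := by ring
          have h3 := le_double_sum (net n) (fun k m => Real.exp (-(l * T)) *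
              (wt δ s * Real.exp (l * Bil (Am s) a (fun i => (k i : ℝ)) (fun i => (m i : ℝ)))))
              (fun k m => mul_nonneg (Real.exp_pos _).le (mul_nonneg hw (Real.exp_pos _).le)) hk hm
          exact hone.trans (h3.trans (le_add_of_nonneg_left t1))
      · push Not at hD
        obtain ⟨k, hk⟩ := hD
        have hone : wt δ s ≤ Real.exp (a * (η * a * n)) *
            (wt δ s * Real.exp (-a * ∑ j, Am s k j)) := by
          have : 1 ≤ Real.exp (a * (η * a * n)) * Real.exp (-a * ∑ j, Am s k j) := by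
            rw [← Real.exp_add]
            apply Real.one_le_exp
            have := mul_lt_mul_of_pos_left hk ha0
            linarith
          calc wt δ s = wt δ s * 1 := (mul_one _).symm
            _ ≤ wt δ s * (Real.exp (a * (η * a * n)) * Real.exp (-a * ∑ j, Am s k j)) :=
                mul_le_mul_of_nonneg_left this hw
            _ = _ := by ring
        have h3 := Finset.single_le_sum
          (f := fun k => Real.exp (a * (η * a * n)) * (wt δ s * Real.exp (-a * ∑ j, Am s k j)))
          (fun k _ => mul_nonneg (Real.exp_pos _).le (mul_nonneg hw (Real.exp_pos _).le))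
          (Finset.mem_univ k)
        exact hone.trans (h3.trans (le_add_of_nonneg_right t2))
  have hsum := Finset.sum_le_sum fun s (_ : s ∈ (Finset.univ : Finset (Fin n → Fin n → Bool))) => hpt s
  rw [sum_wt, Finset.sum_add_distrib, Finset.sum_add_distrib] at hsum
  have err1 : ∑ s : Fin n → Fin n → Bool, ∑ k : Fin n, Real.exp (a * (η * a * n)) *
      (wt δ s * Real.exp (-a * ∑ j, Am s k j)) ≤
      n * Real.exp (a ^ 2 * η * n - a ^ 2 / 2 * ((n : ℝ) - 1)) := by
    rw [Finset.sum_comm]
    calc ∑ k : Fin n, ∑ s : Fin n → Fin n → Bool, Real.exp (a * (η * a * n)) *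
          (wt δ s * Real.exp (-a * ∑ j, Am s k j))
        ≤ ∑ k : Fin n, Real.exp (a ^ 2 * η * n - a ^ 2 / 2 * ((n : ℝ) - 1)) := by
          refine Finset.sum_le_sum fun k _ => ?_
          rw [← Finset.mul_sum]
          have := row_mgf h0.le h1 k
          rw [← ha] at this
          calc _ ≤ Real.exp (a * (η * a * n)) * Real.exp (-(a ^ 2 / 2) * ((n : ℝ) - 1)) :=
                mul_le_mul_of_nonneg_left this (Real.exp_pos _).le
            _ = _ := by rw [← Real.exp_add]; congr 1; ring
      _ = _ := by simp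
  have err2 : ∑ s : Fin n → Fin n → Bool, ∑ k ∈ net n, ∑ m ∈ net n, Real.exp (-(l * T)) *
        (wt δ s * Real.exp (l * Bil (Am s) a (fun i => (k i : ℝ)) (fun i => (m i : ℝ)))) ≤
      Real.exp (-(2 * n)) := by
    rw [Finset.sum_comm]
    calc ∑ k ∈ net n, ∑ s : Fin n → Fin n → Bool, ∑ m ∈ net n, Real.exp (-(l * T)) *
        (wt δ s * Real.exp (l * Bil (Am s) a (fun i => (k i : ℝ)) (fun i => (m i : ℝ))))
        ≤ ∑ k ∈ net n, ∑ m ∈ net n, Real.exp (-(75 / 4 * n)) := by
          refine Finset.sum_le_sum fun k hk => ?_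
          rw [Finset.sum_comm]
          refine Finset.sum_le_sum fun m hm => ?_
          rw [← Finset.mul_sum]
          have hb := bil_mgf h0.le h1 (fun i => (k i : ℝ)) (fun i => (m i : ℝ)) l
          rw [← ha] at hb
          have hk2 : (4 : ℝ) * ∑ i, (k i : ℝ) ^ 2 ≤ 25 * n := by
            have h2 := (Finset.mem_filter.mp hk).2
            exact_mod_cast h2
          have hm2 : (4 : ℝ) * ∑ i, (m i : ℝ) ^ 2 ≤ 25 * n := by
            have h2 := (Finset.mem_filter.mp hm).2
            exact_mod_cast h2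
          have hk0 : 0 ≤ ∑ i, (k i : ℝ) ^ 2 := Finset.sum_nonneg fun i _ => sq_nonneg _
          have hm0 : 0 ≤ ∑ i, (m i : ℝ) ^ 2 := Finset.sum_nonneg fun i _ => sq_nonneg _
          have h5 : 4 * l ^ 2 * ((∑ i, (k i : ℝ) ^ 2) * (∑ i, (m i : ℝ) ^ 2)) ≤ 625 / 4 * n := by
            have h6 : (∑ i, (k i : ℝ) ^ 2) * (∑ i, (m i : ℝ) ^ 2) ≤ (25 / 4 * n) * (25 / 4 * n) := by
              apply mul_le_mul (by linarith) (by linarith) hm0 (by positivity)
            rw [hl2]
            calc 4 * (1 / (n : ℝ)) * ((∑ i, (k i : ℝ) ^ 2) * (∑ i, (m i : ℝ) ^ 2))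
                ≤ 4 * (1 / (n : ℝ)) * ((25 / 4 * n) * (25 / 4 * n)) := by gcongr
              _ = 625 / 4 * n := by field_simp; norm_num
          calc _ ≤ Real.exp (-(l * T)) * Real.exp (625 / 4 * n) := by
                refine mul_le_mul_of_nonneg_left (hb.trans ?_) (Real.exp_pos _).le
                exact Real.exp_le_exp.mpr h5
            _ = Real.exp (-(75 / 4 * n)) := by
                rw [← Real.exp_add, hlT]; congr 1; ring
      _ = ((net n).card : ℝ) * ((net n).card : ℝ) * Real.exp (-(75 / 4 * n)) := by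
          simp; ring
      _ ≤ Real.exp (33 / 4 * n) * Real.exp (33 / 4 * n) * Real.exp (-(75 / 4 * n)) := by
          have := card_net_le n
          gcongr
      _ = Real.exp (-(9 / 4 * n)) := by
          rw [← Real.exp_add, ← Real.exp_add]; congr 1; ring
      _ ≤ Real.exp (-(2 * n)) := by
          apply Real.exp_le_exp.mpr; linarith
  linarith

/-- The asymptotic estimate. -/
theorem main_limit (ε : ℝ) (hε : 0 < ε) (δ : ℕ → ℝ) (hδ : ∀ n : ℕ, 0 ≤ δ n ∧ δ n ≤ 1 / 2)
    (h : ∀ᶠ n : ℕ in atTop,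
        (1 + ε) * Real.sqrt (Real.log ((n : ℕ) : ℝ) / (2 * ((n : ℕ) : ℝ))) ≤ δ n)
    (good : ∀ n : ℕ, (Fin n → Fin n → Bool) → Prop)
    [∀ n, DecidablePred (good n)]
    (hgood : ∀ n s, (∀ θ : Fin n → ℝ, IsLocalMin (E (Am s)) θ →
      ∀ i j, ∃ k : ℤ, θ i - θ j = 2 * Real.pi * (k : ℝ)) → good n s) :
    Tendsto (fun n : ℕ => ∑ s : Fin n → Fin n → Bool, if good n s then wt (δ n) s else 0)
      atTop (𝓝 1) := by
  set e := min ε 1 with he
  have he0 : 0 < e := lt_min hε one_pos
  have he1 : e ≤ 1 := min_le_right _ _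
  have heε : e ≤ ε := min_le_left _ _
  set η := e / 8 with hη
  have hη0 : 0 < η := by positivity
  have hη1 : η ≤ 1 := by rw [hη]; linarith
  have hlog : Tendsto (fun n : ℕ => Real.log (n : ℝ)) atTop atTop :=
    Real.tendsto_log_atTop.comp tendsto_natCast_atTop_atTop
  have hlow : Tendsto (fun n : ℕ => 1 - (Real.exp (1 / 2 - e * Real.log n) +
      Real.exp (-(2 * (n : ℝ))))) atTop (𝓝 1) := by
    have t1 : Tendsto (fun n : ℕ => Real.exp (1 / 2 - e * Real.log n)) atTop (𝓝 0) := by
      apply Real.tendsto_exp_atBot.comp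
      have : Tendsto (fun n : ℕ => e * Real.log n) atTop atTop := hlog.const_mul_atTop he0
      have h2 := tendsto_neg_atTop_atBot.comp this
      have h3 := tendsto_atBot_add_const_left atTop (1 / 2 : ℝ) h2
      refine h3.congr fun n => ?_
      simp only [Function.comp]; ring
    have t2 : Tendsto (fun n : ℕ => Real.exp (-(2 * (n : ℝ)))) atTop (𝓝 0) := by
      apply Real.tendsto_exp_atBot.comp
      have : Tendsto (fun n : ℕ => 2 * (n : ℝ)) atTop atTop :=
        tendsto_natCast_atTop_atTop.const_mul_atTop two_pos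
      exact tendsto_neg_atTop_atBot.comp this
    have := (t1.add t2).const_sub 1
    simpa using this
  refine tendsto_of_tendsto_of_tendsto_of_le_of_le' hlow tendsto_const_nhds ?_ ?_
  · filter_upwards [h, eventually_gt_atTop 1,
      hlog.eventually_ge_atTop (1 / 2 * (1600 / η) ^ 2)] with n hn hn1 hlogn
    have hn' : (1 : ℝ) < n := by exact_mod_cast hn1
    have hn0 : (0 : ℝ) < n := by linarith
    have hL : 0 < Real.log n := Real.log_pos hn'
    set L := Real.log (n : ℝ) with hLdef
    have hsq : (1 + e) * Real.sqrt (L / (2 * n)) ≤ δ n := by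
      refine le_trans ?_ hn
      gcongr
    have hδ2 : (1 + e) ^ 2 * (L / (2 * n)) ≤ δ n ^ 2 := by
      have h2 : ((1 + e) * Real.sqrt (L / (2 * n))) ^ 2 ≤ δ n ^ 2 := by gcongr
      rwa [mul_pow, Real.sq_sqrt (by positivity)] at h2
    have hδpos : 0 < δ n := by
      refine lt_of_lt_of_le ?_ hsq
      have : 0 < Real.sqrt (L / (2 * n)) := Real.sqrt_pos.mpr (by positivity)
      positivity
    have hkey : (1 + e) ^ 2 * L ≤ 2 * δ n ^ 2 * n := by
      have := mul_le_mul_of_nonneg_right hδ2 (by positivity : 0 ≤ 2 * (n : ℝ))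
      calc (1 + e) ^ 2 * L = (1 + e) ^ 2 * (L / (2 * n)) * (2 * n) := by field_simp
        _ ≤ _ := this
        _ = _ := by ring
    have hM : 100 * Real.sqrt n ≤ η / 16 * (2 * δ n) * n := by
      have hLe : L ≤ 2 * δ n ^ 2 * n := by
        have : 1 * L ≤ (1 + e) ^ 2 * L := by
          gcongr; nlinarith
        linarith
      have h3 : (100 * Real.sqrt n) ^ 2 ≤ (η / 16 * (2 * δ n) * n) ^ 2 := by
        have e1 : (100 * Real.sqrt n) ^ 2 = 10000 * n := by
          rw [mul_pow, Real.sq_sqrt hn0.le]; norm_num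
        have e2 : (η / 16 * (2 * δ n) * n) ^ 2 = (η ^ 2 / 128) * n * (2 * δ n ^ 2 * n) := by ring
        rw [e1, e2]
        calc 10000 * (n : ℝ) = (η ^ 2 / 128) * n * (1 / 2 * (1600 / η) ^ 2) := by
              field_simp; norm_num
          _ ≤ (η ^ 2 / 128) * n * (2 * δ n ^ 2 * n) := by
              exact mul_le_mul_of_nonneg_left (hlogn.trans hLe) (by positivity)
      exact (pow_le_pow_iff_left₀ (by positivity) (by positivity) (by norm_num)).mp h3
    have hb := prob_bound (by omega : 0 < n) hδpos (hδ n).2 hη0 hη1 hM (good n) (hgood n)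
    have herr : (n : ℝ) * Real.exp ((2 * δ n) ^ 2 * η * n - (2 * δ n) ^ 2 / 2 * ((n : ℝ) - 1)) ≤
        Real.exp (1 / 2 - e * L) := by
      have e1 : (n : ℝ) = Real.exp L := (Real.exp_log hn0).symm
      have e2 : (n : ℝ) * Real.exp ((2 * δ n) ^ 2 * η * n - (2 * δ n) ^ 2 / 2 * ((n : ℝ) - 1)) =
          Real.exp (L + ((2 * δ n) ^ 2 * η * n - (2 * δ n) ^ 2 / 2 * ((n : ℝ) - 1))) := by
        rw [Real.exp_add, ← e1]
      rw [e2]
      apply Real.exp_le_exp.mpr
      have e3 : (2 * δ n) ^ 2 * η * n - (2 * δ n) ^ 2 / 2 * ((n : ℝ) - 1) =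
          -(1 - 2 * η) * (2 * δ n ^ 2 * n) + 2 * δ n ^ 2 := by ring
      rw [e3]
      have e4 : 2 * δ n ^ 2 ≤ 1 / 2 := by nlinarith [(hδ n).1, (hδ n).2]
      have e5 : (1 - 2 * η) * ((1 + e) ^ 2 * L) ≤ (1 - 2 * η) * (2 * δ n ^ 2 * n) := by
        apply mul_le_mul_of_nonneg_left hkey; rw [hη]; linarith
      have e6 : (1 + e) * L ≤ (1 - 2 * η) * ((1 + e) ^ 2 * L) := by
        have : (1 + e) ≤ (1 - 2 * η) * (1 + e) ^ 2 := by
          rw [hη]; nlinarith [mul_pos he0 he0, mul_nonneg he0.le (by linarith : 0 ≤ 1 - e)]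
        calc (1 + e) * L ≤ ((1 - 2 * η) * (1 + e) ^ 2) * L := by gcongr
          _ = _ := by ring
      linarith
    linarith
  · refine Eventually.of_forall fun n => ?_
    rw [← sum_wt (n := n) (δ n)]
    refine Finset.sum_le_sum fun s _ => ?_
    split_ifs
    · exact le_rfl
    · exact wt_nonneg (hδ n).1 (hδ n).2 s

end Pool.Agent.R978.Sync
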