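import Pool.Agent.R978.SyncProb

set_option autoImplicit false

open Filter Topology

namespace Pool.Agent.R978.Sync

variable {n : ℕ}

/-- Integer points in a large box. -/
noncomputable def box (n : ℕ) : Finset (Fin n → ℤ) :=
  Fintype.piFinset fun _ : Fin n => Finset.Icc (-(7 * (n : ℤ))) (7 * (n : ℤ))

/-- The net. -/
noncomputable def net (n : ℕ) : Finset (Fin n → ℤ) :=
  (box n).filter fun k => 4 * ∑ i, k i ^ 2 ≤ 25 * (n : ℤ)

lemma exp_neg_sq_le (m : ℕ) : Real.exp (-(m : ℝ) ^ 2) ≤ (1 / 2) ^ m := by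
  have h1 : Real.exp (-(m : ℝ) ^ 2) ≤ Real.exp (-(m : ℝ)) := by
    apply Real.exp_le_exp.mpr
    have : m ≤ m ^ 2 := Nat.le_self_pow (by norm_num) m
    have : (m : ℝ) ≤ (m : ℝ) ^ 2 := by exact_mod_cast this
    linarith
  have h2 : Real.exp (-(m : ℝ)) = Real.exp (-1) ^ m := by
    rw [← Real.exp_nat_mul]; congr 1; ring
  have h3 : Real.exp (-1) ≤ 1 / 2 := by
    rw [Real.exp_neg, one_div]
    have := Real.add_one_le_exp 1
    exact inv_anti₀ (by norm_num) (by linarith)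
  calc _ ≤ _ := h1
    _ = _ := h2
    _ ≤ _ := by gcongr

lemma sum_exp_le (N : ℕ) : ∑ j ∈ Finset.Icc (-(N : ℤ)) (N : ℤ), Real.exp (-(j : ℝ) ^ 2) ≤ 4 := by
  have hsub : Finset.Icc (-(N : ℤ)) (N : ℤ) ⊆
      (Finset.range (N + 1)).image (fun m : ℕ => (m : ℤ)) ∪
      (Finset.range (N + 1)).image (fun m : ℕ => -(m : ℤ)) := by
    intro j hj
    rw [Finset.mem_Icc] at hj
    rw [Finset.mem_union, Finset.mem_image, Finset.mem_image]
    rcases le_total 0 j with h | h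
    · left
      exact ⟨j.toNat, by rw [Finset.mem_range]; omega, by omega⟩
    · right
      exact ⟨(-j).toNat, by rw [Finset.mem_range]; omega, by omega⟩
  have h1 : ∑ m ∈ Finset.range (N + 1), Real.exp (-(m : ℝ) ^ 2) ≤ 2 := by
    calc _ ≤ ∑ m ∈ Finset.range (N + 1), ((1 : ℝ) / 2) ^ m :=
          Finset.sum_le_sum fun m _ => exp_neg_sq_le m
      _ ≤ 2 := sum_geometric_two_le (N + 1)
  calc ∑ j ∈ Finset.Icc (-(N : ℤ)) (N : ℤ), Real.exp (-(j : ℝ) ^ 2)
      ≤ ∑ j ∈ (Finset.range (N + 1)).image (fun m : ℕ => (m : ℤ)) ∪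
          (Finset.range (N + 1)).image (fun m : ℕ => -(m : ℤ)), Real.exp (-(j : ℝ) ^ 2) :=
        Finset.sum_le_sum_of_subset_of_nonneg hsub fun _ _ _ => (Real.exp_pos _).le
    _ ≤ ∑ j ∈ (Finset.range (N + 1)).image (fun m : ℕ => (m : ℤ)), Real.exp (-(j : ℝ) ^ 2) +
        ∑ j ∈ (Finset.range (N + 1)).image (fun m : ℕ => -(m : ℤ)), Real.exp (-(j : ℝ) ^ 2) := by
        rw [← Finset.sum_union_inter]
        have : 0 ≤ ∑ x ∈ (Finset.range (N + 1)).image (fun m : ℕ => (m : ℤ)) ∩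
          (Finset.range (N + 1)).image (fun m : ℕ => -(m : ℤ)), Real.exp (-(x : ℝ) ^ 2) :=
          Finset.sum_nonneg fun _ _ => (Real.exp_pos _).le
        linarith
    _ ≤ 2 + 2 := by
        refine add_le_add ?_ ?_
        · rw [Finset.sum_image (by intro a _ b _ h; simpa using h)]
          simpa using h1
        · rw [Finset.sum_image (by intro a _ b _ h; simpa using h)]
          simpa using h1
    _ = 4 := by norm_num

lemma card_net_le (n : ℕ) : ((net n).card : ℝ) ≤ Real.exp (33 / 4 * n) := by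
  have h1 : ((net n).card : ℝ) ≤ ∑ k ∈ box n, Real.exp (25 / 4 * n) * ∏ i, Real.exp (-(k i : ℝ) ^ 2) := by
    calc ((net n).card : ℝ) = ∑ k ∈ net n, (1 : ℝ) := by simp
      _ ≤ ∑ k ∈ net n, Real.exp (25 / 4 * n) * ∏ i, Real.exp (-(k i : ℝ) ^ 2) := by
          refine Finset.sum_le_sum fun k hk => ?_
          rw [← Real.exp_sum, ← Real.exp_add]
          apply Real.one_le_exp
          have h2 := (Finset.mem_filter.mp hk).2
          have h3 : (4 : ℝ) * ∑ i, (k i : ℝ) ^ 2 ≤ 25 * n := by exact_mod_cast h2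
          rw [Finset.sum_neg_distrib]
          linarith
      _ ≤ _ := Finset.sum_le_sum_of_subset_of_nonneg (Finset.filter_subset _ _)
          fun k _ _ => mul_nonneg (Real.exp_pos _).le
            (Finset.prod_nonneg fun i _ => (Real.exp_pos _).le)
  rw [← Finset.mul_sum] at h1
  have h2 : ∑ k ∈ box n, ∏ i, Real.exp (-(k i : ℝ) ^ 2) =
      ∏ i : Fin n, ∑ j ∈ Finset.Icc (-(7 * (n : ℤ))) (7 * (n : ℤ)), Real.exp (-(j : ℝ) ^ 2) := by
    rw [Finset.prod_univ_sum]; rfl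
  rw [h2] at h1
  have h3 : ∏ i : Fin n, ∑ j ∈ Finset.Icc (-(7 * (n : ℤ))) (7 * (n : ℤ)), Real.exp (-(j : ℝ) ^ 2) ≤
      ∏ i : Fin n, (4 : ℝ) := by
    refine Finset.prod_le_prod (fun i _ => Finset.sum_nonneg fun _ _ => (Real.exp_pos _).le) ?_
    intro i _
    have := sum_exp_le (7 * n)
    push_cast at this
    exact this
  have h4 : (4 : ℝ) ≤ Real.exp 2 := by
    have h5 : Real.exp 2 = Real.exp 1 * Real.exp 1 := by rw [← Real.exp_add]; norm_num
    have h6 := Real.add_one_le_exp 1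
    rw [h5]; nlinarith
  calc ((net n).card : ℝ) ≤ Real.exp (25 / 4 * n) * ∏ i : Fin n, (4 : ℝ) :=
        h1.trans (mul_le_mul_of_nonneg_left h3 (Real.exp_pos _).le)
    _ = Real.exp (25 / 4 * n) * 4 ^ n := by simp
    _ ≤ Real.exp (25 / 4 * n) * (Real.exp 2) ^ n := by gcongr
    _ = Real.exp (33 / 4 * n) := by
        rw [← Real.exp_nat_mul, ← Real.exp_add]; congr 1; ring

lemma round_mem_net {x : Fin n → ℝ} (hx : ∑ i, x i ^ 2 ≤ n) :
    (fun i => round (2 * x i)) ∈ net n := by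
  have h1 : ∀ i, (round (2 * x i) : ℝ) ^ 2 ≤ 5 * x i ^ 2 + 5 / 4 := by
    intro i
    have h2 := abs_sub_round (2 * x i)
    have h3 := abs_le.mp h2
    set r : ℝ := (round (2 * x i) : ℝ)
    nlinarith [sq_nonneg (r - 2 * x i + x i / 2), sq_nonneg (r - 2 * x i - x i / 2),
      mul_nonneg (by linarith [h3.1] : 0 ≤ 1 / 2 + (2 * x i - r)) (by linarith [h3.2] : 0 ≤ 1 / 2 - (2 * x i - r))]
  have h2 : ∑ i, (round (2 * x i) : ℝ) ^ 2 ≤ 25 / 4 * n := by
    calc _ ≤ ∑ i, (5 * x i ^ 2 + 5 / 4) := Finset.sum_le_sum fun i _ => h1 i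
      _ = 5 * ∑ i, x i ^ 2 + 5 / 4 * n := by
          rw [Finset.sum_add_distrib, ← Finset.mul_sum]; simp; ring
      _ ≤ _ := by linarith
  have h3 : 4 * ∑ i, (round (2 * x i)) ^ 2 ≤ 25 * (n : ℤ) := by
    have : (4 : ℝ) * ∑ i, (round (2 * x i) : ℝ) ^ 2 ≤ 25 * n := by linarith
    exact_mod_cast this
  unfold net box
  rw [Finset.mem_filter, Fintype.mem_piFinset]
  refine ⟨fun i => ?_, h3⟩
  have h4 : (round (2 * x i)) ^ 2 ≤ ∑ j, (round (2 * x j)) ^ 2 :=
    Finset.single_le_sum (f := fun j => (round (2 * x j)) ^ 2) (fun j _ => sq_nonneg _) (Finset.mem_univ i)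
  rw [Finset.mem_Icc]
  constructor <;> nlinarith

lemma Bil_add_left (A : Fin n → Fin n → ℝ) (a : ℝ) (x x' y : Fin n → ℝ) :
    Bil A a (fun i => x i + x' i) y = Bil A a x y + Bil A a x' y := by
  unfold Bil
  rw [← Finset.sum_add_distrib]
  refine Finset.sum_congr rfl fun i _ => ?_
  ring

lemma Wv_add (A : Fin n → Fin n → ℝ) (a : ℝ) (x y : Fin n → ℝ) (i : Fin n) :
    Wv A a (fun j => x j + y j) i = Wv A a x i + Wv A a y i := by
  unfold Wv
  have e1 : ∑ j, A i j * (x j + y j) = ∑ j, A i j * x j + ∑ j, A i j * y j := by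
    rw [← Finset.sum_add_distrib]; refine Finset.sum_congr rfl fun j _ => ?_; ring
  rw [e1, Finset.sum_add_distrib]; ring

lemma Wv_smul (A : Fin n → Fin n → ℝ) (a c : ℝ) (y : Fin n → ℝ) (i : Fin n) :
    Wv A a (fun j => c * y j) i = c * Wv A a y i := by
  unfold Wv
  have e1 : ∑ j, A i j * (c * y j) = c * ∑ j, A i j * y j := by
    rw [Finset.mul_sum]; refine Finset.sum_congr rfl fun j _ => ?_; ring
  rw [e1, ← Finset.mul_sum]; ring

lemma Bil_add_right (A : Fin n → Fin n → ℝ) (a : ℝ) (x y y' : Fin n → ℝ) :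
    Bil A a x (fun i => y i + y' i) = Bil A a x y + Bil A a x y' := by
  unfold Bil
  rw [← Finset.sum_add_distrib]
  refine Finset.sum_congr rfl fun i _ => ?_
  rw [Wv_add]; ring

lemma Bil_smul (A : Fin n → Fin n → ℝ) (a c d : ℝ) (x y : Fin n → ℝ) :
    Bil A a (fun i => c * x i) (fun i => d * y i) = c * d * Bil A a x y := by
  unfold Bil
  rw [Finset.mul_sum]
  refine Finset.sum_congr rfl fun i _ => ?_
  rw [Wv_smul]; ring

lemma Bil_le_of_ball (A : Fin n → Fin n → ℝ) (a : ℝ) (hn : 0 < n) :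
    ∃ B : ℝ, ∀ x y : Fin n → ℝ, ∑ i, x i ^ 2 ≤ n → ∑ i, y i ^ 2 ≤ n → Bil A a x y ≤ B := by
  refine ⟨∑ i, ∑ j, |A i j| * (n * n) + |a| * ∑ i : Fin n, ∑ j : Fin n, (n * n : ℝ), ?_⟩
  intro x y hx hy
  have hn1 : (1 : ℝ) ≤ n := by exact_mod_cast hn
  have hb : ∀ z : Fin n → ℝ, ∑ i, z i ^ 2 ≤ n → ∀ i, |z i| ≤ n := by
    intro z hz i
    have h1 : z i ^ 2 ≤ n := (Finset.single_le_sum (f := fun j => z j ^ 2)
      (fun j _ => sq_nonneg _) (Finset.mem_univ i)).trans hz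
    have h2 : |z i| ^ 2 ≤ (n : ℝ) ^ 2 := by rw [sq_abs]; nlinarith
    exact (pow_le_pow_iff_left₀ (abs_nonneg _) (by linarith) (by norm_num)).mp h2
  have hxy : ∀ i j, |x i * y j| ≤ (n * n : ℝ) := by
    intro i j
    rw [abs_mul]
    exact mul_le_mul (hb x hx i) (hb y hy j) (abs_nonneg _) (by linarith)
  rw [Bil_eq, sub_eq_add_neg]
  refine add_le_add ?_ ?_
  · refine Finset.sum_le_sum fun i _ => Finset.sum_le_sum fun j _ => ?_
    calc A i j * (x i * y j) ≤ |A i j * (x i * y j)| := le_abs_self _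
      _ = |A i j| * |x i * y j| := abs_mul _ _
      _ ≤ _ := by gcongr; exact hxy i j
  · calc -(a * ∑ i, ∑ j, (if i = j then 0 else x i * y j))
        ≤ |a * ∑ i, ∑ j, (if i = j then 0 else x i * y j)| := neg_le_abs _
      _ = |a| * |∑ i, ∑ j, (if i = j then 0 else x i * y j)| := abs_mul _ _
      _ ≤ |a| * ∑ i : Fin n, ∑ j : Fin n, (n * n : ℝ) := by
          gcongr
          refine (Finset.abs_sum_le_sum_abs _ _).trans ?_
          refine Finset.sum_le_sum fun i _ => (Finset.abs_sum_le_sum_abs _ _).trans ?_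
          refine Finset.sum_le_sum fun j _ => ?_
          split_ifs
          · simp; positivity
          · exact hxy i j

theorem net_bound {A : Fin n → Fin n → ℝ} {a T : ℝ} (hn : 0 < n)
    (hT : ∀ k ∈ net n, ∀ l ∈ net n, Bil A a (fun i => (k i : ℝ)) (fun i => (l i : ℝ)) ≤ T) :
    ∀ x y : Fin n → ℝ, ∑ i, x i ^ 2 ≤ n → ∑ i, y i ^ 2 ≤ n → Bil A a x y ≤ 4 / 7 * T := by
  obtain ⟨B, hB⟩ := Bil_le_of_ball A a hn
  set S : Set ℝ := {b | ∃ x y : Fin n → ℝ, ∑ i, x i ^ 2 ≤ n ∧ ∑ i, y i ^ 2 ≤ n ∧ b = Bil A a x y}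
    with hS
  have hbdd : BddAbove S := ⟨B, by rintro b ⟨x, y, hx, hy, rfl⟩; exact hB x y hx hy⟩
  have hne : S.Nonempty := ⟨_, 0, 0, by simp, by simp, rfl⟩
  have hle : ∀ x y : Fin n → ℝ, ∑ i, x i ^ 2 ≤ n → ∑ i, y i ^ 2 ≤ n → Bil A a x y ≤ sSup S :=
    fun x y hx hy => le_csSup hbdd ⟨x, y, hx, hy, rfl⟩
  have hsup : sSup S ≤ T / 4 + 9 / 16 * sSup S := by
    refine csSup_le hne ?_
    rintro b ⟨x, y, hx, hy, rfl⟩
    set k : Fin n → ℤ := fun i => round (2 * x i) with hk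
    set l : Fin n → ℤ := fun i => round (2 * y i) with hl
    have hkn : k ∈ net n := round_mem_net hx
    have hln : l ∈ net n := round_mem_net hy
    -- errors
    have herr : ∀ z : Fin n → ℝ, ∑ i, (4 * (z i - (round (2 * z i) : ℝ) / 2)) ^ 2 ≤ (n : ℝ) := by
      intro z
      calc ∑ i, (4 * (z i - (round (2 * z i) : ℝ) / 2)) ^ 2 ≤ ∑ i : Fin n, (1 : ℝ) := by
            refine Finset.sum_le_sum fun i _ => ?_
            have h3 := abs_le.mp (abs_sub_round (2 * z i))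
            nlinarith [h3.1, h3.2, mul_nonneg (by linarith [h3.1] : 0 ≤ 1 / 2 + (2 * z i - (round (2 * z i) : ℝ))) (by linarith [h3.2] : 0 ≤ 1 / 2 - (2 * z i - (round (2 * z i) : ℝ)))]
        _ = n := by simp
    have hl2 : ∑ i, ((2 / 5) * (l i : ℝ)) ^ 2 ≤ (n : ℝ) := by
      have h2 := (Finset.mem_filter.mp hln).2
      have h3 : (4 : ℝ) * ∑ i, (l i : ℝ) ^ 2 ≤ 25 * n := by exact_mod_cast h2
      have h4 : ∑ i, ((2 / 5) * (l i : ℝ)) ^ 2 = 4 / 25 * ∑ i, (l i : ℝ) ^ 2 := by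
        rw [Finset.mul_sum]; refine Finset.sum_congr rfl fun i _ => ?_; ring
      rw [h4]; linarith
    have e1 : Bil A a x y = Bil A a x (fun i => (1 / 2) * (l i : ℝ)) +
        Bil A a x (fun i => y i - (l i : ℝ) / 2) := by
      rw [← Bil_add_right]
      congr 1
      ext i; ring
    have e2 : Bil A a x (fun i => (1 / 2) * (l i : ℝ)) =
        Bil A a (fun i => (1 / 2) * (k i : ℝ)) (fun i => (1 / 2) * (l i : ℝ)) +
        Bil A a (fun i => x i - (k i : ℝ) / 2) (fun i => (1 / 2) * (l i : ℝ)) := by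
      rw [← Bil_add_left]
      congr 1
      ext i; ring
    have e3 : Bil A a (fun i => (1 / 2) * (k i : ℝ)) (fun i => (1 / 2) * (l i : ℝ)) ≤ T / 4 := by
      rw [Bil_smul]
      have := hT k hkn l hln
      linarith
    have e4 : Bil A a (fun i => x i - (k i : ℝ) / 2) (fun i => (1 / 2) * (l i : ℝ)) ≤
        5 / 16 * sSup S := by
      have h1 := hle (fun i => 4 * (x i - (k i : ℝ) / 2)) (fun i => (2 / 5) * (l i : ℝ))
        (herr x) hl2
      have h2 : (fun i => (2 / 5) * (l i : ℝ)) = (fun i => (4 / 5) * ((1 / 2) * (l i : ℝ))) := by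
        ext i; ring
      rw [h2, Bil_smul] at h1
      linarith
    have e5 : Bil A a x (fun i => y i - (l i : ℝ) / 2) ≤ 1 / 4 * sSup S := by
      have h1 := hle (fun i => 1 * x i) (fun i => 4 * (y i - (l i : ℝ) / 2))
        (by simpa using hx) (herr y)
      rw [Bil_smul] at h1
      linarith
    rw [e1, e2]
    linarith
  intro x y hx hy
  have := hle x y hx hy
  linarith

theorem net_bound' {A : Fin n → Fin n → ℝ} {a T : ℝ} (hn : 0 < n)
    (hT : ∀ k ∈ net n, ∀ l ∈ net n, Bil A a (fun i => (k i : ℝ)) (fun i => (l i : ℝ)) ≤ T) :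
    ∀ x y : Fin n → ℝ, Bil A a x y ≤ (4 / 7 * T / n) / 2 * (∑ i, x i ^ 2 + ∑ i, y i ^ 2) := by
  have hn' : (0 : ℝ) < n := by exact_mod_cast hn
  have hb := net_bound hn hT
  have hT0 : 0 ≤ T := by
    have := hb 0 0 (by simp) (by simp)
    have h0 : Bil A a 0 0 = 0 := by unfold Bil; simp
    rw [h0] at this
    linarith
  intro x y
  set X := ∑ i, x i ^ 2 with hX
  set Y := ∑ i, y i ^ 2 with hY
  have hX0 : 0 ≤ X := Finset.sum_nonneg fun i _ => sq_nonneg _
  have hY0 : 0 ≤ Y := Finset.sum_nonneg fun i _ => sq_nonneg _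
  have hrhs : 0 ≤ (4 / 7 * T / n) / 2 * (X + Y) := by positivity
  rcases hX0.eq_or_lt with hX1 | hX1
  · have hx : ∀ i, x i = 0 := by
      intro i
      have := (Finset.sum_eq_zero_iff_of_nonneg (fun i _ => sq_nonneg (x i))).mp hX1.symm i (Finset.mem_univ i)
      exact pow_eq_zero_iff (two_ne_zero) |>.mp this
    have : Bil A a x y = 0 := by unfold Bil; simp [hx]
    rw [this]; exact hrhs
  rcases hY0.eq_or_lt with hY1 | hY1
  · have hy : ∀ i, y i = 0 := by
      intro i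
      have := (Finset.sum_eq_zero_iff_of_nonneg (fun i _ => sq_nonneg (y i))).mp hY1.symm i (Finset.mem_univ i)
      exact pow_eq_zero_iff (two_ne_zero) |>.mp this
    have : Bil A a x y = 0 := by unfold Bil Wv; simp [hy]
    rw [this]; exact hrhs
  set t := Real.sqrt (n / X) with ht
  set u := Real.sqrt (n / Y) with hu
  have ht0 : 0 < t := Real.sqrt_pos.mpr (by positivity)
  have hu0 : 0 < u := Real.sqrt_pos.mpr (by positivity)
  have ht2 : t ^ 2 = n / X := Real.sq_sqrt (by positivity)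
  have hu2 : u ^ 2 = n / Y := Real.sq_sqrt (by positivity)
  have h1 := hb (fun i => t * x i) (fun i => u * y i)
    (by
      have : ∑ i, (t * x i) ^ 2 = t ^ 2 * X := by
        rw [hX, Finset.mul_sum]; refine Finset.sum_congr rfl fun i _ => ?_; ring
      rw [this, ht2, div_mul_cancel₀ _ hX1.ne'])
    (by
      have : ∑ i, (u * y i) ^ 2 = u ^ 2 * Y := by
        rw [hY, Finset.mul_sum]; refine Finset.sum_congr rfl fun i _ => ?_; ring
      rw [this, hu2, div_mul_cancel₀ _ hY1.ne'])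
  rw [Bil_smul] at h1
  have h2 : Bil A a x y ≤ 4 / 7 * T / (t * u) := by
    rw [le_div_iff₀ (by positivity)]; linarith
  have h3 : 1 / (t * u) ≤ (X + Y) / (2 * n) := by
    have e1 : X = n / t ^ 2 := by rw [ht2]; field_simp
    have e2 : Y = n / u ^ 2 := by rw [hu2]; field_simp
    rw [e1, e2]
    have : (n / t ^ 2 + n / u ^ 2) / (2 * (n : ℝ)) = ((1 / t) ^ 2 + (1 / u) ^ 2) / 2 := by
      field_simp
    rw [this, show 1 / (t * u) = (1 / t) * (1 / u) by field_simp]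
    nlinarith [sq_nonneg (1 / t - 1 / u)]
  calc Bil A a x y ≤ 4 / 7 * T / (t * u) := h2
    _ = 4 / 7 * T * (1 / (t * u)) := by ring
    _ ≤ 4 / 7 * T * ((X + Y) / (2 * n)) := by gcongr
    _ = (4 / 7 * T / n) / 2 * (X + Y) := by field_simp

end Pool.Agent.R978.Sync
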