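import Pool.Agent.R978.SyncDet2

set_option autoImplicit false

open Filter Topology

namespace Pool.Agent.R978.Sync

variable {n : ℕ}

/-- Sign of a bit. -/
noncomputable def sg (b : Bool) : ℝ := if b = true then (1 : ℝ) else -1

/-- The random symmetric sign matrix. -/
noncomputable def Am (s : Fin n → Fin n → Bool) (i j : Fin n) : ℝ :=
  if i < j then sg (s i j) else if j < i then sg (s j i) else 0

/-- One-entry weight. -/
noncomputable def qw (δ : ℝ) (i j : Fin n) (b : Bool) : ℝ :=
  if i < j then (if b = true then (1 / 2 : ℝ) + δ else (1 / 2 : ℝ) - δ) else (1 / 2 : ℝ)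

/-- Weight of a configuration. -/
noncomputable def wt (δ : ℝ) (s : Fin n → Fin n → Bool) : ℝ := ∏ i, ∏ j, qw δ i j (s i j)

lemma Am_symm (s : Fin n → Fin n → Bool) (i j : Fin n) : Am s i j = Am s j i := by
  unfold Am
  rcases lt_trichotomy i j with h | h | h
  · rw [if_pos h, if_neg (not_lt.mpr h.le), if_pos h]
  · subst h; rfl
  · rw [if_neg (not_lt.mpr h.le), if_pos h, if_pos h]

lemma Am_diag (s : Fin n → Fin n → Bool) (i : Fin n) : Am s i i = 0 := by
  unfold Am; simp

lemma sum_prod_prod (F : Fin n → Fin n → Bool → ℝ) :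
    ∑ s : Fin n → Fin n → Bool, ∏ i, ∏ j, F i j (s i j) = ∏ i, ∏ j, ∑ b, F i j b := by
  have h1 : ∀ i, ∏ j, ∑ b, F i j b = ∑ r : Fin n → Bool, ∏ j, F i j (r j) := fun i => by
    rw [Finset.prod_univ_sum, Fintype.piFinset_univ]
  simp_rw [h1]
  rw [Finset.prod_univ_sum, Fintype.piFinset_univ]

lemma wt_nonneg {δ : ℝ} (h0 : 0 ≤ δ) (h1 : δ ≤ 1 / 2) (s : Fin n → Fin n → Bool) : 0 ≤ wt δ s := by
  unfold wt
  refine Finset.prod_nonneg fun i _ => Finset.prod_nonneg fun j _ => ?_
  unfold qw
  split_ifs <;> linarith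

lemma sum_wt (δ : ℝ) : ∑ s : Fin n → Fin n → Bool, wt δ s = 1 := by
  unfold wt
  rw [sum_prod_prod]
  refine Finset.prod_eq_one fun i _ => Finset.prod_eq_one fun j _ => ?_
  rw [Fintype.sum_bool]
  unfold qw
  by_cases h : i < j
  · simp only [h, if_true, Bool.false_eq_true, if_false]; ring
  · simp only [h, if_false]; norm_num

/-- Linear form in the upper triangular entries. -/
noncomputable def Lf (m : Fin n → Fin n → ℝ) (s : Fin n → Fin n → Bool) : ℝ :=
  ∑ i, ∑ j, if i < j then m i j * sg (s i j) else 0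

lemma mgf (δ : ℝ) (m : Fin n → Fin n → ℝ) :
    ∑ s : Fin n → Fin n → Bool, wt δ s * Real.exp (Lf m s) =
      ∏ i : Fin n, ∏ j : Fin n, if i < j then
        (1 / 2 + δ) * Real.exp (m i j) + (1 / 2 - δ) * Real.exp (- m i j) else 1 := by
  have h1 : ∀ s : Fin n → Fin n → Bool, wt δ s * Real.exp (Lf m s) =
      ∏ i, ∏ j, (qw δ i j (s i j) * Real.exp (if i < j then m i j * sg (s i j) else 0)) := by
    intro s
    unfold wt Lf
    rw [Real.exp_sum, ← Finset.prod_mul_distrib]
    refine Finset.prod_congr rfl fun i _ => ?_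
    rw [Real.exp_sum, ← Finset.prod_mul_distrib]
  simp_rw [h1]
  rw [sum_prod_prod (fun i j b => qw δ i j b * Real.exp (if i < j then m i j * sg b else 0))]
  refine Finset.prod_congr rfl fun i _ => Finset.prod_congr rfl fun j _ => ?_
  rw [Fintype.sum_bool]
  unfold qw sg
  by_cases h : i < j
  · simp only [h, if_true, Bool.false_eq_true, if_false, mul_one, mul_neg]
  · simp only [h, if_false, Real.exp_zero]; norm_num

/-- `cosh a - a sinh a ≤ exp (-a²/2)`. -/
lemma cosh_sub_le {a : ℝ} (ha : 0 ≤ a) :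
    (1 / 2 + a / 2) * Real.exp (-a) + (1 / 2 - a / 2) * Real.exp a ≤ Real.exp (-(a ^ 2) / 2) := by
  have h1 : (1 / 2 + a / 2) * Real.exp (-a) + (1 / 2 - a / 2) * Real.exp a =
      Real.cosh a - a * Real.sinh a := by
    rw [Real.cosh_eq, Real.sinh_eq]; ring
  rw [h1]
  have h2 : Real.cosh a - a * Real.sinh a ≤ 1 - a ^ 2 / 2 := by
    set f : ℝ → ℝ := fun t => 1 - t ^ 2 / 2 - Real.cosh t + t * Real.sinh t with hf
    have hder : ∀ t, HasDerivAt f (t * (Real.cosh t - 1)) t := by
      intro t
      have e1 : HasDerivAt (fun t : ℝ => 1 - t ^ 2 / 2) (-t) t := by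
        have := ((hasDerivAt_pow 2 t).div_const 2).const_sub 1
        refine this.congr_deriv ?_
        norm_num
      have e2 := e1.sub (Real.hasDerivAt_cosh t)
      have e3 := (hasDerivAt_id t).mul (Real.hasDerivAt_sinh t)
      have e4 := e2.add e3
      refine HasDerivAt.congr_deriv (f := f) e4 ?_
      simp only [id]
      ring
    have hmono : MonotoneOn f (Set.Ici 0) := by
      refine monotoneOn_of_deriv_nonneg (convex_Ici 0) ?_ ?_ ?_
      · exact fun t _ => (hder t).continuousAt.continuousWithinAt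
      · exact fun t _ => (hder t).differentiableAt.differentiableWithinAt
      · intro t ht
        rw [interior_Ici] at ht
        rw [(hder t).deriv]
        exact mul_nonneg (le_of_lt ht) (by linarith [Real.one_le_cosh t])
    have h3 := hmono (Set.mem_Ici.mpr le_rfl) (Set.mem_Ici.mpr ha) ha
    simp only [hf] at h3
    norm_num at h3
    linarith
  have h3 := Real.add_one_le_exp (-(a ^ 2) / 2)
  linarith

/-- Hoeffding type bound. -/
lemma hoeffding {a : ℝ} (h0 : 0 ≤ a) (h1 : a ≤ 1) (t : ℝ) :
    (1 / 2 + a / 2) * Real.exp t + (1 / 2 - a / 2) * Real.exp (-t) ≤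
      Real.exp (a * t + 2 * t ^ 2) := by
  have hconv : ∀ y : ℝ, -2 ≤ y → y ≤ 2 → Real.exp (t * y) ≤
      (2 + y) / 4 * Real.exp (2 * t) + (2 - y) / 4 * Real.exp (-(2 * t)) := by
    intro y hy1 hy2
    have := convexOn_exp.2 (Set.mem_univ (2 * t)) (Set.mem_univ (-(2 * t)))
      (by linarith : (0:ℝ) ≤ (2 + y) / 4) (by linarith : (0:ℝ) ≤ (2 - y) / 4) (by ring)
    simp only [smul_eq_mul] at this
    have e : t * y = (2 + y) / 4 * (2 * t) + (2 - y) / 4 * (-(2 * t)) := by ring
    rw [e]
    exact this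
  have e1 := hconv (1 - a) (by linarith) (by linarith)
  have e2 := hconv (-(1 + a)) (by linarith) (by linarith)
  have e3 : (1 / 2 + a / 2) * Real.exp (t * (1 - a)) + (1 / 2 - a / 2) * Real.exp (t * (-(1 + a)))
      ≤ Real.cosh (2 * t) := by
    have f1 := mul_le_mul_of_nonneg_left e1 (by linarith : (0:ℝ) ≤ 1 / 2 + a / 2)
    have f2 := mul_le_mul_of_nonneg_left e2 (by linarith : (0:ℝ) ≤ 1 / 2 - a / 2)
    rw [Real.cosh_eq]
    calc _ ≤ _ := add_le_add f1 f2
      _ = _ := by ring
  have e4 := Real.cosh_le_exp_half_sq (2 * t)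
  have e5 : Real.exp (a * t + 2 * t ^ 2) = Real.exp (a * t) * Real.exp ((2 * t) ^ 2 / 2) := by
    rw [← Real.exp_add]; congr 1; ring
  have e6 : Real.exp t = Real.exp (a * t) * Real.exp (t * (1 - a)) := by
    rw [← Real.exp_add]; congr 1; ring
  have e7 : Real.exp (-t) = Real.exp (a * t) * Real.exp (t * (-(1 + a))) := by
    rw [← Real.exp_add]; congr 1; ring
  rw [e5, e6, e7]
  have e8 := mul_le_mul_of_nonneg_left (e3.trans e4) (Real.exp_pos (a * t)).le
  calc _ = Real.exp (a * t) * ((1 / 2 + a / 2) * Real.exp (t * (1 - a)) +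
      (1 / 2 - a / 2) * Real.exp (t * (-(1 + a)))) := by ring
    _ ≤ _ := e8

lemma tri_sum (f : Fin n → Fin n → ℝ) :
    ∑ i, ∑ j, (if i < j then f i j + f j i else 0) =
      ∑ i, ∑ j, (if i = j then 0 else f i j) := by
  have e1 : ∑ i, ∑ j, (if i < j then f i j + f j i else 0) =
      ∑ i, ∑ j, (if i < j then f i j else 0) + ∑ i, ∑ j, (if i < j then f j i else 0) := by
    rw [← Finset.sum_add_distrib]
    refine Finset.sum_congr rfl fun i _ => ?_
    rw [← Finset.sum_add_distrib]
    refine Finset.sum_congr rfl fun j _ => ?_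
    split_ifs <;> simp
  have e2 : ∑ i, ∑ j, (if i < j then f j i else 0) = ∑ i, ∑ j, (if j < i then f i j else 0) :=
    Finset.sum_comm
  rw [e1, e2, ← Finset.sum_add_distrib]
  refine Finset.sum_congr rfl fun i _ => ?_
  rw [← Finset.sum_add_distrib]
  refine Finset.sum_congr rfl fun j _ => ?_
  rcases lt_trichotomy i j with h | h | h
  · rw [if_pos h, if_neg (not_lt.mpr h.le), if_neg h.ne, add_zero]
  · subst h; simp
  · rw [if_neg (not_lt.mpr h.le), if_pos h, if_neg h.ne', zero_add]

lemma row_sum (g : Fin n → Fin n → ℝ) (k : Fin n) :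
    ∑ i, ∑ j, (if i < j then ((if i = k then (1:ℝ) else 0) + (if j = k then (1:ℝ) else 0)) * g i j
      else 0) = ∑ j, (if k < j then g k j else if j < k then g j k else 0) := by
  have e1 : ∑ i, ∑ j, (if i < j then ((if i = k then (1:ℝ) else 0) + (if j = k then (1:ℝ) else 0))
      * g i j else 0) =
      ∑ i, ∑ j, (if i < j then (if i = k then (1:ℝ) else 0) * g i j else 0) +
      ∑ i, ∑ j, (if i < j then (if j = k then (1:ℝ) else 0) * g i j else 0) := by
    rw [← Finset.sum_add_distrib]
    refine Finset.sum_congr rfl fun i _ => ?_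
    rw [← Finset.sum_add_distrib]
    refine Finset.sum_congr rfl fun j _ => ?_
    split_ifs <;> ring
  have e2 : ∑ i, ∑ j, (if i < j then (if i = k then (1:ℝ) else 0) * g i j else 0) =
      ∑ j, (if k < j then g k j else 0) := by
    rw [Finset.sum_eq_single k]
    · simp
    · intro b _ hb
      simp [hb]
    · simp
  have e3 : ∑ i, ∑ j, (if i < j then (if j = k then (1:ℝ) else 0) * g i j else 0) =
      ∑ i, (if i < k then g i k else 0) := by
    rw [Finset.sum_comm, Finset.sum_eq_single k]
    · simp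
    · intro b _ hb
      simp [hb]
    · simp
  rw [e1, e2, e3, ← Finset.sum_add_distrib]
  refine Finset.sum_congr rfl fun j _ => ?_
  rcases lt_trichotomy k j with h | h | h
  · rw [if_pos h, if_neg (not_lt.mpr h.le), if_pos h, add_zero]
  · subst h; simp
  · rw [if_neg (not_lt.mpr h.le), if_pos h, zero_add, if_neg (not_lt.mpr h.le)]

/-- Chernoff bound for the row sums. -/
lemma row_mgf {δ : ℝ} (h0 : 0 ≤ δ) (h1 : δ ≤ 1 / 2) (k : Fin n) :
    ∑ s : Fin n → Fin n → Bool, wt δ s * Real.exp (-(2 * δ) * ∑ j, Am s k j) ≤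
      Real.exp (-((2 * δ) ^ 2 / 2) * ((n : ℝ) - 1)) := by
  set a := 2 * δ with ha
  set c : Fin n → Fin n → ℝ := fun i j =>
    (if i = k then (1:ℝ) else 0) + (if j = k then (1:ℝ) else 0) with hc
  have e1 : ∀ s : Fin n → Fin n → Bool, -a * ∑ j, Am s k j = Lf (fun i j => -a * c i j) s := by
    intro s
    have := row_sum (fun i j => sg (s i j)) k
    unfold Lf
    have e2 : ∑ j, Am s k j = ∑ i, ∑ j, (if i < j then c i j * sg (s i j) else 0) := by
      rw [this]; rfl
    rw [e2, Finset.mul_sum]
    refine Finset.sum_congr rfl fun i _ => ?_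
    rw [Finset.mul_sum]
    refine Finset.sum_congr rfl fun j _ => ?_
    split_ifs <;> ring
  simp_rw [e1]
  rw [mgf]
  have e3 : Real.exp (-(a ^ 2 / 2) * ((n : ℝ) - 1)) =
      ∏ i : Fin n, ∏ j : Fin n, Real.exp (if i < j then c i j * (-(a ^ 2) / 2) else 0) := by
    simp_rw [← Real.exp_sum]
    congr 1
    have := row_sum (fun _ _ => -(a ^ 2) / 2) k
    rw [this]
    have e4 : ∀ j : Fin n, (if k < j then -(a ^ 2) / 2 else if j < k then -(a ^ 2) / 2 else 0) =
        -(a ^ 2) / 2 - (if j = k then -(a ^ 2) / 2 else 0) := by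
      intro j
      rcases lt_trichotomy k j with h | h | h
      · rw [if_pos h, if_neg h.ne', sub_zero]
      · subst h; simp
      · rw [if_neg (not_lt.mpr h.le), if_pos h, if_neg h.ne, sub_zero]
    rw [Finset.sum_congr rfl fun j _ => e4 j, Finset.sum_sub_distrib]
    simp
    ring
  rw [e3]
  refine Finset.prod_le_prod ?_ ?_
  · intro i _
    refine Finset.prod_nonneg fun j _ => ?_
    split_ifs
    · have : 0 ≤ 1 / 2 - δ := by linarith
      positivity
    · norm_num
  · intro i _
    refine Finset.prod_le_prod ?_ ?_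
    · intro j _
      split_ifs
      · have : 0 ≤ 1 / 2 - δ := by linarith
        positivity
      · norm_num
    · intro j _
      split_ifs with h
      · by_cases hi : i = k
        · have hj : j ≠ k := by rintro rfl; exact absurd h (by rw [hi]; exact lt_irrefl _)
          have hcv : c i j = 1 := by simp [hc, hi, hj]
          have := cosh_sub_le (a := a) (by rw [ha]; linarith)
          rw [hcv]
          have e5 : a / 2 = δ := by rw [ha]; ring
          rw [e5] at this
          simp only [mul_one, neg_neg, one_mul]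
          exact this
        · by_cases hj : j = k
          · have hcv : c i j = 1 := by simp [hc, hi, hj]
            have := cosh_sub_le (a := a) (by rw [ha]; linarith)
            rw [hcv]
            have e5 : a / 2 = δ := by rw [ha]; ring
            rw [e5] at this
            simp only [mul_one, neg_neg, one_mul]
            exact this
          · have hcv : c i j = 0 := by simp [hc, hi, hj]
            rw [hcv]
            simp
            linarith
      · simp

/-- Bilinear form of the deviation. -/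
noncomputable def Bil (A : Fin n → Fin n → ℝ) (a : ℝ) (x y : Fin n → ℝ) : ℝ :=
  ∑ i, x i * Wv A a y i

lemma Bil_eq (A : Fin n → Fin n → ℝ) (a : ℝ) (x y : Fin n → ℝ) :
    Bil A a x y = ∑ i, ∑ j, A i j * (x i * y j) - a * ∑ i, ∑ j, (if i = j then 0 else x i * y j) := by
  unfold Bil Wv
  have e1 : ∀ i, ∑ j, (if i = j then 0 else x i * y j) = x i * ∑ j, y j - x i * y i := by
    intro i
    have : ∀ j, (if i = j then 0 else x i * y j) = x i * y j - (if i = j then x i * y j else 0) := by
      intro j; split_ifs <;> ring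
    rw [Finset.sum_congr rfl fun j _ => this j, Finset.sum_sub_distrib, ← Finset.mul_sum]
    simp
  simp_rw [e1]
  calc ∑ i, x i * (∑ j, A i j * y j - a * ∑ j, y j + a * y i)
      = ∑ i, (∑ j, A i j * (x i * y j) - a * (x i * ∑ j, y j - x i * y i)) := by
        refine Finset.sum_congr rfl fun i _ => ?_
        have e2 : ∑ j, A i j * (x i * y j) = x i * ∑ j, A i j * y j := by
          rw [Finset.mul_sum]; refine Finset.sum_congr rfl fun j _ => ?_; ring
        rw [e2]; ring
    _ = _ := by rw [Finset.sum_sub_distrib, ← Finset.mul_sum]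

lemma Am_sum (s : Fin n → Fin n → Bool) (x y : Fin n → ℝ) :
    ∑ i, ∑ j, Am s i j * (x i * y j) = Lf (fun i j => x i * y j + x j * y i) s := by
  unfold Lf
  have := tri_sum (fun i j => Am s i j * (x i * y j))
  have e1 : ∑ i, ∑ j, (if i = j then 0 else Am s i j * (x i * y j)) =
      ∑ i, ∑ j, Am s i j * (x i * y j) := by
    refine Finset.sum_congr rfl fun i _ => Finset.sum_congr rfl fun j _ => ?_
    split_ifs with h
    · subst h; rw [Am_diag]; ring
    · rfl
  rw [← e1, ← this]
  refine Finset.sum_congr rfl fun i _ => Finset.sum_congr rfl fun j _ => ?_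
  split_ifs with h
  · rw [Am_symm s j i]
    have : Am s i j = sg (s i j) := by unfold Am; rw [if_pos h]
    rw [this]; ring
  · rfl

/-- Sub-Gaussian bound for the bilinear form. -/
lemma bil_mgf {δ : ℝ} (h0 : 0 ≤ δ) (h1 : δ ≤ 1 / 2) (x y : Fin n → ℝ) (l : ℝ) :
    ∑ s : Fin n → Fin n → Bool, wt δ s * Real.exp (l * Bil (Am s) (2 * δ) x y) ≤
      Real.exp (4 * l ^ 2 * ((∑ i, x i ^ 2) * (∑ i, y i ^ 2))) := by
  set a := 2 * δ with ha
  set m : Fin n → Fin n → ℝ := fun i j => l * (x i * y j + x j * y i) with hm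
  set c : ℝ := a * ∑ i, ∑ j, (if i = j then 0 else x i * y j) with hc
  have e1 : ∀ s : Fin n → Fin n → Bool, Real.exp (l * Bil (Am s) a x y) =
      Real.exp (- (l * c)) * Real.exp (Lf m s) := by
    intro s
    rw [Bil_eq, Am_sum, ← Real.exp_add]
    congr 1
    have : Lf m s = l * Lf (fun i j => x i * y j + x j * y i) s := by
      unfold Lf
      rw [Finset.mul_sum]
      refine Finset.sum_congr rfl fun i _ => ?_
      rw [Finset.mul_sum]
      refine Finset.sum_congr rfl fun j _ => ?_
      simp only [hm]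
      split_ifs <;> ring
    rw [this, hc]; ring
  have e2 : ∑ s : Fin n → Fin n → Bool, wt δ s * Real.exp (l * Bil (Am s) a x y) =
      Real.exp (-(l * c)) * ∑ s : Fin n → Fin n → Bool, wt δ s * Real.exp (Lf m s) := by
    rw [Finset.mul_sum]
    refine Finset.sum_congr rfl fun s _ => ?_
    rw [e1]; ring
  rw [e2, mgf]
  have e3 : ∏ i : Fin n, ∏ j : Fin n, (if i < j then
        (1 / 2 + δ) * Real.exp (m i j) + (1 / 2 - δ) * Real.exp (- m i j) else 1) ≤
      ∏ i : Fin n, ∏ j : Fin n, Real.exp (if i < j then a * m i j + 2 * m i j ^ 2 else 0) := by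
    refine Finset.prod_le_prod ?_ ?_
    · intro i _
      refine Finset.prod_nonneg fun j _ => ?_
      split_ifs
      · have : 0 ≤ 1 / 2 - δ := by linarith
        positivity
      · norm_num
    · intro i _
      refine Finset.prod_le_prod ?_ ?_
      · intro j _
        split_ifs
        · have : 0 ≤ 1 / 2 - δ := by linarith
          positivity
        · norm_num
      · intro j _
        split_ifs with h
        · have := hoeffding (a := a) (by rw [ha]; linarith) (by rw [ha]; linarith) (m i j)
          have e5 : a / 2 = δ := by rw [ha]; ring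
          rw [e5] at this
          exact this
        · simp
  have e4 : ∏ i : Fin n, ∏ j : Fin n, Real.exp (if i < j then a * m i j + 2 * m i j ^ 2 else 0) =
      Real.exp (l * c + 2 * ∑ i, ∑ j, (if i < j then m i j ^ 2 else 0)) := by
    simp_rw [← Real.exp_sum]
    congr 1
    have := tri_sum (fun i j => x i * y j)
    rw [hc, ← this, ← mul_assoc, Finset.mul_sum, Finset.mul_sum, ← Finset.sum_add_distrib]
    refine Finset.sum_congr rfl fun i _ => ?_
    rw [Finset.mul_sum, Finset.mul_sum, ← Finset.sum_add_distrib]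
    refine Finset.sum_congr rfl fun j _ => ?_
    simp only [hm]
    split_ifs <;> ring
  have e5 : ∑ i, ∑ j, (if i < j then m i j ^ 2 else 0) ≤
      2 * l ^ 2 * ((∑ i, x i ^ 2) * (∑ i, y i ^ 2)) := by
    have f1 : ∑ i, ∑ j, (if i < j then m i j ^ 2 else 0) ≤
        ∑ i, ∑ j, (if i < j then 2 * l ^ 2 * (x i ^ 2 * y j ^ 2) + 2 * l ^ 2 * (x j ^ 2 * y i ^ 2)
          else 0) := by
      refine Finset.sum_le_sum fun i _ => Finset.sum_le_sum fun j _ => ?_
      split_ifs
      · simp only [hm]
        have : 0 ≤ l ^ 2 * (x i * y j - x j * y i) ^ 2 := by positivity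
        nlinarith
      · exact le_rfl
    have f2 := tri_sum (fun i j => 2 * l ^ 2 * (x i ^ 2 * y j ^ 2))
    rw [f2] at f1
    refine f1.trans ?_
    rw [Finset.sum_mul_sum, Finset.mul_sum]
    refine Finset.sum_le_sum fun i _ => ?_
    rw [Finset.mul_sum]
    refine Finset.sum_le_sum fun j _ => ?_
    split_ifs
    · positivity
    · exact le_rfl
  calc Real.exp (-(l * c)) * _ ≤ Real.exp (-(l * c)) *
        Real.exp (l * c + 2 * ∑ i, ∑ j, (if i < j then m i j ^ 2 else 0)) := by
        rw [← e4]; exact mul_le_mul_of_nonneg_left e3 (Real.exp_pos _).le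
    _ = Real.exp (2 * ∑ i, ∑ j, (if i < j then m i j ^ 2 else 0)) := by
        rw [← Real.exp_add]; congr 1; ring
    _ ≤ _ := by
        apply Real.exp_le_exp.mpr
        linarith

end Pool.Agent.R978.Sync
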